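import Pool.Agent.AT.E.Defs
import Pool.Agent.S3.E.Ash
import Pool.Agent.S3.E.Geo
import Pool.Agent.S3.E.GeoC

/-!
# Project AT, block E: the derivative of the system

For `w = b tan z`: `d (ash w) = dw/cosh q`, `dw = w (db/b + dz/(sin z cos z))`, and `sinh q = w`, so
`d (ash w) = tanh q (db/b + dz/(sin z cos z))`; `b_j = exp (τ log (conj κ_j))`,
`db_j/b_j = τ conj (d κ_j/κ_j) = τ conj (- tan z_j dz_j)` for fixed `τ`.
-/

namespace Pool.Agent.AT.E

open Complex Pool.Agent.S3.E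

variable {ι : Type*}

/-- `d b/b` in the direction `v`. -/
noncomputable def lam (τ : ℝ) (z v : ι → ℂ) (j : ι) : ℂ :=
  (τ : ℂ) * (starRingEnd ℂ) (-(tan (z j) * v j))

private theorem der_comp {E : Type*} [NormedAddCommGroup E] [NormedSpace ℝ E] {g : E → ℂ}
    {g' : E →L[ℝ] ℂ} {x : E} (hg : HasStrictFDerivAt g g' x) {f : ℂ → ℂ} {f' : ℂ}
    (hf : HasStrictDerivAt f f' (g x)) : HasStrictFDerivAt (fun y => f (g y)) (f' • g') x := by
  have h := (hf.complexToReal_fderiv).comp x hg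
  refine h.congr_fderiv ?_
  ext v
  simp

private theorem der_slot [Fintype ι] {τ : ℝ} {z : ι → ℂ} (i j : ι)
    (hc : ∀ i, 0 < (cos (z i)).re) (hs : ∀ i, sin (z i) ≠ 0)
    (h1 : 0 < (bo τ z j * tan (z i)).re) (h2 : 0 < (bo τ z j * tan (z i)).im) :
    ∃ L : (ℝ × (ι → ℂ)) →L[ℝ] ℂ,
      HasStrictFDerivAt (fun x : ℝ × (ι → ℂ) => ash (bo x.1 x.2 j * tan (x.2 i))) L (τ, z) ∧
      ∀ v, L (0, v) = tanh (ash (bo τ z j * tan (z i))) *
        (v i / (sin (z i) * cos (z i)) + lam τ z v j) := by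
  have hci : cos (z i) ≠ 0 := by
    intro h0
    have := hc i
    rw [h0] at this
    simp at this
  have hcj : cos (z j) ≠ 0 := by
    intro h0
    have := hc j
    rw [h0] at this
    simp at this
  have hτ : HasStrictFDerivAt (fun x : ℝ × (ι → ℂ) => (x.1 : ℂ))
      (ofRealCLM.comp (ContinuousLinearMap.fst ℝ ℝ (ι → ℂ))) (τ, z) :=
    ofRealCLM.hasStrictFDerivAt.comp (τ, z) hasStrictFDerivAt_fst
  have hz : ∀ k : ι, HasStrictFDerivAt (fun x : ℝ × (ι → ℂ) => x.2 k)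
      ((ContinuousLinearMap.proj k).comp (ContinuousLinearMap.snd ℝ ℝ (ι → ℂ))) (τ, z) :=
    fun k => (ContinuousLinearMap.hasStrictFDerivAt
      ((ContinuousLinearMap.proj (R := ℝ) (φ := fun _ : ι => ℂ) k).comp
        (ContinuousLinearMap.snd ℝ ℝ (ι → ℂ))))
  have hcos := der_comp (hz j) (hasStrictDerivAt_cos (z j))
  have hconj := (conjCLE.toContinuousLinearMap.hasStrictFDerivAt).comp (τ, z) hcos
  have hsl : (starRingEnd ℂ) (cos (z j)) ∈ slitPlane := by
    left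
    simpa using hc j
  have hlog := der_comp hconj (hasStrictDerivAt_log (x := (starRingEnd ℂ) (cos (z j))) hsl)
  have hprod := hτ.mul hlog
  have hexp := der_comp hprod (hasStrictDerivAt_exp _)
  have htan := der_comp (hz i) (hasStrictDerivAt_tan hci)
  have hw := hexp.mul htan
  have hash := der_comp hw (hasStrictDerivAt_ash (w := bo τ z j * tan (z i)) h1 h2)
  refine ⟨_, hash, ?_⟩
  intro v
  have hB : bo τ z j = exp ((τ : ℂ) * log ((starRingEnd ℂ) (cos (z j)))) := rfl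
  have hcj' : (starRingEnd ℂ) (cos (z j)) ≠ 0 := by
    intro h0
    exact hcj ((map_eq_zero (starRingEnd ℂ)).1 h0)
  have hth : tanh (ash (bo τ z j * tan (z i))) =
      bo τ z j * tan (z i) / cosh (ash (bo τ z j * tan (z i))) := by
    rw [tanh_eq_sinh_div_cosh, sinh_ash h1.le h2.le]
  rw [hth]
  simp only [lam, map_neg, map_mul]
  simp only [_root_.smul_apply, _root_.add_apply,
    ContinuousLinearMap.comp_apply, ContinuousLinearMap.coe_fst', ContinuousLinearMap.coe_snd',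
    ContinuousLinearMap.proj_apply, smul_eq_mul, ofRealCLM_apply, ofReal_zero, mul_zero,
    add_zero]
  have hE : cexp (((fun x : ℝ × (ι → ℂ) => (x.1 : ℂ)) *
      fun y : ℝ × (ι → ℂ) => log ((conjCLE : ℂ →L[ℝ] ℂ) (cos (y.2 j)))) (τ, z)) =
      bo τ z j := rfl
  have hV : (conjCLE : ℂ →L[ℝ] ℂ) (-sin (z j) * v j) =
      -((starRingEnd ℂ) (sin (z j)) * (starRingEnd ℂ) (v j)) := by
    simp
  rw [hE, hV, tan_eq_sin_div_cos (z j), map_div₀]
  generalize hq : cosh (ash (bo τ z j * tan (z i))) = q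
  rw [tan_eq_sin_div_cos (z i)]
  generalize (starRingEnd ℂ) (cos (z j)) = cj at hcj' ⊢
  have hsi := hs i
  field_simp

theorem GG_deriv [Fintype ι] (a : ι → ℝ) (N : ι → Finset ι) {τ : ℝ} {z : ι → ℂ}
    (hc : ∀ i, 0 < (cos (z i)).re) (hs : ∀ i, sin (z i) ≠ 0)
    (hw : ∀ i, ∀ j ∈ N i, 0 < (bo τ z j * tan (z i)).re ∧ 0 < (bo τ z j * tan (z i)).im) :
    ∃ F' : (ℝ × (ι → ℂ)) →L[ℝ] (ι → ℂ),
      HasStrictFDerivAt (fun x : ℝ × (ι → ℂ) => GG a N x.1 x.2) F' (τ, z) ∧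
      ∀ v i, F' (0, v) i = (a i : ℂ) * v i - I * ∑ j ∈ N i,
        tanh (ash (bo τ z j * tan (z i))) * (v i / (sin (z i) * cos (z i)) + lam τ z v j) := by
  classical
  choose L hL hLv using fun (i : ι) (j : N i) =>
    der_slot i j.1 hc hs (hw i j.1 j.2).1 (hw i j.1 j.2).2
  have hz : ∀ k : ι, HasStrictFDerivAt (fun x : ℝ × (ι → ℂ) => x.2 k)
      ((ContinuousLinearMap.proj k).comp (ContinuousLinearMap.snd ℝ ℝ (ι → ℂ))) (τ, z) :=
    fun k => (ContinuousLinearMap.hasStrictFDerivAt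
      ((ContinuousLinearMap.proj (R := ℝ) (φ := fun _ : ι => ℂ) k).comp
        (ContinuousLinearMap.snd ℝ ℝ (ι → ℂ))))
  have hG : ∀ i : ι, HasStrictFDerivAt (fun x : ℝ × (ι → ℂ) => GG a N x.1 x.2 i)
      ((a i : ℂ) • ((ContinuousLinearMap.proj i).comp (ContinuousLinearMap.snd ℝ ℝ (ι → ℂ))) -
        I • ∑ j ∈ (N i).attach, L i j) (τ, z) := by
    intro i
    have h1 := (hz i).const_smul (a i : ℂ)
    have h2 := (HasStrictFDerivAt.fun_sum (u := (N i).attach) (fun j _ => hL i j)).const_smul I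
    have h3 := (h1.sub_const (Real.pi : ℂ)).sub h2
    have h4 : (fun x : ℝ × (ι → ℂ) => GG a N x.1 x.2 i) = fun x : ℝ × (ι → ℂ) =>
        (a i : ℂ) • x.2 i - (Real.pi : ℂ) -
          I • ∑ j ∈ (N i).attach, ash (bo x.1 x.2 j.1 * tan (x.2 i)) := by
      funext x
      unfold GG
      rw [Finset.sum_attach (N i) fun j => ash (bo x.1 x.2 j * tan (x.2 i))]
      rfl
    rw [h4]
    exact h3
  refine ⟨ContinuousLinearMap.pi fun i => _, hasStrictFDerivAt_pi.2 hG, ?_⟩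
  intro v i
  simp only [ContinuousLinearMap.pi_apply, _root_.sub_apply, _root_.smul_apply,
    ContinuousLinearMap.comp_apply, ContinuousLinearMap.coe_snd', ContinuousLinearMap.proj_apply,
    smul_eq_mul, _root_.sum_apply, hLv i _ v]
  rw [Finset.sum_attach (N i) fun j => tanh (ash (bo τ z j * tan (z i))) *
    (v i / (sin (z i) * cos (z i)) + lam τ z v j)]

end Pool.Agent.AT.E
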