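import Pool.Agent.AT.E.Defs
import Pool.Agent.S3.E.Ash
import Pool.Agent.S3.E.Geo
import Pool.Agent.S3.E.GeoC

/-!
# Project AT, block E: the decoupled vertices (`b = 1`, `k` neighbours, `1 ≤ k ≤ a`)

We want `a z = π + i k u`, `sinh u = tan z`, `u = x + i θ`.  With `z = R + i I`,
`tan R = sinh x / cos θ`, `tanh I = sin θ / cosh x` one has `tan z = sinh u`
(`cos R = cos θ/N`, `sin R = sinh x/N`, `N² = sinh² x + cos² θ = cosh² x - sin² θ`,
`cosh I = cosh x/N`, `sinh I = sin θ/N`; so `cos z = conj (cosh u)/N² = 1/cosh u`,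
`sin z = tanh u`).  The imaginary part of the equation is `a I = k x`, i.e.
`sin θ = cosh x tanh (k x/a)`.  For `x ∈ [0, a]` let `θ(x) = arcsin (cosh x tanh (k x/a))`,
`R(x) = arccos (cos θ/√(sinh² x + cos² θ))`, `f(x) = a R(x) + k θ(x) - π`: continuous, `f 0 = - π`,
`f a = (a + k) π/2 - π > 0` because `cosh a tanh k ≥ cosh 2 tanh 1 > 1` (so `θ = R = π/2`).  At a zero
of `f` one has `θ < π/2`, so `sin θ = cosh x tanh (k x/a)`.

`k ≤ a`: `sin θ ≤ cosh x tanh x = sinh x`, so `N ≥ 1`, `|cos z| = 1/N ≤ 1`, and `R ≥ θ`, so `(a + k) θ ≤ π`,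
`θ ≤ π/4`, `- Im κ / Re κ = tan R tanh I = tanh x tan θ ≤ 1`. `a ≥ 3`: `R ≤ π/3`, `sinh x ≤ √3 cos θ`,
`N ≤ 2 cos θ ≤ 2`, `|cos z| ≥ 1/2`, `I ≤ x ≤ 2`.
-/

namespace Pool.Agent.AT.E

open Complex Pool.Agent.S3.E

variable {ι : Type*}

/-- The point `z` with `cos z.re = cos θ/N`, `sinh z.im = sin θ/N`. -/
private theorem start_aux {x θ : ℝ} (hx : 0 < x) (hθ : 0 < θ) (hθ' : θ < Real.pi / 2) :
    ∃ z : ℂ, z.re = Real.arccos (Real.cos θ / √(Real.sinh x ^ 2 + Real.cos θ ^ 2)) ∧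
      0 < z.re ∧ z.re < Real.pi / 2 ∧ 0 < z.im ∧
      Real.tan z.re = Real.sinh x / Real.cos θ ∧ Real.tanh z.im = Real.sin θ / Real.cosh x ∧
      tan z = sinh ((x : ℂ) + (θ : ℂ) * I) ∧
      (cos z).re = Real.cos θ * Real.cosh x / (Real.sinh x ^ 2 + Real.cos θ ^ 2) ∧
      (cos z).im = -(Real.sinh x * Real.sin θ / (Real.sinh x ^ 2 + Real.cos θ ^ 2)) := by
  have hs : 0 < Real.sinh x := Real.sinh_pos_iff.2 hx
  have hc : 0 < Real.cos θ := Real.cos_pos_of_mem_Ioo ⟨by linarith, hθ'⟩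
  have hsn : 0 < Real.sin θ := Real.sin_pos_of_pos_of_lt_pi hθ (by linarith [Real.pi_pos])
  have hch : 0 < Real.cosh x := Real.cosh_pos x
  have hN2 : 0 < Real.sinh x ^ 2 + Real.cos θ ^ 2 := by positivity
  set N : ℝ := √(Real.sinh x ^ 2 + Real.cos θ ^ 2) with hN
  have hNp : 0 < N := Real.sqrt_pos.2 hN2
  have hNs : N ^ 2 = Real.sinh x ^ 2 + Real.cos θ ^ 2 := Real.sq_sqrt hN2.le
  have hNc : N ^ 2 = Real.cosh x ^ 2 - Real.sin θ ^ 2 := by
    have h1 := Real.cosh_sq x
    have h2 := Real.sin_sq_add_cos_sq θ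
    linarith
  have hlt : Real.cos θ / N < 1 := by
    rw [div_lt_one hNp]
    refine lt_of_pow_lt_pow_left₀ 2 hNp.le ?_
    rw [hNs]
    have : 0 < Real.sinh x ^ 2 := by positivity
    linarith
  have hpos : 0 < Real.cos θ / N := by positivity
  set R : ℝ := Real.arccos (Real.cos θ / N) with hR
  set J : ℝ := Real.arsinh (Real.sin θ / N) with hJ
  have hcR : Real.cos R = Real.cos θ / N := Real.cos_arccos (by linarith) hlt.le
  have hR0 : 0 < R := Real.arccos_pos.2 hlt
  have hR1 : R < Real.pi / 2 := Real.arccos_lt_pi_div_two.2 hpos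
  have hsR : Real.sin R = Real.sinh x / N := by
    have h0 : 0 ≤ Real.sin R := Real.sin_nonneg_of_nonneg_of_le_pi hR0.le (by linarith [Real.pi_pos])
    have h1 : Real.sin R ^ 2 = (Real.sinh x / N) ^ 2 := by
      have := Real.sin_sq_add_cos_sq R
      rw [hcR] at this
      have h2 : (Real.sinh x / N) ^ 2 + (Real.cos θ / N) ^ 2 = 1 := by
        rw [div_pow, div_pow, ← add_div, hNs]
        exact div_self hN2.ne'
      linarith
    exact (pow_left_inj₀ h0 (by positivity) two_ne_zero).1 h1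
  have hsJ : Real.sinh J = Real.sin θ / N := Real.sinh_arsinh _
  have hcJ : Real.cosh J = Real.cosh x / N := by
    have h1 : Real.cosh J ^ 2 = (Real.cosh x / N) ^ 2 := by
      rw [Real.cosh_sq, hsJ, div_pow, div_pow]
      have : Real.cosh x ^ 2 = N ^ 2 + Real.sin θ ^ 2 := by linarith
      rw [this, add_div, div_self (by positivity : N ^ 2 ≠ 0)]
      ring
    exact (pow_left_inj₀ (Real.cosh_pos _).le (by positivity) two_ne_zero).1 h1
  have hJ0 : 0 < J := by
    rw [hJ]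
    exact Real.arsinh_pos_iff.2 (by positivity)
  have hz : (⟨R, J⟩ : ℂ) = (R : ℂ) + (J : ℂ) * I := by
    apply Complex.ext <;> simp
  have hcz : cos ((R : ℂ) + (J : ℂ) * I) =
      (((Real.cos θ / N * (Real.cosh x / N) : ℝ)) : ℂ) -
        (((Real.sinh x / N * (Real.sin θ / N) : ℝ)) : ℂ) * I := by
    rw [cos_add_mul_I, ← ofReal_cos, ← ofReal_cosh, ← ofReal_sin, ← ofReal_sinh, hcR, hsR, hsJ,
      hcJ]
    push_cast
    ring
  refine ⟨⟨R, J⟩, rfl, hR0, hR1, hJ0, ?_, ?_, ?_, ?_, ?_⟩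
  · change Real.tan R = _
    rw [Real.tan_eq_sin_div_cos, hsR, hcR]
    field_simp
  · change Real.tanh J = _
    rw [Real.tanh_eq_sinh_div_cosh, hsJ, hcJ]
    field_simp
  · rw [hz]
    have hsz : sin ((R : ℂ) + (J : ℂ) * I) =
        (((Real.sinh x / N * (Real.cosh x / N) : ℝ)) : ℂ) +
          (((Real.cos θ / N * (Real.sin θ / N) : ℝ)) : ℂ) * I := by
      rw [sin_add_mul_I, ← ofReal_cos, ← ofReal_cosh, ← ofReal_sin, ← ofReal_sinh, hcR, hsR, hsJ,
        hcJ]
      push_cast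
      ring
    have hsh : sinh ((x : ℂ) + (θ : ℂ) * I) =
        (((Real.sinh x * Real.cos θ : ℝ)) : ℂ) + (((Real.cosh x * Real.sin θ : ℝ)) : ℂ) * I := by
      rw [sinh_add, cosh_mul_I, sinh_mul_I, ← ofReal_cos, ← ofReal_cosh, ← ofReal_sin,
        ← ofReal_sinh]
      push_cast
      ring
    have hne : cos ((R : ℂ) + (J : ℂ) * I) ≠ 0 := by
      rw [hcz]
      intro h
      have := congrArg Complex.re h
      simp at this
      rcases this with (h | h) | (h | h)
      · exact absurd h hc.ne'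
      · exact absurd h hNp.ne'
      · exact absurd h hch.ne'
      · exact absurd h hNp.ne'
    rw [tan_eq_sin_div_cos, div_eq_iff hne, hsh, hsz, hcz]
    have h1 := Real.cosh_sq x
    have h2 := Real.sin_sq_add_cos_sq θ
    have hN0 : N ≠ 0 := hNp.ne'
    apply Complex.ext
    · simp only [add_re, sub_re, mul_re, mul_im, add_im, sub_im, ofReal_re, ofReal_im, I_re, I_im,
        mul_zero, mul_one, add_zero, sub_zero, zero_add, zero_sub]
      field_simp
      linear_combination -h2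
    · simp only [add_re, sub_re, mul_re, mul_im, add_im, sub_im, ofReal_re, ofReal_im, I_re, I_im,
        mul_zero, mul_one, add_zero, sub_zero, zero_add, zero_sub]
      field_simp
      linear_combination -h1
  · rw [hz, hcz, ← hNs]
    simp only [sub_re, mul_re, ofReal_re, ofReal_im, I_re, I_im, mul_zero, mul_one, sub_zero,
      zero_mul]
    field_simp
  · rw [hz, hcz, ← hNs]
    simp only [sub_im, mul_im, ofReal_re, ofReal_im, I_re, I_im, mul_zero, mul_one, add_zero,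
      zero_sub]
    field_simp

private theorem start_tanh_pos {x : ℝ} (hx : 0 < x) : 0 < Real.tanh x := by
  rw [Real.tanh_eq_sinh_div_cosh]
  exact div_pos (Real.sinh_pos_iff.2 hx) (Real.cosh_pos x)

private theorem start_tanh_mono {x y : ℝ} (h : x ≤ y) : Real.tanh x ≤ Real.tanh y := by
  rw [Real.tanh_eq_sinh_div_cosh, Real.tanh_eq_sinh_div_cosh,
    div_le_div_iff₀ (Real.cosh_pos x) (Real.cosh_pos y)]
  have h1 : 0 ≤ Real.sinh (y - x) := Real.sinh_nonneg_iff.2 (by linarith)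
  rw [Real.sinh_sub] at h1
  linarith

private theorem start_tanh_one : 1 < Real.cosh 2 * Real.tanh 1 := by
  have h1 : Real.cosh 2 = 2 * Real.cosh 1 ^ 2 - 1 := by
    have := Real.cosh_two_mul 1
    rw [mul_one] at this
    have h2 := Real.cosh_sq 1
    linarith
  have hc : 1 < Real.cosh 1 := Real.one_lt_cosh.2 one_ne_zero
  have hs : 1 < Real.sinh 1 := by
    have := Real.self_lt_sinh_iff.2 (one_pos : (0 : ℝ) < 1)
    exact this
  rw [Real.tanh_eq_sinh_div_cosh, mul_div_assoc', lt_div_iff₀ (by linarith), one_mul, h1]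
  have h3 : Real.cosh 1 < 2 * Real.cosh 1 ^ 2 - 1 := by nlinarith
  nlinarith

theorem start_vertex {a k : ℝ} (ha : 3 ≤ a) (hk1 : 1 ≤ k) (hka : k ≤ a) :
    ∃ z : ℂ, 0 < z.re ∧ z.re < Real.pi / 2 ∧ 0 < z.im ∧ z.im ≤ 2 ∧ 0 < (tan z).re ∧
      0 < (tan z).im ∧ 1 / 2 ≤ ‖cos z‖ ∧ ‖cos z‖ ≤ 1 ∧ -(cos z).im ≤ (cos z).re ∧
      (a : ℂ) * z = (Real.pi : ℂ) + I * ((k : ℂ) * ash (tan z)) := by
  have ha0 : 0 < a := by linarith
  set S : ℝ → ℝ := fun x => Real.cosh x * Real.tanh (k * x / a) with hS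
  set T : ℝ → ℝ := fun x => Real.arcsin (S x) with hT
  set R : ℝ → ℝ := fun x =>
    Real.arccos (Real.cos (T x) / √(Real.sinh x ^ 2 + Real.cos (T x) ^ 2)) with hR
  set f : ℝ → ℝ := fun x => a * R x + k * T x - Real.pi with hf
  have hSc : Continuous S := by
    have h1 : Continuous (fun x : ℝ => Real.tanh (k * x / a)) := by
      have : (fun x : ℝ => Real.tanh (k * x / a)) =
          fun x : ℝ => Real.sinh (k * x / a) / Real.cosh (k * x / a) := by
        funext x
        exact Real.tanh_eq_sinh_div_cosh _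
      rw [this]
      refine Continuous.div (Real.continuous_sinh.comp (by fun_prop))
        (Real.continuous_cosh.comp (by fun_prop)) (fun x => (Real.cosh_pos _).ne')
    exact Real.continuous_cosh.mul h1
  have hTc : Continuous T := Real.continuous_arcsin.comp hSc
  have hT0 : T 0 = 0 := by simp [hT, hS]
  have hden : ∀ x, √(Real.sinh x ^ 2 + Real.cos (T x) ^ 2) ≠ 0 := by
    intro x h
    have hnn : 0 ≤ Real.sinh x ^ 2 + Real.cos (T x) ^ 2 := by positivity
    rw [Real.sqrt_eq_zero hnn] at h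
    have h1 : Real.sinh x = 0 := by nlinarith [sq_nonneg (Real.sinh x), sq_nonneg (Real.cos (T x))]
    have h2 : x = 0 := Real.sinh_eq_zero.1 h1
    subst h2
    rw [hT0] at h
    simp at h
  have hRc : Continuous R := by
    refine Real.continuous_arccos.comp (Continuous.div (Real.continuous_cos.comp hTc)
      (Real.continuous_sqrt.comp ?_) hden)
    exact ((Real.continuous_sinh.pow 2).add ((Real.continuous_cos.comp hTc).pow 2))
  have hfc : Continuous f := by
    exact ((continuous_const.mul hRc).add (continuous_const.mul hTc)).sub continuous_const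
  have hf0 : f 0 < 0 := by
    have h1 : R 0 = 0 := by
      simp [hR, hT0]
    simp only [hf, h1, hT0]
    linarith [Real.pi_pos]
  -- the value when `T x = π/2`
  have hbig : ∀ x, 0 < x → T x = Real.pi / 2 → 0 < f x := by
    intro x hx h
    have h1 : R x = Real.pi / 2 := by
      simp [hR, h]
    simp only [hf, h1, h]
    nlinarith [Real.pi_pos]
  have hTa : T a = Real.pi / 2 := by
    have h1 : 1 ≤ S a := by
      have h2 : Real.cosh 2 ≤ Real.cosh a := by
        rw [Real.cosh_le_cosh, abs_of_pos (by norm_num : (0 : ℝ) < 2), abs_of_pos ha0]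
        linarith
      have h3 : Real.tanh 1 ≤ Real.tanh k := start_tanh_mono hk1
      have h4 : 0 < Real.tanh 1 := start_tanh_pos one_pos
      have h5 : k * a / a = k := by field_simp
      simp only [hS, h5]
      have h6 := start_tanh_one
      have h7 : 0 < Real.cosh 2 := Real.cosh_pos 2
      calc (1 : ℝ) ≤ Real.cosh 2 * Real.tanh 1 := h6.le
        _ ≤ Real.cosh a * Real.tanh k := by
          apply mul_le_mul h2 h3 h4.le (Real.cosh_pos _).le
    exact Real.arcsin_of_one_le h1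
  have hfa : 0 < f a := hbig a ha0 hTa
  obtain ⟨x, ⟨hx0, hxa⟩, hfx⟩ := intermediate_value_Icc (le_of_lt ha0) hfc.continuousOn
    (⟨hf0.le, hfa.le⟩ : (0 : ℝ) ∈ Set.Icc (f 0) (f a))
  have hxp : 0 < x := by
    rcases hx0.lt_or_eq with h | h
    · exact h
    · rw [← h] at hfx; linarith
  have hSp : 0 < S x := by
    have : 0 < Real.tanh (k * x / a) := start_tanh_pos (by positivity)
    exact mul_pos (Real.cosh_pos _) this
  have hS1 : S x < 1 := by
    by_contra h
    push Not at h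
    have := hbig x hxp (Real.arcsin_of_one_le h)
    linarith
  have hθ0 : 0 < T x := Real.arcsin_pos.2 hSp
  have hθ1 : T x < Real.pi / 2 := Real.arcsin_lt_pi_div_two.2 hS1
  have hsT : Real.sin (T x) = S x := Real.sin_arcsin (by linarith) hS1.le
  obtain ⟨z, hz1, hz2, hz3, hz4, hz5, hz6, hz7, hz8, hz9⟩ := start_aux hxp hθ0 hθ1
  have him : z.im = k * x / a := by
    have h1 : Real.tanh z.im = Real.tanh (k * x / a) := by
      rw [hz6, hsT]
      simp only [hS]
      have := (Real.cosh_pos x).ne'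
      field_simp
    exact Real.tanh_injective h1
  have hsh : sinh ((x : ℂ) + (T x : ℂ) * I) =
      (((Real.sinh x * Real.cos (T x) : ℝ)) : ℂ) + (((Real.cosh x * Real.sin (T x) : ℝ)) : ℂ) * I := by
    rw [sinh_add, cosh_mul_I, sinh_mul_I, ← ofReal_cos, ← ofReal_cosh, ← ofReal_sin,
      ← ofReal_sinh]
    push_cast
    ring
  have hc : 0 < Real.cos (T x) := Real.cos_pos_of_mem_Ioo ⟨by linarith [Real.pi_pos], hθ1⟩
  have hs : 0 < Real.sinh x := Real.sinh_pos_iff.2 hxp
  have hch : 0 < Real.cosh x := Real.cosh_pos x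
  have hsq := Real.cosh_sq x
  have hsc := Real.sin_sq_add_cos_sq (T x)
  have hsn : 0 < Real.sin (T x) := by rw [hsT]; exact hSp
  have heq : a * z.re + k * T x - Real.pi = 0 := by
    rw [hz1]
    exact hfx
  -- `sin θ ≤ sinh x`
  have hle : Real.sin (T x) ≤ Real.sinh x := by
    rw [hsT]
    simp only [hS]
    have h1 : Real.tanh (k * x / a) ≤ Real.tanh x := by
      apply start_tanh_mono
      rw [div_le_iff₀ ha0, mul_comm x a]
      exact mul_le_mul_of_nonneg_right hka hx0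
    calc Real.cosh x * Real.tanh (k * x / a) ≤ Real.cosh x * Real.tanh x :=
          mul_le_mul_of_nonneg_left h1 hch.le
      _ = Real.sinh x := by
          rw [Real.tanh_eq_sinh_div_cosh]
          field_simp
  have hN1 : 1 ≤ Real.sinh x ^ 2 + Real.cos (T x) ^ 2 := by nlinarith
  have hN0 : 0 < Real.sinh x ^ 2 + Real.cos (T x) ^ 2 := by linarith
  -- `R ≤ π / 3`
  have hR3 : z.re ≤ Real.pi / 3 := by
    have h1 : 0 < k * T x := mul_pos (by linarith) hθ0
    have h2 : 3 * z.re ≤ a * z.re := mul_le_mul_of_nonneg_right ha hz2.le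
    linarith
  have htan3 : Real.tan z.re ≤ √3 := by
    rw [← Real.tan_pi_div_three]
    rcases hR3.lt_or_eq with h | h
    · exact (Real.tan_lt_tan_of_lt_of_lt_pi_div_two (by linarith [Real.pi_pos])
        (by linarith [Real.pi_pos]) h).le
    · rw [h]
  have hsh3 : Real.sinh x ≤ √3 * Real.cos (T x) := by
    rw [hz5, div_le_iff₀ hc] at htan3
    exact htan3
  have h33 : √3 ^ 2 = 3 := Real.sq_sqrt (by norm_num)
  have h30 : 0 ≤ √3 := Real.sqrt_nonneg 3
  have hN4 : Real.sinh x ^ 2 + Real.cos (T x) ^ 2 ≤ 4 := by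
    have h1 : Real.sinh x ^ 2 ≤ (√3 * Real.cos (T x)) ^ 2 := pow_le_pow_left₀ hs.le hsh3 2
    rw [mul_pow, h33] at h1
    nlinarith
  -- `θ ≤ π / 4`
  have hθR : T x ≤ z.re := by
    by_contra hcon
    push Not at hcon
    have h1 := Real.tan_lt_tan_of_lt_of_lt_pi_div_two (x := z.re) (y := T x)
      (by linarith [Real.pi_pos]) hθ1 hcon
    rw [hz5, Real.tan_eq_sin_div_cos, div_lt_div_iff_of_pos_right hc] at h1
    linarith
  have hθ4 : T x ≤ Real.pi / 4 := by
    have h1 : a * T x ≤ a * z.re := mul_le_mul_of_nonneg_left hθR ha0.le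
    have h2 : 1 * T x ≤ k * T x := mul_le_mul_of_nonneg_right hk1 hθ0.le
    have h3 : 3 * T x ≤ a * T x := mul_le_mul_of_nonneg_right ha hθ0.le
    linarith
  have hsc4 : Real.sin (T x) ≤ Real.cos (T x) := by
    rw [← Real.sin_pi_div_two_sub]
    apply Real.sin_le_sin_of_le_of_le_pi_div_two <;> linarith [Real.pi_pos]
  have hnorm : ‖cos z‖ ^ 2 = 1 / (Real.sinh x ^ 2 + Real.cos (T x) ^ 2) := by
    rw [← Complex.normSq_eq_norm_sq, Complex.normSq_apply, hz8, hz9]
    field_simp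
    rw [hsq]
    nlinarith
  have hx2 : x ≤ 2 := by
    by_contra hcon
    push Not at hcon
    have h1 : Real.sinh x ≤ 2 := by nlinarith
    have h2 : x < Real.sinh x := Real.self_lt_sinh_iff.2 hxp
    linarith
  refine ⟨z, hz2, hz3, hz4, ?_, ?_, ?_, ?_, ?_, ?_, ?_⟩
  · rw [him, div_le_iff₀ ha0]
    have h1 : k * x ≤ a * x := mul_le_mul_of_nonneg_right hka hx0
    have h2 : a * x ≤ a * 2 := mul_le_mul_of_nonneg_left hx2 ha0.le
    linarith
  · rw [hz7, hsh]
    simp only [add_re, mul_re, ofReal_re, ofReal_im, I_re, I_im, mul_zero, zero_mul, sub_zero,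
      add_zero]
    exact mul_pos (Real.sinh_pos_iff.2 hxp) hc
  · rw [hz7, hsh]
    simp only [add_im, mul_im, ofReal_re, ofReal_im, I_re, I_im, mul_one, mul_zero, add_zero,
      zero_add]
    exact mul_pos (Real.cosh_pos x) (by rw [hsT]; exact hSp)
  · have h1 : (1 / 2 : ℝ) ^ 2 ≤ ‖cos z‖ ^ 2 := by
      rw [hnorm, le_div_iff₀ hN0]
      linarith
    exact (pow_le_pow_iff_left₀ (by norm_num) (norm_nonneg _) two_ne_zero).1 h1
  · have h1 : ‖cos z‖ ^ 2 ≤ 1 ^ 2 := by
      rw [hnorm, div_le_iff₀ hN0]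
      linarith
    exact (pow_le_pow_iff_left₀ (norm_nonneg _) (by norm_num) two_ne_zero).1 h1
  · rw [hz8, hz9, neg_neg, div_le_div_iff_of_pos_right hN0]
    have h1 : Real.sinh x ≤ Real.cosh x := (Real.sinh_lt_cosh x).le
    calc Real.sinh x * Real.sin (T x) ≤ Real.cosh x * Real.cos (T x) :=
          mul_le_mul h1 hsc4 hsn.le hch.le
      _ = Real.cos (T x) * Real.cosh x := mul_comm _ _
  · rw [hz7, ash_sinh hxp.le hθ0.le hθ1.le]
    apply Complex.ext
    · simp
      linarith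
    · simp
      rw [him]
      field_simp

/-- **The start of the continuity method.** -/
theorem start_mem {a : ι → ℝ} {N : ι → Finset ι} (hN : Nbr a N) :
    ∃ z : ι → ℂ, (((0 : ℝ), z) : ℝ × (ι → ℂ)) ∈ KK N ∧ GG a N 0 z = 0 := by
  have hex : ∀ i, ∃ z : ℂ, 0 < z.re ∧ z.re < Real.pi / 2 ∧ 0 < z.im ∧ z.im ≤ 2 ∧ 0 < (tan z).re ∧
      0 < (tan z).im ∧ 1 / 2 ≤ ‖cos z‖ ∧ ‖cos z‖ ≤ 1 ∧ -(cos z).im ≤ (cos z).re ∧
      (a i : ℂ) * z = (Real.pi : ℂ) + I * ((((N i).card : ℝ) : ℂ) * ash (tan z)) := fun i =>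
    start_vertex (hN.a3 i) (by exact_mod_cast (hN.ne i).card_pos) (hN.card i)
  choose z h1 h2 h3 h4 h5 h6 h7 h8 h9 h10 using hex
  have hb : ∀ j, bo 0 z j = 1 := by
    intro j
    unfold bo bb
    simp
  refine ⟨z, ⟨⟨le_rfl, zero_le_one⟩, fun i => ⟨⟨(h1 i).le, (h2 i).le, (h3 i).le, h4 i⟩,
    ⟨?_, ?_, ?_⟩, fun j _ => ?_⟩⟩, ?_⟩
  · have := h7 i
    norm_num at this ⊢
    linarith
  · have := h8 i
    norm_num at this ⊢
    linarith
  · have h11 : 0 ≤ (cos (z i)).re := by
      rw [GeoC_cos_re]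
      exact mul_nonneg (Real.cos_nonneg_of_mem_Icc ⟨by linarith [Real.pi_pos, h1 i], (h2 i).le⟩)
        (Real.cosh_pos _).le
    have h12 := h9 i
    norm_num
    linarith
  · show 0 ≤ (bo 0 z j * tan (z i)).re
    rw [hb, one_mul]
    exact (h5 i).le
  · funext i
    show (a i : ℂ) * z i - (Real.pi : ℂ) - I * ∑ j ∈ N i, ash (bo 0 z j * tan (z i)) = 0
    simp only [hb, one_mul, Finset.sum_const, nsmul_eq_mul]
    rw [h10 i]
    push_cast
    ring

end Pool.Agent.AT.E
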