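import Pool.Agent.AT.E.Sys
import Pool.Agent.AT.E.Der
import Pool.Agent.AT.E.Start
import Pool.Agent.S3.E.Cont

/-!
# Project AT, block E: existence of the critical point, from the one-vertex inequalities

`Zr`: a zero of the system in the compact region. `Vb`: the one-vertex inequalities at a zero.
`exists_zero`: if `Vb` holds at every zero, then there is a zero for `τ = 1`.
-/

namespace Pool.Agent.AT.E

open Complex Topology Pool.Agent.S3.E

variable {ι : Type*}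

/-- Everything about a zero of the system. -/
structure Zr (a : ι → ℝ) (N : ι → Finset ι) (τ : ℝ) (z : ι → ℂ) : Prop where
  nb : Nbr a N
  K : ((τ, z) : ℝ × (ι → ℂ)) ∈ KK N
  Z : GG a N τ z = 0

/-- The one-vertex inequalities at a zero of the system. -/
structure Vb (a : ι → ℝ) (N : ι → Finset ι) (τ : ℝ) (z : ι → ℂ) : Prop where
  k2_le : ∀ i, k2 (z i).re (z i).im ≤ 1
  k2_ge : ∀ i, 1 / 4 ≤ k2 (z i).re (z i).im
  ph_le : ∀ i, ph (z i).re (z i).im ≤ Real.pi / 4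
  al_be_lt : ∀ i, ∀ j ∈ N i, al (z i).re (z i).im + be τ z j < Real.pi / 2
  dom : ∀ i, s2 (z i).re (z i).im * ∑ j ∈ N i, ‖tanh (ash (bo τ z j * tan (z i)))‖ <
    ‖(a i : ℂ) * (cos (z i) * sin (z i)) - I * ∑ j ∈ N i, tanh (ash (bo τ z j * tan (z i)))‖

namespace Zr

variable {a : ι → ℝ} {N : ι → Finset ι} {τ : ℝ} {z : ι → ℂ}

theorem a3 (h : Zr a N τ z) (i : ι) : 3 ≤ a i := h.nb.a3 i

theorem symm (h : Zr a N τ z) {i j : ι} (hij : j ∈ N i) : i ∈ N j := h.nb.symm i j hij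

theorem τ0 (h : Zr a N τ z) : 0 ≤ τ := h.K.1.1

theorem τ1 (h : Zr a N τ z) : τ ≤ 1 := h.K.1.2

theorem pos (h : Zr a N τ z) (i : ι) :
    0 < (z i).re ∧ (z i).re < Real.pi / 2 ∧ 0 < (z i).im := zero_pos h.nb h.K h.Z i

theorem vx (h : Zr a N τ z) (i : ι) :
    Vx (a i) (z i).re (z i).im (N i) (ro τ z) (be τ z)
      (fun j => PP (bo τ z j * tan (z i))) (fun j => RR (bo τ z j * tan (z i))) :=
  zero_vx h.nb h.K h.Z i

theorem k2pos (h : Zr a N τ z) (i : ι) : 0 < k2 (z i).re (z i).im :=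
  k2_pos (h.pos i).1 (h.pos i).2.1

theorem s2pos (h : Zr a N τ z) (i : ι) : 0 < s2 (z i).re (z i).im :=
  s2_pos (h.pos i).1 (h.pos i).2.1

theorem norm_pos (h : Zr a N τ z) (i : ι) : 0 < ‖cos (z i)‖ := by
  rw [norm_cos_eq]; exact Real.sqrt_pos.2 (h.k2pos i)

theorem phpos (h : Zr a N τ z) (i : ι) : 0 < ph (z i).re (z i).im :=
  ph_pos (h.pos i).1 (h.pos i).2.1 (h.pos i).2.2

theorem phlt (_ : Zr a N τ z) (i : ι) : ph (z i).re (z i).im < Real.pi / 2 :=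
  ph_lt (z i).re (z i).im

theorem cos_ne (h : Zr a N τ z) (i : ι) : cos (z i) ≠ 0 := norm_pos_iff.1 (h.norm_pos i)

theorem sin_ne (h : Zr a N τ z) (i : ι) : sin (z i) ≠ 0 := by
  intro h0
  have h1 := norm_sin_sq (z i)
  rw [h0, norm_zero] at h1
  have h2 := h.s2pos i
  norm_num at h1
  linarith

theorem ttpos (h : Zr a N τ z) (i : ι) : 0 < tt (z i).re (z i).im :=
  tt_pos (h.pos i).1 (h.pos i).2.1

theorem alpos (h : Zr a N τ z) (i : ι) : 0 < al (z i).re (z i).im :=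
  al_pos (h.pos i).1 (h.pos i).2.1 (h.pos i).2.2

theorem ro_pos (h : Zr a N τ z) (j : ι) : 0 < ro τ z j :=
  Real.rpow_pos_of_pos (h.norm_pos j) _

/-- All `|κ|² ≤ K`, `1 ≤ K`: all `|b|² ≤ K`. -/
theorem ro_sq_le (h : Zr a N τ z) {K : ℝ} (hK : 1 ≤ K) (hj : ∀ j, k2 (z j).re (z j).im ≤ K)
    (j : ι) : ro τ z j ^ 2 ≤ K := by
  unfold ro
  rw [← Real.rpow_natCast, ← Real.rpow_mul (norm_nonneg _), mul_comm, Real.rpow_mul (norm_nonneg _),
    Real.rpow_natCast, norm_cos_sq]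
  calc k2 (z j).re (z j).im ^ τ ≤ K ^ τ := Real.rpow_le_rpow (h.k2pos j).le (hj j) h.τ0
    _ ≤ K ^ (1 : ℝ) := Real.rpow_le_rpow_of_exponent_le hK h.τ1
    _ = K := Real.rpow_one K

theorem be_pos (h : Zr a N τ z) (hτ : 0 < τ) (j : ι) : 0 < be τ z j := mul_pos hτ (h.phpos j)

theorem be_nonneg (h : Zr a N τ z) (j : ι) : 0 ≤ be τ z j := mul_nonneg h.τ0 (h.phpos j).le

theorem be_le_ph (h : Zr a N τ z) (j : ι) : be τ z j ≤ ph (z j).re (z j).im := by
  unfold be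
  have := h.phpos j
  nlinarith [h.τ1]

theorem be_lt (h : Zr a N τ z) (j : ι) : be τ z j < Real.pi / 2 :=
  (h.be_le_ph j).trans_lt (h.phlt j)

/-- `|κ| ≤ 1`, from the inequality at the vertex where `|κ|` is maximal. -/
theorem k2_le_of [Finite ι] (h : Zr a N τ z)
    (hA : ∀ i, 1 < k2 (z i).re (z i).im → (∀ j, ro τ z j ^ 2 ≤ k2 (z i).re (z i).im) → False)
    (i : ι) : k2 (z i).re (z i).im ≤ 1 := by
  have : Nonempty ι := ⟨i⟩
  obtain ⟨m, hm⟩ := Finite.exists_max (fun j => k2 (z j).re (z j).im)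
  by_contra hi
  push Not at hi
  have h1 : 1 < k2 (z m).re (z m).im := lt_of_lt_of_le hi (hm i)
  exact hA m h1 (h.ro_sq_le h1.le hm)

/-- `|κ| < 1`, from the inequality at the vertex where `|κ|` is maximal. -/
theorem k2_lt_of [Finite ι] (h : Zr a N τ z)
    (hA : ∀ i, 1 ≤ k2 (z i).re (z i).im → (∀ j, ro τ z j ^ 2 ≤ k2 (z i).re (z i).im) → False)
    (i : ι) : k2 (z i).re (z i).im < 1 := by
  have : Nonempty ι := ⟨i⟩
  obtain ⟨m, hm⟩ := Finite.exists_max (fun j => k2 (z j).re (z j).im)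
  by_contra hi
  push Not at hi
  have h1 : 1 ≤ k2 (z m).re (z m).im := le_trans hi (hm i)
  exact hA m h1 (h.ro_sq_le h1 hm)

theorem norm_le_of (h : Zr a N τ z) {i : ι} (hi : k2 (z i).re (z i).im ≤ 1) : ‖cos (z i)‖ ≤ 1 := by
  have h1 := norm_cos_sq (z i)
  nlinarith [h.norm_pos i]

theorem le_ro_of (h : Zr a N τ z) {j : ι} (hj : k2 (z j).re (z j).im ≤ 1) :
    ‖cos (z j)‖ ≤ ro τ z j := by
  unfold ro
  calc ‖cos (z j)‖ = ‖cos (z j)‖ ^ (1 : ℝ) := (Real.rpow_one _).symm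
    _ ≤ _ := Real.rpow_le_rpow_of_exponent_ge (h.norm_pos j) (h.norm_le_of hj) h.τ1

theorem ro_le_one_of (h : Zr a N τ z) {j : ι} (hj : k2 (z j).re (z j).im ≤ 1) : ro τ z j ≤ 1 :=
  Real.rpow_le_one (norm_nonneg _) (h.norm_le_of hj) h.τ0

/-- Lower bound of `|κ|`, from the inequality at the vertex where `|κ|` is minimal. -/
theorem k2_ge_of [Finite ι] (h : Zr a N τ z) {K : ℝ} (h1 : ∀ i, k2 (z i).re (z i).im ≤ 1)
    (hA : ∀ i, (∀ j, k2 (z i).re (z i).im ≤ ro τ z j ^ 2) → K ≤ k2 (z i).re (z i).im) (i : ι) :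
    K ≤ k2 (z i).re (z i).im := by
  have : Nonempty ι := ⟨i⟩
  obtain ⟨m, hm⟩ := Finite.exists_min (fun j => k2 (z j).re (z j).im)
  refine le_trans (hA m fun j => ?_) (hm i)
  have h2 := h.le_ro_of (h1 j)
  have h3 := norm_cos_sq (z j)
  have h4 := hm j
  have h5 := h.norm_pos j
  nlinarith

theorem bo_eq (h : Zr a N τ z) (j : ι) : bo τ z j = (ro τ z j : ℂ) * exp ((be τ z j : ℂ) * I) :=
  bo_polar ⟨(h.pos j).1, (h.pos j).2.1⟩

theorem norm_bo (h : Zr a N τ z) (j : ι) : ‖bo τ z j‖ = ro τ z j := by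
  rw [h.bo_eq, norm_mul, norm_exp_ofReal_mul_I, mul_one, norm_real, Real.norm_eq_abs,
    abs_of_pos (h.ro_pos j)]

theorem bo_re (h : Zr a N τ z) (j : ι) : (bo τ z j).re = ro τ z j * Real.cos (be τ z j) := by
  rw [h.bo_eq, re_ofReal_mul, exp_ofReal_mul_I_re]

theorem bo_im (h : Zr a N τ z) (j : ι) : (bo τ z j).im = ro τ z j * Real.sin (be τ z j) := by
  rw [h.bo_eq, im_ofReal_mul, exp_ofReal_mul_I_im]

theorem bo_re_pos (h : Zr a N τ z) (j : ι) : 0 < (bo τ z j).re := by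
  rw [h.bo_re]
  exact mul_pos (h.ro_pos j)
    (Real.cos_pos_of_mem_Ioo ⟨by linarith [h.be_nonneg j, Real.pi_pos], h.be_lt j⟩)

theorem bo_im_nonneg (h : Zr a N τ z) (j : ι) : 0 ≤ (bo τ z j).im := by
  rw [h.bo_im]
  exact mul_nonneg (h.ro_pos j).le
    (Real.sin_nonneg_of_nonneg_of_le_pi (h.be_nonneg j) (by linarith [h.be_lt j, Real.pi_pos]))

theorem w_eq (h : Zr a N τ z) (i j : ι) :
    bo τ z j * tan (z i) = ((ro τ z j * tt (z i).re (z i).im : ℝ) : ℂ) *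
      exp (((al (z i).re (z i).im + be τ z j : ℝ) : ℂ) * I) := by
  rw [h.bo_eq, tan_polar (h.pos i).1 (h.pos i).2.1]
  push_cast
  rw [add_mul, Complex.exp_add]
  ring

theorem w_norm (h : Zr a N τ z) (i j : ι) :
    ‖bo τ z j * tan (z i)‖ = ro τ z j * tt (z i).re (z i).im := by
  rw [h.w_eq, norm_mul, norm_exp_ofReal_mul_I, mul_one, norm_real, Real.norm_eq_abs,
    abs_of_pos (mul_pos (h.ro_pos j) (h.ttpos i))]

theorem w_re (h : Zr a N τ z) (i j : ι) :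
    (bo τ z j * tan (z i)).re = ro τ z j * tt (z i).re (z i).im *
      Real.cos (al (z i).re (z i).im + be τ z j) := by
  rw [h.w_eq, re_ofReal_mul, exp_ofReal_mul_I_re]

theorem w_im (h : Zr a N τ z) (i j : ι) :
    (bo τ z j * tan (z i)).im = ro τ z j * tt (z i).re (z i).im *
      Real.sin (al (z i).re (z i).im + be τ z j) := by
  rw [h.w_eq, im_ofReal_mul, exp_ofReal_mul_I_im]

theorem w_im_pos (h : Zr a N τ z) (i j : ι) : 0 < (bo τ z j * tan (z i)).im := by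
  rw [h.w_im]
  apply mul_pos (mul_pos (h.ro_pos j) (h.ttpos i))
  apply Real.sin_pos_of_pos_of_lt_pi
  · linarith [h.alpos i, h.be_nonneg j]
  · linarith [al_lt (z i).re (z i).im, h.be_lt j, Real.pi_pos]

theorem w_re_nonneg (h : Zr a N τ z) {i j : ι} (hij : j ∈ N i) :
    0 ≤ (bo τ z j * tan (z i)).re := (h.K.2 i).2.2 j hij

theorem w_re_pos (h : Zr a N τ z) {i j : ι}
    (hij : al (z i).re (z i).im + be τ z j < Real.pi / 2) : 0 < (bo τ z j * tan (z i)).re := by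
  rw [h.w_re]
  apply mul_pos (mul_pos (h.ro_pos j) (h.ttpos i))
  apply Real.cos_pos_of_mem_Ioo
  constructor
  · linarith [h.alpos i, h.be_nonneg j, Real.pi_pos]
  · exact hij

/-- The slot equation. -/
theorem sinh_eq (h : Zr a N τ z) {i j : ι} (hij : j ∈ N i) :
    sinh (ash (bo τ z j * tan (z i))) * cos (z i) = bo τ z j * sin (z i) := by
  rw [sinh_ash (h.w_re_nonneg hij) (h.w_im_pos i j).le, tan_eq_sin_div_cos, mul_assoc,
    div_mul_cancel₀ _ (h.cos_ne i)]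

/-- The vertex equation. -/
theorem eqn (h : Zr a N τ z) (i : ι) :
    (a i : ℂ) * z i = (Real.pi : ℂ) + I * ∑ j ∈ N i, ash (bo τ z j * tan (z i)) := by
  have h1 : GG a N τ z i = 0 := congrFun h.Z i
  unfold GG at h1
  linear_combination h1

theorem re_pos (h : Zr a N τ z) (i : ι) : 0 < (cos (z i)).re := by
  rw [cos_polar (h.pos i).1 (h.pos i).2.1, ← ofReal_neg, re_ofReal_mul, exp_ofReal_mul_I_re,
    Real.cos_neg]
  apply mul_pos (h.norm_pos i)
  apply Real.cos_pos_of_mem_Ioo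
  constructor <;> linarith [h.phpos i, h.phlt i, Real.pi_pos]

theorem sin_le_cos {x : ℝ} (h0 : 0 ≤ x) (h : x ≤ Real.pi / 4) : Real.sin x ≤ Real.cos x := by
  rw [← Real.sin_pi_div_two_sub]
  apply Real.sin_le_sin_of_le_of_le_pi_div_two <;> linarith [Real.pi_pos]

theorem neg_im_le (h : Zr a N τ z) {i : ι} (hi : ph (z i).re (z i).im ≤ Real.pi / 4) :
    -(cos (z i)).im ≤ (cos (z i)).re := by
  rw [cos_polar (h.pos i).1 (h.pos i).2.1, ← ofReal_neg, re_ofReal_mul, im_ofReal_mul,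
    exp_ofReal_mul_I_re, exp_ofReal_mul_I_im, Real.cos_neg, Real.sin_neg]
  have := mul_le_mul_of_nonneg_left (sin_le_cos (h.phpos i).le hi) (h.norm_pos i).le
  linarith

theorem im_lt (h : Zr a N τ z) {i : ι} (h1 : k2 (z i).re (z i).im ≤ 1) : (z i).im < 2 := by
  have h2 := neg_one_lt_gg (h.pos i).1 (h.pos i).2.1
  have h3 : cc (z i).im < 3 := by unfold k2 at h1; linarith
  by_contra hc
  push Not at hc
  have h4 : 1 + (2 * (z i).im) ^ 2 / 2 ≤ Real.cosh (2 * (z i).im) := by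
    have h5 : Real.cosh (2 * (z i).im) = 1 + 2 * Real.sinh (z i).im ^ 2 := by
      rw [Real.cosh_two_mul, Real.cosh_sq]; ring
    have h6 : (z i).im ≤ Real.sinh (z i).im := Real.self_le_sinh_iff.2 (h.pos i).2.2.le
    have h7 := (h.pos i).2.2
    nlinarith
  unfold cc at h3
  nlinarith

theorem norm_ge_of (h : Zr a N τ z) {i : ι} (hi : 1 / 4 ≤ k2 (z i).re (z i).im) :
    1 / 2 ≤ ‖cos (z i)‖ := by
  have h1 := norm_cos_sq (z i)
  have h3 := h.norm_pos i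
  nlinarith

theorem interior [Fintype ι] (h : Zr a N τ z) (V : Vb a N τ z) :
    ∀ᶠ y in 𝓝 ((τ, z) : ℝ × (ι → ℂ)), y.1 ∈ Set.Icc (0 : ℝ) 1 → y ∈ KK N := by
  apply KK_interior
  · intro i
    exact ⟨(h.pos i).1, (h.pos i).2.1, (h.pos i).2.2, h.im_lt (V.k2_le i)⟩
  · intro i
    refine ⟨?_, ?_, ?_⟩
    · have := h.norm_ge_of (V.k2_ge i)
      norm_num
      linarith
    · have := h.norm_le_of (V.k2_le i)
      norm_num
      linarith
    · have h1 := h.neg_im_le (V.ph_le i)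
      have h2 := h.re_pos i
      norm_num
      linarith
  · intro i j hj
    exact h.w_re_pos (V.al_be_lt i j hj)

theorem lam_le (h : Zr a N τ z) (v : ι → ℂ) {M : ℝ} (hM : ∀ j, ‖tan (z j) * v j‖ ≤ M) (j : ι) :
    ‖lam τ z v j‖ ≤ M := by
  unfold lam
  rw [norm_mul, Complex.norm_conj, norm_neg, norm_real, Real.norm_eq_abs, abs_of_nonneg h.τ0]
  have h1 := hM j
  have h2 := norm_nonneg (tan (z j) * v j)
  have h3 := h.τ1
  have h4 := h.τ0
  nlinarith

/-- Injectivity of the Jacobian. -/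
theorem inj [Finite ι] (h : Zr a N τ z)
    (dom : ∀ i, s2 (z i).re (z i).im * ∑ j ∈ N i, ‖tanh (ash (bo τ z j * tan (z i)))‖ <
      ‖(a i : ℂ) * (cos (z i) * sin (z i)) - I * ∑ j ∈ N i, tanh (ash (bo τ z j * tan (z i)))‖)
    (v : ι → ℂ)
    (hv : ∀ i, (a i : ℂ) * v i - I * ∑ j ∈ N i,
        tanh (ash (bo τ z j * tan (z i))) * (v i / (sin (z i) * cos (z i)) + lam τ z v j) = 0) :
    v = 0 := by
  by_contra hne
  obtain ⟨i0, hi0⟩ := Function.ne_iff.1 hne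
  have : Nonempty ι := ⟨i0⟩
  obtain ⟨m, hm⟩ := Finite.exists_max (fun j => ‖tan (z j) * v j‖)
  have htan : ∀ j, tan (z j) ≠ 0 := by
    intro j
    rw [tan_eq_sin_div_cos]
    exact div_ne_zero (h.sin_ne j) (h.cos_ne j)
  have hpos : 0 < ‖tan (z m) * v m‖ := by
    refine lt_of_lt_of_le ?_ (hm i0)
    exact norm_pos_iff.2 (mul_ne_zero (htan i0) hi0)
  set M := ‖tan (z m) * v m‖ with hM
  set T : ι → ℂ := fun j => tanh (ash (bo τ z j * tan (z m))) with hT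
  have hL : ∀ j, ‖lam τ z v j‖ ≤ M := h.lam_le v hm
  have hs := h.sin_ne m
  have hc := h.cos_ne m
  obtain ⟨u, hu⟩ : ∃ u, v m = u * (sin (z m) * cos (z m)) :=
    ⟨v m / (sin (z m) * cos (z m)), (div_mul_cancel₀ _ (mul_ne_zero hs hc)).symm⟩
  have hu' : v m / (sin (z m) * cos (z m)) = u := by
    rw [hu, mul_div_assoc, div_self (mul_ne_zero hs hc), mul_one]
  have h1 : (a m : ℂ) * v m - I * ∑ j ∈ N m,
      T j * (v m / (sin (z m) * cos (z m)) + lam τ z v j) = 0 := hv m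
  have h1' : ∑ j ∈ N m, T j * (v m / (sin (z m) * cos (z m)) + lam τ z v j) =
      (∑ j ∈ N m, T j) * u + ∑ j ∈ N m, T j * lam τ z v j := by
    rw [hu', Finset.sum_mul, ← Finset.sum_add_distrib]
    exact Finset.sum_congr rfl fun j _ => mul_add _ _ _
  rw [h1', hu] at h1
  have ht : tan (z m) * v m = u * sin (z m) ^ 2 := by
    rw [tan_eq_sin_div_cos, hu]
    field_simp
  have h2 : ((a m : ℂ) * (cos (z m) * sin (z m)) - I * ∑ j ∈ N m, T j) * (tan (z m) * v m) =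
      sin (z m) ^ 2 * (I * ∑ j ∈ N m, T j * lam τ z v j) := by
    rw [ht]
    linear_combination (sin (z m)) ^ 2 * h1
  have h3 := congrArg norm h2
  rw [norm_mul _ (tan (z m) * v m), norm_mul (sin (z m) ^ 2), norm_pow, norm_sin_sq, norm_mul I,
    norm_I, one_mul] at h3
  have h4 : ‖∑ j ∈ N m, T j * lam τ z v j‖ ≤ (∑ j ∈ N m, ‖T j‖) * M := by
    rw [Finset.sum_mul]
    refine (norm_sum_le _ _).trans (Finset.sum_le_sum fun j _ => ?_)
    rw [norm_mul]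
    exact mul_le_mul_of_nonneg_left (hL j) (norm_nonneg _)
  have h5 : s2 (z m).re (z m).im * ∑ j ∈ N m, ‖T j‖ <
    ‖(a m : ℂ) * (cos (z m) * sin (z m)) - I * ∑ j ∈ N m, T j‖ := dom m
  have h6 := h.s2pos m
  have h7 : ‖(a m : ℂ) * (cos (z m) * sin (z m)) - I * ∑ j ∈ N m, T j‖ * M ≤
      s2 (z m).re (z m).im * ((∑ j ∈ N m, ‖T j‖) * M) := by
    rw [h3]
    exact mul_le_mul_of_nonneg_left h4 h6.le
  have h8 := mul_lt_mul_of_pos_right h5 hpos
  linarith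

end Zr

/-- Existence of the critical point, from the one-vertex inequalities. -/
theorem exists_zero [Fintype ι] {a : ι → ℝ} {N : ι → Finset ι} (hN : Nbr a N)
    (hV : ∀ τ z, Zr a N τ z → Vb a N τ z) : ∃ z : ι → ℂ, Zr a N 1 z := by
  obtain ⟨z, hz, hz'⟩ := cont_method (fun x : ℝ × (ι → ℂ) => GG a N x.1 x.2) (KK N)
    (KK_compact N) (fun x hx => hx.1) (GG_continuousOn a N) (by
      rintro ⟨τ, z⟩ hx h0
      have h : Zr a N τ z := ⟨hN, hx, h0⟩
      have V := hV τ z h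
      refine ⟨h.interior V, ?_⟩
      obtain ⟨F', hF, hF'⟩ := GG_deriv a N (τ := τ) (z := z) h.re_pos h.sin_ne
        fun i j hj => ⟨h.w_re_pos (V.al_be_lt i j hj), h.w_im_pos i j⟩
      refine ⟨F', hF, fun v hv => h.inj V.dom v fun i => ?_⟩
      rw [← hF' v i, hv]
      rfl) (start_mem hN)
  exact ⟨z, hN, hz, hz'⟩

end Pool.Agent.AT.E
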