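import Pool.Agent.AT.E.Base
import Pool.Agent.H25.RK.DGI
import Pool.Agent.H63.GO.MTaylor
import Pool.Agent.H63.VC.Asym
import Pool.Agent.H63.VC.EndB
import Pool.Agent.H63.VC.Riem
import Pool.Agent.H63.VC.SlowL
import Pool.Agent.H63.VC.SlowU
import Pool.Agent.H63.VC3.CritB
import Pool.Agent.H63.VC3.Upper
import Pool.Agent.H63.VC4.GaussN
import Pool.Agent.H63.VC4.KBN
import Pool.Agent.H63.VC4.LaplaceN
import Pool.Agent.H63.VC4.UpperN
import Pool.Agent.H63.VC5.Defs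
import Pool.Agent.H63.VC6.LocU
import Pool.Agent.H63.VC6.SlotU
import Pool.Agent.H63.VC7.Link
import Pool.Agent.S3.Asm.Def
import Pool.Agent.S3.Chain
import Pool.Agent.S3.CritE
import Pool.Agent.S3.E.Crit
import Pool.Agent.S3.E.Two

/-!
# Project AT, block E: the critical point (`τ = 1`)

`Cz`: a zero of the system for `τ = 1` with the one-vertex inequalities. Everything that the potential
and the chain of the edge inequality need: `vertex`, `qe_pos`, `bw_pos`, `sum_bw`, `split`, `oppHyp`,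
`reg_edge`, `good_edge`, `k4`, `ecrit`, `gdv_uu`, `hv_neg`, `hv_pos`.
-/

namespace Pool.Agent.AT.E

open Complex Pool.Agent.S3 Pool.Agent.S3.E
open Pool.Agent.H25.RK (gdv gdv_re_lt gdv_hasDerivAt)

variable {ι : Type*}

/-- The one-vertex inequalities at a zero for `τ = 1`. -/
structure Vc (N : ι → Finset ι) (z : ι → ℂ) : Prop where
  s2_le : ∀ i, s2 (z i).re (z i).im ≤ 1
  phi : ∀ i, ph (z i).re (z i).im ≤ 9 / 20 ∧
    (ph (z i).re (z i).im ≤ 1 / 3 ∨ 21 / 50 ≤ k2 (z i).re (z i).im)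
  star : ∀ i, ∀ j ∈ N i, 2 * ph (z i).re (z i).im + ph (z j).re (z j).im +
    RR (bo 1 z j * tan (z i)) < Real.pi

/-- A critical point with the one-vertex inequalities. -/
structure Cz (a : ι → ℝ) (N : ι → Finset ι) (z : ι → ℂ) : Prop where
  zr : Zr a N 1 z
  vb : Vb a N 1 z
  vc : Vc N z

theorem ro_one (z : ι → ℂ) (j : ι) : ro 1 z j = ‖cos (z j)‖ := Real.rpow_one _

theorem be_one (z : ι → ℂ) (j : ι) : be 1 z j = ph (z j).re (z j).im := one_mul _

namespace Cz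

variable {a : ι → ℝ} {N : ι → Finset ι} {z : ι → ℂ}

theorem symm (h : Cz a N z) {i j : ι} (hij : j ∈ N i) : i ∈ N j := h.zr.symm hij

theorem pos (h : Cz a N z) (i : ι) : 0 < (z i).re ∧ (z i).re < Real.pi / 2 ∧ 0 < (z i).im :=
  h.zr.pos i

theorem bo_one (h : Cz a N z) (j : ι) : bo 1 z j = (starRingEnd ℂ) (cos (z j)) :=
  bb_one (h.zr.cos_ne j)

theorem thpos (h : Cz a N z) (i : ι) : 0 < th (z i).re (z i).im :=
  th_pos (h.pos i).1 (h.pos i).2.1 (h.pos i).2.2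

theorem xxpos (h : Cz a N z) (i : ι) : 0 < xx (z i).re (z i).im :=
  xx_pos (h.pos i).1 (h.pos i).2.1 (h.pos i).2.2

/-- `θ ≤ π/4`. -/
theorem th_le (h : Cz a N z) (i : ι) : th (z i).re (z i).im ≤ Real.pi / 4 :=
  (th_le_iff (h.pos i).1 (h.pos i).2.1 (h.pos i).2.2).2 (h.vc.s2_le i)

theorem al_ph_lt (h : Cz a N z) {i j : ι} (hij : j ∈ N i) :
    al (z i).re (z i).im + ph (z j).re (z j).im < Real.pi / 2 := by
  have := h.vb.al_be_lt i j hij
  rwa [be_one] at this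

/-- `θ + θ' < π/2` on every edge. -/
theorem S_lt (h : Cz a N z) {i j : ι} (hij : j ∈ N i) :
    th (z i).re (z i).im + th (z j).re (z j).im < Real.pi / 2 :=
  S3.E.S_lt (h.pos i).1 (h.pos i).2.1 (h.pos i).2.2 (h.pos j).1 (h.pos j).2.1 (h.pos j).2.2
    (h.al_ph_lt hij) (h.al_ph_lt (h.symm hij))

/-- The hypotheses of the edge inequality hold on every edge. -/
theorem oppHyp (h : Cz a N z) {i j : ι} (hij : j ∈ N i) :
    OppHyp (th (z i).re (z i).im) (th (z j).re (z j).im) (xx (z i).re (z i).im)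
      (xx (z j).re (z j).im) :=
  oppHyp_small (h.thpos i) (h.thpos j) (h.th_le i) (h.th_le j) (h.S_lt hij)

theorem gd_uu (h : Cz a N z) (i : ι) :
    gd (UU (xx (z i).re (z i).im) (th (z i).re (z i).im)) = z i :=
  S3.E.gd_uu (h.pos i).1 (h.pos i).2.1 (h.pos i).2.2

theorem bo_w_re_pos (h : Cz a N z) {i j : ι} (hij : j ∈ N i) :
    0 < (bo 1 z j * tan (z i)).re := h.zr.w_re_pos (h.vb.al_be_lt i j hij)

theorem w_pos (h : Cz a N z) {i j : ι} (hij : j ∈ N i) :
    0 < ((starRingEnd ℂ) (cos (z j)) * tan (z i)).re ∧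
      0 < ((starRingEnd ℂ) (cos (z j)) * tan (z i)).im := by
  have h1 := h.bo_w_re_pos hij
  have h2 := h.zr.w_im_pos i j
  rw [h.bo_one] at h1 h2
  exact ⟨h1, h2⟩

theorem qe_eq_ash (h : Cz a N z) {i j : ι} (hij : j ∈ N i) :
    qe (z i) (z j) = ash (bo 1 z j * tan (z i)) := by
  have h1 := h.w_pos hij
  rw [qe_eq (h.pos i).1 (h.pos i).2.1 (h.pos i).2.2 (h.pos j).1 (h.pos j).2.1 (h.pos j).2.2,
    h.bo_one, ash_eq_log h1.1 h1.2.le, arsh]

theorem qe_im_eq (h : Cz a N z) {i j : ι} (hij : j ∈ N i) :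
    (qe (z i) (z j)).im = RR (bo 1 z j * tan (z i)) := by
  rw [h.qe_eq_ash hij, ash_im]

theorem qe_re_eq (h : Cz a N z) {i j : ι} (hij : j ∈ N i) :
    (qe (z i) (z j)).re = PP (bo 1 z j * tan (z i)) := by
  rw [h.qe_eq_ash hij, ash_re]

/-- `q` is in the open first quadrant, `im q < π/2`. -/
theorem qe_pos (h : Cz a N z) {i j : ι} (hij : j ∈ N i) :
    0 < (qe (z i) (z j)).re ∧ 0 < (qe (z i) (z j)).im ∧ (qe (z i) (z j)).im < Real.pi / 2 := by
  have h1 := h.bo_w_re_pos hij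
  have h2 := h.zr.w_im_pos i j
  rw [h.qe_eq_ash hij, ash_re, ash_im]
  exact ⟨PP_pos h1, RR_pos h2, RR_lt h1⟩

/-- `sinh q_ij cos z_i = conj (cos z_j) sin z_i`. -/
theorem sinh_qe (h : Cz a N z) {i j : ι} (hij : j ∈ N i) :
    sinh (qe (z i) (z j)) * cos (z i) = (starRingEnd ℂ) (cos (z j)) * sin (z i) := by
  rw [h.qe_eq_ash hij, ← h.bo_one j]
  exact h.zr.sinh_eq hij

/-- The vertex equation. -/
theorem vertex (h : Cz a N z) (i : ι) :
    (a i : ℂ) * z i = (Real.pi : ℂ) + I * ∑ j ∈ N i, qe (z i) (z j) := by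
  rw [h.zr.eqn i, Finset.sum_congr rfl fun j hj => (h.qe_eq_ash hj)]

theorem vertex_re (h : Cz a N z) (i : ι) :
    a i * (z i).re = Real.pi - ∑ j ∈ N i, (qe (z i) (z j)).im := by
  have h1 := congrArg re (h.vertex i)
  rw [re_ofReal_mul, add_re, ofReal_re, I_mul_re, im_sum] at h1
  linarith

theorem vertex_im (h : Cz a N z) (i : ι) :
    a i * (z i).im = ∑ j ∈ N i, (qe (z i) (z j)).re := by
  have h1 := congrArg im (h.vertex i)
  rw [im_ofReal_mul, add_im, ofReal_im, I_mul_im, re_sum] at h1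
  linarith

theorem bw_pos (h : Cz a N z) {i j : ι} (hij : j ∈ N i) : 0 < bw (z i) (z j) :=
  div_pos (h.qe_pos hij).1 (h.pos i).2.2

/-- The weights of the slots have sum `a`. -/
theorem sum_bw (h : Cz a N z) (i : ι) : ∑ j ∈ N i, bw (z i) (z j) = a i := by
  have h1 := h.vertex_im i
  unfold bw
  rw [← Finset.sum_div, ← h1]
  exact mul_div_cancel_right₀ _ (h.pos i).2.2.ne'

/-- The canonical split. -/
theorem split (h : Cz a N z) {i j : ι} (hij : j ∈ N i) :
    Split (th (z i).re (z i).im) (th (z j).re (z j).im) (xx (z i).re (z i).im)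
      (xx (z j).re (z j).im) (bw (z i) (z j)) (bw (z j) (z i)) where
  b0 := h.bw_pos hij
  b0' := h.bw_pos (h.symm hij)
  hQ := by
    rw [h.gd_uu i, bw, div_mul_cancel₀ _ (h.pos i).2.2.ne']
    rfl
  hQ' := by
    rw [h.gd_uu j, bw, div_mul_cancel₀ _ (h.pos j).2.2.ne']
    rfl

/-- (H-alpha). -/
theorem alt (h : Cz a N z) {i j : ι} (hij : j ∈ N i) :
    2 * ph (z i).re (z i).im + ph (z j).re (z j).im + (qe (z i) (z j)).im < Real.pi := by
  rw [h.qe_im_eq hij]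
  exact h.vc.star i j hij

theorem cos_sq_polar (h : Cz a N z) (i : ι) :
    cos (z i) ^ 2 = (‖cos (z i) ^ 2‖ : ℂ) * exp (-(2 * ph (z i).re (z i).im : ℝ) * I) := by
  conv_lhs => rw [cos_polar (h.pos i).1 (h.pos i).2.1]
  rw [mul_pow, norm_pow, ← Complex.exp_nat_mul]
  push_cast
  congr 2
  ring

/-- (K4), `|κ_i| ≤ |κ_j|`. -/
theorem k4_aux (h : Cz a N z) {i j : ι} (hij : j ∈ N i) (hle : ‖cos (z i)‖ ≤ ‖cos (z j)‖) {T : ℂ}
    (hT : T ^ 2 = 1 / cos (z i) ^ 2 + 1 / (starRingEnd ℂ) (cos (z j)) ^ 2 - 1) (hT0 : 0 < T.re) :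
    0 < (T * (1 / cos (z i) ^ 2 + 1 / (starRingEnd ℂ) (cos (z j)) ^ 2) *
      (cos (z i) ^ 2 + (starRingEnd ℂ) (cos (z j)) ^ 2)).re := by
  have hki := norm_cos_sq (z i)
  have hkj := norm_cos_sq (z j)
  have hkk : k2 (z i).re (z i).im ≤ k2 (z j).re (z j).im := by
    rw [← hki, ← hkj]
    exact pow_le_pow_left₀ (norm_nonneg _) hle 2
  have hY : (starRingEnd ℂ) (cos (z j)) ^ 2 =
      ((k2 (z j).re (z j).im : ℝ) : ℂ) * exp ((2 * ph (z j).re (z j).im : ℝ) * I) := by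
    conv_lhs => rw [cos_polar (h.pos j).1 (h.pos j).2.1]
    rw [map_mul, conj_ofReal, ← exp_conj, map_mul, map_neg, conj_ofReal, conj_I, mul_pow,
      ← Complex.exp_nat_mul, ← hkj]
    push_cast
    congr 2
    ring
  have htan : 1 / (starRingEnd ℂ) (cos (z j)) ^ 2 - 1 =
      ((tt (z j).re (z j).im ^ 2 : ℝ) : ℂ) * exp (-(2 * al (z j).re (z j).im : ℝ) * I) := by
    have e1 : 1 / cos (z j) ^ 2 - 1 = tan (z j) ^ 2 := by
      have := h.zr.cos_ne j
      rw [tan_eq_sin_div_cos]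
      field_simp
      linear_combination -(sin_sq_add_cos_sq (z j))
    have e2 := congrArg (starRingEnd ℂ) e1
    rw [map_sub, map_div₀, map_one, map_pow, map_pow] at e2
    rw [e2]
    conv_lhs => rw [tan_polar (h.pos j).1 (h.pos j).2.1]
    rw [map_mul, conj_ofReal, ← exp_conj, map_mul, conj_ofReal, conj_I, mul_pow,
      ← Complex.exp_nat_mul]
    push_cast
    congr 2
    ring
  have hX : cos (z i) ^ 2 = ((k2 (z i).re (z i).im : ℝ) : ℂ) *
      exp (-(2 * ph (z i).re (z i).im : ℝ) * I) := by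
    conv_lhs => rw [h.cos_sq_polar i, norm_pow, hki]
  have hG : 0 < 2 * k2 (z i).re (z i).im * k2 (z j).re (z j).im +
      (k2 (z j).re (z j).im ^ 2 + k2 (z i).re (z i).im ^ 2) *
        Real.cos (2 * ph (z i).re (z i).im + 2 * ph (z j).re (z j).im) -
      Real.tan (ph (z i).re (z i).im) * (k2 (z j).re (z j).im ^ 2 - k2 (z i).re (z i).im ^ 2) *
        Real.sin (2 * ph (z i).re (z i).im + 2 * ph (z j).re (z j).im) := by
    have h3 := h.vc.phi i
    have h4 : k2 (z j).re (z j).im ≤ 2 * Real.cos (2 * ph (z j).re (z j).im) := by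
      have h5 := h.vc.s2_le j
      rw [← S3.E.Zr.norm_one_sub, ← abs_of_nonneg (norm_nonneg (1 - cos (z j) ^ 2)), ← sq_le_one_iff_abs_le_one,
        ← Complex.normSq_eq_norm_sq, Complex.normSq_apply, sub_re, sub_im, one_re, one_im,
        h.cos_sq_polar j, norm_pow, hkj, ← ofReal_neg, re_ofReal_mul, im_ofReal_mul,
        exp_ofReal_mul_I_re, exp_ofReal_mul_I_im, Real.cos_neg, Real.sin_neg] at h5
      have h6 := Real.sin_sq_add_cos_sq (2 * ph (z j).re (z j).im)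
      have h7 := h.zr.k2pos j
      have h8 : k2 (z j).re (z j).im * (k2 (z j).re (z j).im -
          2 * Real.cos (2 * ph (z j).re (z j).im)) ≤ 0 := by
        linear_combination h5 + (k2 (z j).re (z j).im) ^ 2 * (-h6)
      by_contra hc
      push Not at hc
      have := mul_pos h7 (sub_pos.2 hc)
      linarith
    exact k4_three (h.zr.phpos i).le h3.1 (h.vb.k2_ge i) h3.2 hkk (h.vb.k2_le j) (h.zr.phpos j).le
      (h.vb.ph_le j) h4
  exact k4_geo hX hY (h.zr.k2pos i) hkk (h.zr.phpos i) (h.vb.ph_le i) (h.zr.phpos j) (h.vb.ph_le j)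
    (pow_pos (h.zr.ttpos j) 2) htan (h.zr.alpos j) (h.al_ph_lt (h.symm hij)) hT hT0 hG

/-- (K4). -/
theorem k4 (h : Cz a N z) {i j : ι} (hij : j ∈ N i) {T : ℂ}
    (hT : T ^ 2 = 1 / cos (z i) ^ 2 + 1 / (starRingEnd ℂ) (cos (z j)) ^ 2 - 1) (hT0 : 0 < T.re) :
    0 < (T * (1 / cos (z i) ^ 2 + 1 / (starRingEnd ℂ) (cos (z j)) ^ 2) *
      (cos (z i) ^ 2 + (starRingEnd ℂ) (cos (z j)) ^ 2)).re := by
  rcases le_total ‖cos (z i)‖ ‖cos (z j)‖ with hle | hle
  · exact h.k4_aux hij hle hT hT0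
  · have h1 := h.k4_aux (h.symm hij) hle (T := (starRingEnd ℂ) T) (by
      rw [← map_pow, hT, map_sub, map_add, map_div₀, map_div₀, map_one, map_pow, map_pow,
        Complex.conj_conj]
      ring) (by rwa [conj_re])
    have h2 : (starRingEnd ℂ) T * (1 / cos (z j) ^ 2 + 1 / (starRingEnd ℂ) (cos (z i)) ^ 2) *
        (cos (z j) ^ 2 + (starRingEnd ℂ) (cos (z i)) ^ 2) =
        (starRingEnd ℂ) (T * (1 / cos (z i) ^ 2 + 1 / (starRingEnd ℂ) (cos (z j)) ^ 2) *
      (cos (z i) ^ 2 + (starRingEnd ℂ) (cos (z j)) ^ 2)) := by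
      rw [map_mul, map_mul, map_add, map_add, map_div₀, map_div₀, map_one, map_pow, map_pow,
        Complex.conj_conj]
      ring
    rw [h2, conj_re] at h1
    exact h1

theorem Lc_uu (h : Cz a N z) (i : ι) :
    (Lc (uu (z i))).re = -Real.log ‖cos (z i)‖ ∧ (Lc (uu (z i))).im = ph (z i).re (z i).im :=
  S3.E.Lc_uu (h.pos i).1 (h.pos i).2.1 (h.pos i).2.2

theorem reg_edge (h : Cz a N z) {i j : ι} (hij : j ∈ N i) :
    Reg (uu (z i)) ((starRingEnd ℂ) (uu (z j))) := by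
  have := (h.oppHyp hij).reg (xx (z i).re (z i).im) (xx (z j).re (z j).im)
  rw [← UU_conj] at this
  exact this

theorem QO_edge (h : Cz a N z) {i j : ι} (hij : j ∈ N i) :
    QO (uu (z i)) ((starRingEnd ℂ) (uu (z j))) := by
  refine ⟨h.reg_edge hij, ?_, ?_, ?_, ?_⟩
  · rw [uu, UU_re]; exact (h.xxpos i).le
  · rw [conj_re, uu, UU_re]; exact (h.xxpos j).le
  · rw [uu, UU_im]; exact (h.thpos i).le
  · rw [conj_im, uu, UU_im]; linarith [h.thpos j]

theorem good_aux (h : Cz a N z) {i j : ι} (hij : j ∈ N i) :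
    S3.Good (uu (z i)) ((starRingEnd ℂ) (uu (z j))) := by
  have hq := h.QO_edge hij
  have hr := h.reg_edge hij
  have f1 := h.Lc_uu i
  have f2 := h.Lc_uu j
  have f3 : Lc ((starRingEnd ℂ) (uu (z j))) = (starRingEnd ℂ) (Lc (uu (z j))) := by
    apply Lc_conj
    have := hr.right
    rwa [conj_im, abs_neg] at this
  have p1 := h.vb.ph_le i
  have p2 := h.vb.ph_le j
  have p3 := h.zr.phpos i
  have p4 := h.zr.phpos j
  have hqe := h.qe_pos hij
  have hqe' : qq (uu (z i)) ((starRingEnd ℂ) (uu (z j))) = qe (z i) (z j) := by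
    rw [qe, uu, uu, UU_conj]
  have c1 : (Lc ((starRingEnd ℂ) (uu (z j)))).im = -ph (z j).re (z j).im := by
    rw [f3, conj_im, f2.2]
  have c2 : (Lc ((starRingEnd ℂ) (uu (z j)))).re = -Real.log ‖cos (z j)‖ := by
    rw [f3, conj_re, f2.1]
  have g1 := neg_lcy_le hr (by rw [c1, f1.2]; linarith)
  have goal : (Lc (uu (z i))).im - (Lc ((starRingEnd ℂ) (uu (z j)))).im
      - (lcy (uu (z i)) ((starRingEnd ℂ) (uu (z j)))).im
      + (qq (uu (z i)) ((starRingEnd ℂ) (uu (z j)))).im < Real.pi := by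
    have h1 := h.alt hij
    rw [f1.2] at g1
    rw [c1, f1.2, hqe']
    linarith
  exact good_own hr hq.ur hq.wr hq.ui hq.wi goal

/-- principal branches at an edge -/
theorem good_edge (h : Cz a N z) {i j : ι} (hij : j ∈ N i) :
    S3.Good (uu (z i)) ((starRingEnd ℂ) (uu (z j))) ∧
    S3.Good ((starRingEnd ℂ) (uu (z j))) (uu (z i)) := by
  refine ⟨h.good_aux hij, ?_⟩
  have h1 := h.good_aux (h.symm hij)
  have h2 := h1.conj (h.reg_edge (h.symm hij))
  rwa [conj_conj] at h2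

/-- The critical point at an edge: `i` has `c < 0`. -/
theorem ecrit (h : Cz a N z) {i j : ι} (hij : j ∈ N i) :
    ECrit (uu (z i)) (-((starRingEnd ℂ) (uu (z j)))) (yy (uu (z i)) ((starRingEnd ℂ) (uu (z j))))
      (qe (z i) (z j)) (-((starRingEnd ℂ) (qe (z j) (z i)))) (-(2 * Real.pi * bw (z i) (z j)))
      (2 * Real.pi * bw (z j) (z i)) := by
  have hr := h.reg_edge hij
  obtain ⟨g1, g2⟩ := h.good_edge hij
  have hO := h.oppHyp hij
  have hji := h.symm hij
  have hb := h.bw_pos hij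
  have hb' := h.bw_pos hji
  set u := uu (z i) with hu
  set w := (starRingEnd ℂ) (uu (z j)) with hw
  have hw' : w = UU (xx (z j).re (z j).im) (-(th (z j).re (z j).im)) := by
    rw [hw, uu, UU_conj]
  have hrn := hr.neg_right
  have g1n := g1.neg_right
  have g2n := g2.neg_left hr.symm
  have ey1 : yy u (-w) = yy u w := yy_neg_right u w
  have ey2 : yy (-w) u = yy u w := by rw [yy_neg_left, yy_comm]
  have hq1 : qq u w = qe (z i) (z j) := by rw [qe, hw']; rfl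
  have hq2 : qq w u = (starRingEnd ℂ) (qe (z j) (z i)) := by
    have e1 : qe (z j) (z i) = qq ((starRingEnd ℂ) w) ((starRingEnd ℂ) u) := by
      rw [qe, hw, conj_conj, hu, uu, uu, UU_conj]
    rw [e1, qq_conj hr.symm, conj_conj]
  have ci := cosh_uu (h.pos i).1 (h.pos i).2.1 (h.pos i).2.2
  have cj := cosh_uu (h.pos j).1 (h.pos j).2.1 (h.pos j).2.2
  rw [← hu] at ci
  have cj' : cosh w * (starRingEnd ℂ) (cos (z j)) = 1 := by
    rw [hw, ← conj_cosh', ← map_mul, cj, map_one]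
  have ni : cos (z i) ≠ 0 := h.zr.cos_ne i
  have nj : (starRingEnd ℂ) (cos (z j)) ≠ 0 := by
    rw [Ne, map_eq_zero]; exact h.zr.cos_ne j
  have hcu : cosh u = 1 / cos (z i) := by field_simp; exact ci
  have hcw : cosh w = 1 / (starRingEnd ℂ) (cos (z j)) := by field_simp; exact cj'
  refine ⟨⟨sdom_op hr g1, ?_⟩, ?_, ?_, ?_, ?_, ?_⟩
  · have := sdom_op hrn.symm g2n
    rwa [ey2] at this
  · have := ey_add_eq hrn g1n g2n
    rwa [ey1] at this
  · rw [ev_op hr g1, hq1]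
  · have := ev_op hrn.symm g2n
    rw [ey2, qq_neg_left hr.symm, hq2] at this
    exact this
  · have e := A_op hrn
    rw [ey1] at e
    rw [e, TT_neg_right, cosh_neg]
    have hT : TT u w ^ 2 = 1 / cos (z i) ^ 2 + 1 / (starRingEnd ℂ) (cos (z j)) ^ 2 - 1 := by
      have := one_add_TT_sq hr
      rw [hcu, hcw] at this
      simp only [div_pow, one_pow] at this
      linear_combination this
    have k := h.k4 hij hT (TT_re_pos hr)
    have e2 : -(2 * (Real.pi : ℂ) * TT u w * (1 + TT u w ^ 2) ^ 2 / (cosh u ^ 2 * cosh w ^ 2))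
        = ((-(2 * Real.pi) : ℝ) : ℂ) * (TT u w * (1 / cos (z i) ^ 2 +
          1 / (starRingEnd ℂ) (cos (z j)) ^ 2) * (cos (z i) ^ 2 + (starRingEnd ℂ) (cos (z j)) ^ 2)) := by
      rw [one_add_TT_sq hr, hcu, hcw]
      push_cast
      field_simp
      ring
    rw [e2, re_ofReal_mul]
    have hpi := Real.pi_pos
    have := mul_pos (mul_pos two_pos hpi) k
    linarith
  · intro α β hαβ
    have e := qf_op hrn ((-(2 * Real.pi * bw (z i) (z j)) : ℝ) : ℂ)
      ((2 * Real.pi * bw (z j) (z i) : ℝ) : ℂ) α β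
    rw [ey1] at e
    rw [e]
    have k := qf_neg hO hb hb' (h.xxpos i) (h.xxpos j) (p := α) (q := -β) (by
      rcases hαβ with h1 | h1
      · exact Or.inl h1
      · exact Or.inr (neg_ne_zero.2 h1))
    rw [← hw'] at k
    change (-(2 / Real.pi) * (((α : ℂ) ^ 2 + ((-β : ℝ) : ℂ) ^ 2
        - 2 * tanh u * tanh w * ((α : ℂ) * ((-β : ℝ) : ℂ))) / TT u w)
      + I / (Real.pi : ℂ) ^ 2 * (((-(2 * Real.pi * bw (z i) (z j)) : ℝ) : ℂ) * (α : ℂ) ^ 2
          / cosh u ^ 2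
        + ((2 * Real.pi * bw (z j) (z i) : ℝ) : ℂ) * ((-β : ℝ) : ℂ) ^ 2 / cosh w ^ 2)).re < 0 at k
    rw [TT_neg_right, cosh_neg, tanh_neg]
    convert k using 2
    push_cast
    ring

/-- `v_c = z/π` for a vertex with `c < 0`, `v_c = -conj z/π` for a vertex with `c > 0`. -/
theorem gdv_uu (h : Cz a N z) (i : ι) :
    gdv (uu (z i)) = z i / Real.pi ∧
    gdv (-((starRingEnd ℂ) (uu (z i)))) = -((starRingEnd ℂ) (z i)) / Real.pi := by
  have hpi : (Real.pi : ℂ) ≠ 0 := by exact_mod_cast Real.pi_ne_zero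
  have ht : |(uu (z i)).im| < Real.pi / 2 := by
    rw [uu, UU_im]
    exact abs_th_lt (h.pos i).1 (h.pos i).2.1 (h.pos i).2.2
  have h1 : gdv (uu (z i)) = z i / Real.pi := by
    have := gd_eq ht
    rw [uu, h.gd_uu i] at this
    rw [eq_div_iff hpi, mul_comm]
    exact this.symm
  refine ⟨h1, ?_⟩
  have ht' : |((starRingEnd ℂ) (uu (z i))).im| < Real.pi / 2 := by rwa [conj_im, abs_neg]
  rw [gdv_neg ht', gdv_conj ht, h1, map_div₀, conj_ofReal, neg_div]

/-- The vertex equation, `c < 0`. -/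
theorem hv_neg (h : Cz a N z) (i : ι) :
    2 * Real.pi * I * (2 * ((-(a i / 2) : ℝ) : ℂ) * gdv (uu (z i)) + 1)
      - 2 * ∑ j ∈ N i, qe (z i) (z j) = 0 := by
  have hpi : (Real.pi : ℂ) ≠ 0 := by exact_mod_cast Real.pi_ne_zero
  have h1 := h.vertex i
  rw [(h.gdv_uu i).1]
  push_cast
  field_simp
  linear_combination (-2 * I) * h1 - (2 * ∑ j ∈ N i, qe (z i) (z j)) * I_sq

/-- The vertex equation, `c > 0`. -/
theorem hv_pos (h : Cz a N z) (i : ι) :
    2 * Real.pi * I * (2 * (((a i / 2) : ℝ) : ℂ) * gdv (-((starRingEnd ℂ) (uu (z i)))) + 1)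
      + 2 * (starRingEnd ℂ) (∑ j ∈ N i, qe (z i) (z j)) = 0 := by
  have hpi : (Real.pi : ℂ) ≠ 0 := by exact_mod_cast Real.pi_ne_zero
  have h1 := congrArg (starRingEnd ℂ) (h.vertex i)
  rw [map_mul, map_add, map_mul, conj_ofReal, conj_ofReal, conj_I] at h1
  rw [(h.gdv_uu i).2]
  push_cast
  field_simp
  linear_combination (-2 * I) * h1 + (2 * (starRingEnd ℂ) (∑ j ∈ N i, qe (z i) (z j))) * I_sq

end Cz

end Pool.Agent.AT.E
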