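import Pool.Agent.AT.E.V3
import Pool.Agent.AT.E.Crit

/-!
# Project AT, block E: the one-vertex inequalities hold at every critical point
-/

namespace Pool.Agent.AT.E

open Complex Pool.Agent.S3.E

variable {ι : Type*} [Finite ι] {a : ι → ℝ} {N : ι → Finset ι} {z : ι → ℂ}

theorem Zr.vc (h : Zr a N 1 z) : Vc N z where
  s2_le := fun i => (h.vx i).sig3 (h.k2_le i)
  phi := h.phi3
  star := fun i j hj => by
    have h1 := (h.phi3 i).1
    have h2 := (h.phi3 j).1
    have h3 : RR (bo 1 z j * tan (z i)) ≤ Real.pi / 2 := ((h.vx i).sl j hj).r1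
    have h4 := Real.pi_gt_three
    linarith

/-- A zero of the system for `τ = 1` is a critical point with all the properties of `Cz`. -/
theorem Zr.cz (h : Zr a N 1 z) : Cz a N z := ⟨h, h.vb, h.vc⟩

/-- **Existence of the critical point**, with all the properties of `Cz`. -/
theorem exists_cz {ι : Type*} [Fintype ι] {a : ι → ℝ} {N : ι → Finset ι} (hN : Nbr a N) :
    ∃ z : ι → ℂ, Cz a N z := by
  obtain ⟨z, hz⟩ := exists_crit hN
  exact ⟨z, hz.cz⟩

end Pool.Agent.AT.E
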