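import Pool.Agent.S3.E.Defs

/-!
# Project AT, block E: the critical point of an alternating tree (any finite graph)

Notation as in `Pool.Agent.S3.E`: `z = R + i I` (`0 < R < π / 2`, `0 < I`), `κ = cos z`. The vertices are
the elements of `ι`, `N i` is the set of the neighbours of `i`, `a i` the number of half twists.
-/

namespace Pool.Agent.AT.E

open Real Pool.Agent.S3.E

variable {ι : Type*}

/-- The vertex equation `a z = π + i ∑ q_j`, `q_j = p_j + i r_j`, for a vertex with the slots `j ∈ J`. -/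
structure Vx (a R I : ℝ) (J : Finset ι) (ρ β p r : ι → ℝ) : Prop where
  a3 : 3 ≤ a
  ne : J.Nonempty
  card : (J.card : ℝ) ≤ a
  R0 : 0 < R
  R1 : R < π / 2
  I0 : 0 < I
  sl : ∀ j ∈ J, Slot R I (ρ j) (β j) (p j) (r j)
  hR : a * R + ∑ j ∈ J, r j = π
  hI : a * I = ∑ j ∈ J, p j

/-- The coefficient `b` of a slot whose neighbour is `j`. -/
noncomputable def bo (τ : ℝ) (z : ι → ℂ) (j : ι) : ℂ := bb τ (Complex.cos (z j))

/-- `|b|` of a slot. -/
noncomputable def ro (τ : ℝ) (z : ι → ℂ) (j : ι) : ℝ := ‖Complex.cos (z j)‖ ^ τ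

/-- `arg b` of a slot. -/
noncomputable def be (τ : ℝ) (z : ι → ℂ) (j : ι) : ℝ := τ * ph (z j).re (z j).im

/-- The system at time `τ`. -/
noncomputable def GG (a : ι → ℝ) (N : ι → Finset ι) (τ : ℝ) (z : ι → ℂ) (i : ι) : ℂ :=
  (a i : ℂ) * z i - (π : ℂ) - Complex.I * ∑ j ∈ N i, ash (bo τ z j * Complex.tan (z i))

/-- The compact region. -/
def KK (N : ι → Finset ι) : Set (ℝ × (ι → ℂ)) :=
  {x | x.1 ∈ Set.Icc (0 : ℝ) 1 ∧ ∀ i,
    (0 ≤ (x.2 i).re ∧ (x.2 i).re ≤ π / 2 ∧ 0 ≤ (x.2 i).im ∧ (x.2 i).im ≤ 2) ∧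
    (0.49 ≤ ‖Complex.cos (x.2 i)‖ ∧ ‖Complex.cos (x.2 i)‖ ≤ 1.1 ∧
      -(Complex.cos (x.2 i)).im ≤ 1.04 * (Complex.cos (x.2 i)).re) ∧
    ∀ j ∈ N i, 0 ≤ (bo x.1 x.2 j * Complex.tan (x.2 i)).re}

/-- The combinatorics: every vertex has at least one and at most `a i` neighbours, `a i ≥ 3`, and the
relation is symmetric. -/
structure Nbr (a : ι → ℝ) (N : ι → Finset ι) : Prop where
  a3 : ∀ i, 3 ≤ a i
  ne : ∀ i, (N i).Nonempty
  card : ∀ i, ((N i).card : ℝ) ≤ a i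
  symm : ∀ i j, j ∈ N i → i ∈ N j

end Pool.Agent.AT.E
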