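import Pool.Agent.AT.E.Defs
import Pool.Agent.S3.E.Geo
import Pool.Agent.S3.E.Top

/-!
# Project AT, block E: compactness, continuity, interior

Copy of `Pool.Agent.S3.E.Top` for a vertex with any finite set of neighbours.
-/

namespace Pool.Agent.AT.E

open Complex Topology Set Pool.Agent.S3.E

variable {ι : Type*}

private theorem Top_tan {x : ℝ × (ι → ℂ)} (i : ι) (h : 0 < (cos (x.2 i)).re) :
    ContinuousAt (fun y : ℝ × (ι → ℂ) => tan (y.2 i)) x := by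
  have hne : cos (x.2 i) ≠ 0 := by
    intro h0
    rw [h0] at h
    simp at h
  have h1 : ContinuousAt (fun y : ℝ × (ι → ℂ) => y.2 i) x := by fun_prop
  exact ContinuousAt.comp (f := fun y : ℝ × (ι → ℂ) => y.2 i) (g := tan)
    (Complex.continuousAt_tan.mpr hne) h1

private theorem Top_bo {x : ℝ × (ι → ℂ)} {j : ι} (hj : 0 < (cos (x.2 j)).re) :
    ContinuousAt (fun y : ℝ × (ι → ℂ) => bo y.1 y.2 j) x := by
  show ContinuousAt (fun y : ℝ × (ι → ℂ) =>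
    Complex.exp ((y.1 : ℂ) * Complex.log ((starRingEnd ℂ) (cos (y.2 j))))) x
  have hs : (starRingEnd ℂ) (cos (x.2 j)) ∈ slitPlane := by
    left
    rw [Complex.conj_re]
    exact hj
  have h1 : ContinuousAt (fun y : ℝ × (ι → ℂ) => (starRingEnd ℂ) (cos (y.2 j))) x := by
    apply Continuous.continuousAt
    exact Complex.continuous_conj.comp (Complex.continuous_cos.comp (by fun_prop))
  have h2 := h1.clog hs
  have h3 : ContinuousAt (fun y : ℝ × (ι → ℂ) => (y.1 : ℂ)) x := by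
    apply Continuous.continuousAt
    exact Complex.continuous_ofReal.comp continuous_fst
  exact (h3.mul h2).cexp

private theorem Top_re {x : ℝ × (ι → ℂ)} (hx : ∀ i, 0 < (cos (x.2 i)).re) (j i : ι) :
    ContinuousAt (fun y : ℝ × (ι → ℂ) => (bo y.1 y.2 j * tan (y.2 i)).re) x := by
  have h := (Top_bo (x := x) (hx j)).mul (Top_tan (x := x) i (hx i))
  exact Complex.continuous_re.continuousAt.comp h

/-- The closed set given by the first two groups of conditions. -/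
private def TopA (ι : Type*) : Set (ℝ × (ι → ℂ)) :=
  {x | x.1 ∈ Set.Icc (0 : ℝ) 1 ∧ ∀ i,
    (0 ≤ (x.2 i).re ∧ (x.2 i).re ≤ Real.pi / 2 ∧ 0 ≤ (x.2 i).im ∧ (x.2 i).im ≤ 2) ∧
    (0.49 ≤ ‖Complex.cos (x.2 i)‖ ∧ ‖Complex.cos (x.2 i)‖ ≤ 1.1 ∧
      -(Complex.cos (x.2 i)).im ≤ 1.04 * (Complex.cos (x.2 i)).re)}

private theorem TopA_closed : IsClosed (TopA ι) := by
  have hc (i : ι) : Continuous (fun x : ℝ × (ι → ℂ) => cos (x.2 i)) :=
    Complex.continuous_cos.comp (by fun_prop)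
  have hi (i : ι) : Continuous (fun x : ℝ × (ι → ℂ) => x.2 i) := by fun_prop
  have e : TopA ι = {x : ℝ × (ι → ℂ) | x.1 ∈ Set.Icc (0 : ℝ) 1} ∩ ⋂ i,
      ({x | 0 ≤ (x.2 i).re} ∩ {x | (x.2 i).re ≤ Real.pi / 2} ∩ {x | 0 ≤ (x.2 i).im} ∩
        {x | (x.2 i).im ≤ 2} ∩ {x | 0.49 ≤ ‖Complex.cos (x.2 i)‖} ∩
        {x | ‖Complex.cos (x.2 i)‖ ≤ 1.1} ∩
        {x | -(Complex.cos (x.2 i)).im ≤ 1.04 * (Complex.cos (x.2 i)).re}) := by
    ext x
    simp only [TopA, mem_ofPred_eq, mem_inter_iff, mem_iInter]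
    constructor
    · rintro ⟨h, h'⟩
      refine ⟨h, fun i => ?_⟩
      obtain ⟨⟨a, b, c, d⟩, e, f, g⟩ := h' i
      exact ⟨⟨⟨⟨⟨⟨a, b⟩, c⟩, d⟩, e⟩, f⟩, g⟩
    · rintro ⟨h, h'⟩
      refine ⟨h, fun i => ?_⟩
      obtain ⟨⟨⟨⟨⟨⟨a, b⟩, c⟩, d⟩, e⟩, f⟩, g⟩ := h' i
      exact ⟨⟨a, b, c, d⟩, e, f, g⟩
  rw [e]
  refine IsClosed.inter (isClosed_Icc.preimage continuous_fst) (isClosed_iInter fun i => ?_)
  have hre : Continuous (fun x : ℝ × (ι → ℂ) => (x.2 i).re) := Complex.continuous_re.comp (hi i)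
  have him : Continuous (fun x : ℝ × (ι → ℂ) => (x.2 i).im) := Complex.continuous_im.comp (hi i)
  have hcre : Continuous (fun x : ℝ × (ι → ℂ) => (cos (x.2 i)).re) :=
    Complex.continuous_re.comp (hc i)
  have hcim : Continuous (fun x : ℝ × (ι → ℂ) => (cos (x.2 i)).im) :=
    Complex.continuous_im.comp (hc i)
  refine ((((((isClosed_le continuous_const hre).inter (isClosed_le hre continuous_const)).inter
    (isClosed_le continuous_const him)).inter (isClosed_le him continuous_const)).inter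
    (isClosed_le continuous_const (hc i).norm)).inter
    (isClosed_le (hc i).norm continuous_const)).inter
    (isClosed_le hcim.neg (continuous_const.mul hcre))

private theorem TopA_pos {x : ℝ × (ι → ℂ)} (hx : x ∈ TopA ι) (i : ι) : 0 < (cos (x.2 i)).re := by
  obtain ⟨⟨a, b, c, _⟩, e, _, g⟩ := hx.2 i
  exact re_cos_pos a b c e g

private theorem TopA_mem {N : ι → Finset ι} {x : ℝ × (ι → ℂ)} (hx : x ∈ KK N) :
    x ∈ TopA ι := ⟨hx.1, fun i => ⟨(hx.2 i).1, (hx.2 i).2.1⟩⟩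

private theorem Top_closed (N : ι → Finset ι) : IsClosed (KK N) := by
  have e : KK N = (⋂ i, ⋂ j ∈ N i,
      (TopA ι ∩ (fun x : ℝ × (ι → ℂ) => (bo x.1 x.2 j * tan (x.2 i)).re) ⁻¹' Ici 0)) ∩
      TopA ι := by
    ext x
    simp only [mem_inter_iff, mem_iInter, mem_preimage, mem_Ici]
    constructor
    · intro h
      exact ⟨fun i j hj => ⟨TopA_mem h, (h.2 i).2.2 j hj⟩, TopA_mem h⟩
    · intro h
      exact ⟨h.2.1, fun i => ⟨(h.2.2 i).1, (h.2.2 i).2, fun j hj => (h.1 i j hj).2⟩⟩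
  rw [e]
  refine IsClosed.inter (isClosed_iInter fun i => isClosed_iInter fun j =>
    isClosed_iInter fun _ => ?_) TopA_closed
  exact ContinuousOn.preimage_isClosed_of_isClosed
    (fun x hx => (Top_re (fun k => TopA_pos hx k) j i).continuousWithinAt) TopA_closed
    isClosed_Ici

theorem KK_compact [Fintype ι] (N : ι → Finset ι) : IsCompact (KK N) := by
  have hb : IsCompact (Icc (0 : ℝ) 1 ×ˢ (Set.pi univ fun _ : ι =>
      (Icc (0 : ℝ) (Real.pi / 2) ×ℂ Icc (0 : ℝ) 2))) :=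
    isCompact_Icc.prod (isCompact_univ_pi fun _ => isCompact_Icc.reProdIm isCompact_Icc)
  refine hb.of_isClosed_subset (Top_closed N) ?_
  intro x hx
  refine ⟨hx.1, fun i _ => ?_⟩
  obtain ⟨a, b, c, d⟩ := (hx.2 i).1
  exact ⟨⟨a, b⟩, ⟨c, d⟩⟩

theorem GG_continuousOn [Fintype ι] (a : ι → ℝ) (N : ι → Finset ι) :
    ContinuousOn (fun x : ℝ × (ι → ℂ) => GG a N x.1 x.2) (KK N) := by
  rw [continuousOn_pi]
  intro i x hx
  apply ContinuousAt.continuousWithinAt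
  have hp : ∀ j, 0 < (cos (x.2 j)).re := fun j => TopA_pos (TopA_mem hx) j
  have ht := Top_tan (x := x) i (hp i)
  have h1 : ∀ j ∈ N i, ContinuousAt
      (fun y : ℝ × (ι → ℂ) => ash (bo y.1 y.2 j * tan (y.2 i))) x := fun j _ =>
    continuous_ash.continuousAt.comp ((Top_bo (x := x) (hp j)).mul ht)
  have h0 : ContinuousAt (fun y : ℝ × (ι → ℂ) => (a i : ℂ) * y.2 i - (Real.pi : ℂ)) x := by
    fun_prop
  have h2 : ContinuousAt (fun y : ℝ × (ι → ℂ) =>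
      ∑ j ∈ N i, ash (bo y.1 y.2 j * tan (y.2 i))) x := tendsto_finsetSum _ h1
  exact h0.sub (continuousAt_const.mul h2)

/-- A point of `KK` at which all inequalities are strict is an interior point (relative to
`τ ∈ [0,1]`). -/
theorem KK_interior [Fintype ι] (N : ι → Finset ι) {τ : ℝ} {z : ι → ℂ}
    (h1 : ∀ i, 0 < (z i).re ∧ (z i).re < Real.pi / 2 ∧ 0 < (z i).im ∧ (z i).im < 2)
    (h2 : ∀ i, 0.49 < ‖cos (z i)‖ ∧ ‖cos (z i)‖ < 1.1 ∧
      -(cos (z i)).im < 1.04 * (cos (z i)).re)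
    (h3 : ∀ i, ∀ j ∈ N i, 0 < (bo τ z j * tan (z i)).re) :
    ∀ᶠ y in 𝓝 ((τ, z) : ℝ × (ι → ℂ)), y.1 ∈ Icc (0 : ℝ) 1 → y ∈ KK N := by
  have hp : ∀ i, 0 < (cos (z i)).re := by
    intro i
    rw [GeoC_cos_re]
    exact mul_pos (Real.cos_pos_of_mem_Ioo ⟨by linarith [Real.pi_pos, (h1 i).1], (h1 i).2.1⟩)
      (Real.cosh_pos _)
  have hi (i : ι) : ContinuousAt (fun x : ℝ × (ι → ℂ) => x.2 i) ((τ, z) : ℝ × (ι → ℂ)) := by
    fun_prop
  have hc (i : ι) : ContinuousAt (fun x : ℝ × (ι → ℂ) => cos (x.2 i)) ((τ, z) : ℝ × (ι → ℂ)) :=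
    Complex.continuous_cos.continuousAt.comp (hi i)
  have hre (i : ι) : ContinuousAt (fun x : ℝ × (ι → ℂ) => (x.2 i).re)
      ((τ, z) : ℝ × (ι → ℂ)) := Complex.continuous_re.continuousAt.comp (hi i)
  have him (i : ι) : ContinuousAt (fun x : ℝ × (ι → ℂ) => (x.2 i).im)
      ((τ, z) : ℝ × (ι → ℂ)) := Complex.continuous_im.continuousAt.comp (hi i)
  have hcre (i : ι) : ContinuousAt (fun x : ℝ × (ι → ℂ) => (cos (x.2 i)).re)
      ((τ, z) : ℝ × (ι → ℂ)) := Complex.continuous_re.continuousAt.comp (hc i)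
  have hcim (i : ι) : ContinuousAt (fun x : ℝ × (ι → ℂ) => (cos (x.2 i)).im)
      ((τ, z) : ℝ × (ι → ℂ)) := Complex.continuous_im.continuousAt.comp (hc i)
  have hn (i : ι) : ContinuousAt (fun x : ℝ × (ι → ℂ) => ‖cos (x.2 i)‖)
      ((τ, z) : ℝ × (ι → ℂ)) := (hc i).norm
  have hbo (i : ι) : ∀ᶠ y in 𝓝 ((τ, z) : ℝ × (ι → ℂ)),
      ∀ j ∈ N i, 0 ≤ (bo y.1 y.2 j * tan (y.2 i)).re := by
    rw [Filter.eventually_all_finset]
    intro j hj
    have hcont := Top_re (x := ((τ, z) : ℝ × (ι → ℂ))) hp j i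
    filter_upwards [(tendsto_order.1 hcont.tendsto).1 0 (h3 i j hj)] with y hy
    exact hy.le
  have key : ∀ᶠ y in 𝓝 ((τ, z) : ℝ × (ι → ℂ)), ∀ i,
      (0 ≤ (y.2 i).re ∧ (y.2 i).re ≤ Real.pi / 2 ∧ 0 ≤ (y.2 i).im ∧ (y.2 i).im ≤ 2) ∧
      (0.49 ≤ ‖Complex.cos (y.2 i)‖ ∧ ‖Complex.cos (y.2 i)‖ ≤ 1.1 ∧
        -(Complex.cos (y.2 i)).im ≤ 1.04 * (Complex.cos (y.2 i)).re) ∧
      ∀ j ∈ N i, 0 ≤ (bo y.1 y.2 j * Complex.tan (y.2 i)).re := by
    rw [Filter.eventually_all]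
    intro i
    have e1 := (tendsto_order.1 (hre i).tendsto).1 0 (h1 i).1
    have e2 := (tendsto_order.1 (hre i).tendsto).2 (Real.pi / 2) (h1 i).2.1
    have e3 := (tendsto_order.1 (him i).tendsto).1 0 (h1 i).2.2.1
    have e4 := (tendsto_order.1 (him i).tendsto).2 2 (h1 i).2.2.2
    have e5 := (tendsto_order.1 (hn i).tendsto).1 0.49 (h2 i).1
    have e6 := (tendsto_order.1 (hn i).tendsto).2 1.1 (h2 i).2.1
    have hd : ContinuousAt (fun x : ℝ × (ι → ℂ) => 1.04 * (cos (x.2 i)).re + (cos (x.2 i)).im)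
        ((τ, z) : ℝ × (ι → ℂ)) := (continuousAt_const.mul (hcre i)).add (hcim i)
    have e7 := (tendsto_order.1 hd.tendsto).1 0 (by
      have := (h2 i).2.2
      show 0 < 1.04 * (cos (z i)).re + (cos (z i)).im
      linarith)
    filter_upwards [e1, e2, e3, e4, e5, e6, e7, hbo i] with y f1 f2 f3 f4 f5 f6 f7 f8
    refine ⟨⟨f1.le, f2.le, f3.le, f4.le⟩, ⟨f5.le, f6.le, ?_⟩, f8⟩
    linarith
  filter_upwards [key] with y hy h01
  exact ⟨h01, hy⟩

/-- Polar form of the coefficients. -/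
theorem bo_polar {τ : ℝ} {z : ι → ℂ} {j : ι} (h : 0 < (z j).re ∧ (z j).re < Real.pi / 2) :
    bo τ z j = (ro τ z j : ℂ) * exp ((be τ z j : ℂ) * I) :=
  S3.E.bo_polar (o := some j) fun k hk => by cases hk; exact h

end Pool.Agent.AT.E
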