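import Pool.Agent.AT.E.Defs
import Pool.Agent.S3.E.Geo
import Pool.Agent.S3.E.GeoC
import Pool.Agent.S3.E.Phi3
import Pool.Agent.S3.E.Rng1
import Pool.Agent.S3.E.Sl

/-!
# Project AT, block E: Lemmas A, B, L, C at a vertex with any number of slots

The number of slots is at most `a`, and `a ≥ 3`.
-/

namespace Pool.Agent.AT.E

open Real Pool.Agent.S3.E

variable {ι : Type*} {a R I : ℝ} {J : Finset ι} {ρ β p r : ι → ℝ}

theorem V1_tan_pos {R I : ℝ} (h : 0 < R) (h' : R < π / 2) (hI : 0 < I) :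
    0 < tan (al R I) := by
  rw [tan_al]
  exact div_pos (sinh_two_pos hI) (sin_two_pos h h')

theorem V1_tanh_nonneg {x : ℝ} (h : 0 ≤ x) : 0 ≤ tanh x := by
  rw [tanh_eq_sinh_div_cosh]
  exact div_nonneg (sinh_nonneg_iff.2 h) (cosh_pos x).le

theorem V1_tanh_mono {x y : ℝ} (h : x ≤ y) : tanh x ≤ tanh y := by
  rw [tanh_eq_sinh_div_cosh, tanh_eq_sinh_div_cosh, div_le_div_iff₀ (cosh_pos x) (cosh_pos y)]
  have h1 : 0 ≤ sinh (y - x) := sinh_nonneg_iff.2 (by linarith)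
  rw [sinh_sub] at h1
  linarith

/-- Some slot has `p ≥ I`. -/
theorem Vx.exists_ge (h : Vx a R I J ρ β p r) : ∃ j ∈ J, I ≤ p j := by
  by_contra hc
  push Not at hc
  have h1 : ∑ j ∈ J, p j < ∑ _j ∈ J, I := Finset.sum_lt_sum_of_nonempty h.ne hc
  rw [Finset.sum_const, nsmul_eq_mul, ← h.hI] at h1
  have h2 := mul_le_mul_of_nonneg_right h.card h.I0.le
  linarith

/-- Lemma A. -/
theorem Vx.lemA (h : Vx a R I J ρ β p r) (hρ : ∀ j ∈ J, ρ j ^ 2 ≤ k2 R I) : k2 R I ≤ 1 := by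
  by_contra hk
  rw [not_le] at hk
  obtain ⟨j, hj, hp⟩ := h.exists_ge
  have e1 := (h.sl j hj).lt_I h.R0 h.R1 h.I0 (hρ j hj) hk.le (Or.inl hk)
  linarith

theorem Vx.lemA' (h : Vx a R I J ρ β p r) (hρ : ∀ j ∈ J, ρ j ^ 2 ≤ k2 R I)
    (hβ : ∀ j ∈ J, 0 < β j ∨ ρ j = 0) : k2 R I < 1 := by
  by_contra hk
  rw [not_lt] at hk
  obtain ⟨j, hj, hp⟩ := h.exists_ge
  have e1 := (h.sl j hj).lt_I h.R0 h.R1 h.I0 (hρ j hj) hk (Or.inr (hβ j hj))
  linarith

theorem V1_subadd {T : ℝ} (hT : 0 ≤ T) (s : Finset ι) (hp : ∀ j ∈ s, 0 ≤ p j) :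
    arctan (T * tanh (∑ j ∈ s, p j)) ≤ ∑ j ∈ s, arctan (T * tanh (p j)) := by
  classical
  induction s using Finset.induction_on with
  | empty => simp
  | insert j s hj ih =>
    rw [Finset.sum_insert hj, Finset.sum_insert hj]
    have h1 := ih fun k hk => hp k (Finset.mem_insert_of_mem hk)
    have h2 := arctan_subadd hT (hp j (Finset.mem_insert_self j s))
      (Finset.sum_nonneg fun k hk => hp k (Finset.mem_insert_of_mem hk))
    linarith

/-- `a R + arctan (T tanh (a I)) ≤ π`. -/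
theorem Vx.sum_le (h : Vx a R I J ρ β p r) :
    a * R + arctan (tan (al R I) * tanh (a * I)) ≤ π := by
  have hT := (V1_tan_pos h.R0 h.R1 h.I0).le
  have e := V1_subadd (p := p) hT J fun j hj => (h.sl j hj).p0
  have e1 : ∑ j ∈ J, arctan (tan (al R I) * tanh (p j)) ≤ ∑ j ∈ J, r j :=
    Finset.sum_le_sum fun j hj => (h.sl j hj).arctan_le h.R0 h.R1 h.I0
  rw [h.hI]
  have := h.hR
  linarith

/-- Three times. -/
theorem Vx.sum3_le (h : Vx a R I J ρ β p r) :
    3 * R + arctan (tan (al R I) * tanh (3 * I)) ≤ π := by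
  have hT := V1_tan_pos h.R0 h.R1 h.I0
  have e1 : 3 * R ≤ a * R := mul_le_mul_of_nonneg_right h.a3 h.R0.le
  have e2 : tanh (3 * I) ≤ tanh (a * I) :=
    V1_tanh_mono (mul_le_mul_of_nonneg_right h.a3 h.I0.le)
  have e3 : arctan (tan (al R I) * tanh (3 * I)) ≤ arctan (tan (al R I) * tanh (a * I)) :=
    arctan_strictMono.monotone (mul_le_mul_of_nonneg_left e2 hT.le)
  have := h.sum_le
  linarith

theorem Vx.R3_le (h : Vx a R I J ρ β p r) : 3 * R ≤ π := by
  have e1 : 0 ≤ arctan (tan (al R I) * tanh (3 * I)) := by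
    rw [arctan_nonneg]
    exact mul_nonneg (V1_tan_pos h.R0 h.R1 h.I0).le
      (V1_tanh_nonneg (mul_nonneg (by norm_num) h.I0.le))
  linarith [h.sum3_le]

theorem Vx.gg_ge (h : Vx a R I J ρ β p r) : -(1 / 2) ≤ gg R := by
  have e4 : cos (2 * π / 3) ≤ cos (2 * R) :=
    cos_le_cos_of_nonneg_of_le_pi (by linarith [h.R0]) (by linarith [pi_pos])
      (by linarith [h.R3_le])
  have e5 : cos (2 * π / 3) = -(1 / 2) := by
    have : 2 * π / 3 = π - π / 3 := by ring
    rw [this, cos_pi_sub, cos_pi_div_three]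
  unfold gg
  linarith

/-- Lemma L. -/
theorem Vx.lemL3 (h : Vx a R I J ρ β p r) : 1 / 4 ≤ k2 R I := by
  have e6 := one_lt_cc h.I0
  have := h.gg_ge
  unfold k2
  linarith

/-- A number. -/
theorem V1_tan_half : tan (1 / 2) ≤ 5 / 9 := by
  have hs := abs_le.1 (sin_bound (x := 1 / 2) (by rw [abs_of_pos (by norm_num)]; norm_num))
  have hc := abs_le.1 (cos_bound (x := 1 / 2) (by rw [abs_of_pos (by norm_num)]; norm_num))
  rw [abs_of_pos (by norm_num : (0 : ℝ) < 1 / 2)] at hs hc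
  have hs1 := hs.2
  have hc1 := hc.1
  norm_num at hs1 hc1
  have hc0 : 0 < cos (1 / 2) := by linarith
  rw [tan_eq_sin_div_cos, div_le_iff₀ hc0]
  linarith

/-- **Lemma C.** The argument of `tan z` is less than `π / 2 - 1 / 2`. -/
theorem Vx.lemC (h : Vx a R I J ρ β p r) (hk : k2 R I ≤ 1) : al R I + 1 / 2 < π / 2 := by
  by_contra hc
  push Not at hc
  have hpi := pi_gt_d4
  have h0 := h.R0
  have h1 := h.R1
  have hI := h.I0
  have hS := sin_two_pos h0 h1
  have hSh := sinh_two_pos hI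
  have hT := V1_tan_pos h0 h1 hI
  -- `T ≥ 9/5`
  have hT1 : 9 / 5 ≤ tan (al R I) := by
    have e1 : tan (π / 2 - 1 / 2) ≤ tan (al R I) := by
      rcases eq_or_lt_of_le (show π / 2 - 1 / 2 ≤ al R I by linarith) with e | e
      · rw [e]
      · exact (tan_lt_tan_of_nonneg_of_lt_pi_div_two (by linarith) (al_lt R I) e).le
    rw [tan_pi_div_two_sub] at e1
    have e2 := V1_tan_half
    have e3 : 0 < tan (1 / 2) := tan_pos_of_pos_of_lt_pi_div_two (by norm_num) (by linarith)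
    refine le_trans ?_ e1
    rw [le_inv_comm₀ (by norm_num) e3]
    linarith
  have hT2 : 9 / 5 * sin (2 * R) ≤ sinh (2 * I) := by
    rw [tan_al, le_div_iff₀ hS] at hT1
    exact hT1
  have e1 := sinh_two_sq I
  have e2 := sin_two_sq R
  have c1 := one_lt_cc hI
  have g1 := neg_one_lt_gg h0 h1
  have g2 := gg_lt_one h0 h1
  have g3 := h.gg_ge
  have hcg : cc I + gg R ≤ 2 := by
    unfold k2 at hk
    linarith
  have h3 : 81 / 25 * (1 - gg R ^ 2) ≤ cc I ^ 2 - 1 := by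
    rw [← e1, ← e2]
    have : (9 / 5 * sin (2 * R)) ^ 2 ≤ sinh (2 * I) ^ 2 :=
      pow_le_pow_left₀ (by positivity) hT2 2
    nlinarith
  -- `g ≤ - 1/20`
  have hg : gg R ≤ -(1 / 20) := by
    by_contra hn
    push Not at hn
    have h4 : cc I ^ 2 ≤ (2 - gg R) ^ 2 := pow_le_pow_left₀ (by linarith) (by linarith) 2
    nlinarith
  have hR : π / 4 + 1 / 40 ≤ R := by
    by_contra hn
    push Not at hn
    have h5 : cos (π / 2 + 1 / 20) < cos (2 * R) :=
      cos_lt_cos_of_nonneg_of_le_pi (by linarith) (by linarith) (by linarith)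
    rw [show π / 2 + 1 / 20 = 1 / 20 + π / 2 by ring, cos_add_pi_div_two] at h5
    have h6 := sin_lt (show (0 : ℝ) < 1 / 20 by norm_num)
    unfold gg at hg
    linarith
  -- `T tanh 2I ≥ 1`
  have h7 : 1 ≤ tan (al R I) * tanh (3 * I) := by
    have h8 : tanh (2 * I) ≤ tanh (3 * I) := V1_tanh_mono (by linarith)
    have h9 : 1 ≤ tan (al R I) * tanh (2 * I) := by
      rw [tan_al, tanh_eq_sinh_div_cosh, div_mul_div_comm, le_div_iff₀ (mul_pos hS (cosh_pos _)),
        one_mul]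
      have h10 : sinh (2 * I) * sinh (2 * I) = cc I ^ 2 - 1 := by rw [← e1]; ring
      have h11 : cosh (2 * I) = cc I := rfl
      rw [h10, h11]
      have h12 : sin (2 * R) ^ 2 ≤ 25 / 81 * (cc I ^ 2 - 1) := by rw [e2]; linarith
      have h13 : 3 / 4 ≤ sin (2 * R) ^ 2 := by rw [e2]; nlinarith
      have h14 : 243 / 100 ≤ cc I ^ 2 - 1 := by linarith
      by_contra hn
      push Not at hn
      have h15 : (cc I ^ 2 - 1) ^ 2 < (sin (2 * R) * cc I) ^ 2 :=
        pow_lt_pow_left₀ hn (by linarith) (by norm_num)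
      nlinarith
    have := mul_le_mul_of_nonneg_left h8 hT.le
    linarith
  have h8 : π / 4 ≤ arctan (tan (al R I) * tanh (3 * I)) := by
    rw [← arctan_one]
    exact arctan_mono h7
  have := h.sum3_le
  linarith

end Pool.Agent.AT.E
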