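import Pool.Agent.AT.E.V1
import Pool.Agent.S3.E.OSig3
import Pool.Agent.S3.E.K4B

/-!
# Project AT, block E: the vertex lemmas which follow from `Vx.sum3_le`

If `3 R + arctan (T tanh 3I) ≤ π` there is `s ≥ 3` with `s R + arctan (T tanh (s I)) = π`, so `R + i I`
is a vertex of a chain with one slot (whose coefficient need not be at most `1`).
-/

namespace Pool.Agent.AT.E

open Real Pool.Agent.S3.E

variable {ι : Type*} {a R I : ℝ} {J : Finset ι} {ρ β p r : ι → ℝ}

theorem Vx.toS3 (h : Vx a R I J ρ β p r) :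
    ∃ a' ρ' p' r', 3 ≤ a' ∧ Pool.Agent.S3.E.Vx a' R I ρ' 0 p' r' 0 0 0 0 := by
  have h0 := h.R0
  have h1 := h.R1
  have hI := h.I0
  have hT := V1_tan_pos h0 h1 hI
  have hal := al_pos h0 h1 hI
  have hal' := al_lt R I
  have htt := tt_pos (I := I) h0 h1
  obtain ⟨T, hTd⟩ : ∃ T, T = tan (al R I) := ⟨_, rfl⟩
  have hcont : Continuous fun s : ℝ => s * R + arctan (T * tanh (s * I)) := by
    refine (continuous_id.mul continuous_const).add (continuous_arctan.comp
      (continuous_const.mul ?_))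
    have e : (fun s : ℝ => tanh (s * I)) = fun s => sinh (s * I) / cosh (s * I) := by
      funext s
      exact tanh_eq_sinh_div_cosh _
    rw [e]
    exact (continuous_sinh.comp (continuous_id.mul continuous_const)).div
      (continuous_cosh.comp (continuous_id.mul continuous_const)) fun s => (cosh_pos _).ne'
  have h3 : (3 : ℝ) ≤ π / R := by
    rw [le_div_iff₀ h0]
    exact h.R3_le
  have hle : (3 : ℝ) * R + arctan (T * tanh (3 * I)) ≤ π := by
    rw [hTd]
    exact h.sum3_le
  have hge : π ≤ π / R * R + arctan (T * tanh (π / R * I)) := by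
    rw [div_mul_cancel₀ _ h0.ne']
    have : 0 ≤ arctan (T * tanh (π / R * I)) := by
      rw [arctan_nonneg, hTd]
      exact mul_nonneg hT.le (V1_tanh_nonneg (mul_nonneg (by positivity) hI.le))
    linarith
  obtain ⟨s, hs, hsπ⟩ := intermediate_value_Icc h3 hcont.continuousOn ⟨hle, hge⟩
  simp only at hsπ
  have hs3 : 3 ≤ s := hs.1
  have hp : 0 < s * I := by positivity
  obtain ⟨q, hq⟩ : ∃ q, q = s * I := ⟨_, rfl⟩
  obtain ⟨t, ht⟩ : ∃ t, t = arctan (T * tanh q) := ⟨_, rfl⟩
  rw [← hq] at hsπ hp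
  rw [← ht] at hsπ
  have hTt : 0 ≤ T * tanh q := mul_nonneg (by rw [hTd]; exact hT.le) (V1_tanh_nonneg hp.le)
  have ht0 : 0 ≤ t := by
    rw [ht, arctan_nonneg]
    exact hTt
  have ht1 : t < π / 2 := by
    rw [ht]
    exact arctan_lt_pi_div_two _
  have hcos : 0 < cos t := cos_pos_of_mem_Ioo ⟨by linarith [pi_pos], ht1⟩
  have hcal : 0 < cos (al R I) := cos_pos_of_mem_Ioo ⟨by linarith [pi_pos], hal'⟩
  have htan : sin t * (cos (al R I) * cosh q) = sin (al R I) * sinh q * cos t := by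
    have e1 : tan t = T * tanh q := by rw [ht, tan_arctan]
    rw [tan_eq_sin_div_cos, hTd, tan_eq_sin_div_cos, tanh_eq_sinh_div_cosh, div_mul_div_comm,
      div_eq_div_iff hcos.ne' (mul_pos hcal (cosh_pos q)).ne'] at e1
    linear_combination e1
  have hsc := sin_sq_add_cos_sq (al R I)
  obtain ⟨M, hM⟩ : ∃ M, M = sinh q * cos t * cos (al R I) + cosh q * sin t * sin (al R I) :=
    ⟨_, rfl⟩
  have hsin : 0 ≤ sin t := sin_nonneg_of_nonneg_of_le_pi ht0 (by linarith [pi_pos])
  have hsal : 0 ≤ sin (al R I) := sin_nonneg_of_nonneg_of_le_pi hal.le (by linarith [pi_pos])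
  have hM0 : 0 ≤ M := by
    rw [hM]
    have := sinh_pos_iff.2 hp
    have := cosh_pos q
    positivity
  have hMt : M / tt R I * tt R I = M := div_mul_cancel₀ _ htt.ne'
  refine ⟨s, M / tt R I, q, t, hs3, ?_⟩
  refine
    { a2 := by linarith
      R0 := h0
      R1 := h1
      I0 := hI
      sl₁ := ?_
      sl₂ := ?_
      hR := by linarith
      hI := by rw [hq]; ring }
  · refine
      { p0 := hp.le
        r0 := ht0
        r1 := ht1.le
        ρ0 := div_nonneg hM0 htt.le
        β0 := le_rfl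
        g1 := by linarith
        e1 := ?_
        e2 := ?_ }
    · rw [hMt, add_zero, hM]
      linear_combination (-(sinh q * cos t)) * hsc - sin (al R I) * htan
    · rw [hMt, add_zero, hM]
      linear_combination (-(cosh q * sin t)) * hsc + cos (al R I) * htan
  · refine
      { p0 := le_rfl
        r0 := le_rfl
        r1 := by positivity
        ρ0 := le_rfl
        β0 := le_rfl
        g1 := by linarith
        e1 := by simp
        e2 := by simp }

/-- Lemma B. -/
theorem Vx.lemB (h : Vx a R I J ρ β p r) : ph R I ≤ π / 4 := by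
  obtain ⟨a', ρ', p', r', _, h'⟩ := h.toS3
  exact h'.lemB

/-- `|sin z| ≤ 1`. -/
theorem Vx.sig3 (h : Vx a R I J ρ β p r) (hk : k2 R I ≤ 1) : s2 R I ≤ 1 := by
  obtain ⟨a', ρ', p', r', ha, h'⟩ := h.toS3
  exact h'.sig3 ha hk

/-- The angle `φ`. -/
theorem Vx.phi3 (h : Vx a R I J ρ β p r) (hk : k2 R I ≤ 1) :
    ph R I ≤ 9 / 20 ∧ (ph R I ≤ 1 / 3 ∨ 21 / 50 ≤ k2 R I) := by
  obtain ⟨a', ρ', p', r', ha, h'⟩ := h.toS3
  exact h'.phi3' ha hk

end Pool.Agent.AT.E
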