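import Pool.Agent.AT.E.V2
import Pool.Agent.AT.E.Base

/-!
# Project AT, block E: diagonal dominance and the existence of the critical point

`T_j = tanh q_j` lies in the closed first quadrant. At most one `r_j` is greater than `π / 4` (if
`R > π / 6`), so `N = ∑ ‖T_j‖ ≤ a - 1 + B` where `B` bounds one `‖T_j‖`. With
`k = (c - g) √2 - 2` the claim follows from `k (a - 1 + B) < a X`, `X = c sin 2R - g sinh 2I`, and this
from `k (2 + B) < 3 X`.
-/

namespace Pool.Agent.AT.E

open Real Pool.Agent.S3.E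

variable {ι : Type*} {a R I : ℝ} {J : Finset ι} {ρ β p r : ι → ℝ}

/-- `‖tanh q‖ ≤ B` if `cos 2r ≥ -u` and `(1 + u)/(1 - u) ≤ B²`. -/
theorem V3_norm {p r u B : ℝ} (h : 0 < cosh (2 * p) + cos (2 * r)) (hu : 0 ≤ u)
    (hu1 : u < 1) (hr : -u ≤ cos (2 * r)) (hB : 0 ≤ B) (hB2 : 1 + u ≤ B ^ 2 * (1 - u)) :
    ‖Complex.tanh ((p : ℂ) + (r : ℂ) * Complex.I)‖ ≤ B := by
  have h1 := norm_tanh_sq p r h
  have hc : 1 ≤ cosh (2 * p) := one_le_cosh _
  have h2 : ‖Complex.tanh ((p : ℂ) + (r : ℂ) * Complex.I)‖ ^ 2 ≤ B ^ 2 := by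
    rw [h1, div_le_iff₀ h]
    have h3 : (cosh (2 * p) - cos (2 * r)) * (1 - u) ≤
        (1 + u) * (cosh (2 * p) + cos (2 * r)) := by nlinarith
    have h4 : (1 + u) * (cosh (2 * p) + cos (2 * r)) ≤
        B ^ 2 * (1 - u) * (cosh (2 * p) + cos (2 * r)) :=
      mul_le_mul_of_nonneg_right hB2 h.le
    have h5 : 0 < 1 - u := by linarith
    have h6 : (cosh (2 * p) - cos (2 * r)) * (1 - u) ≤
        (B ^ 2 * (cosh (2 * p) + cos (2 * r))) * (1 - u) := by linarith
    exact le_of_mul_le_mul_right h6 h5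
  exact le_of_sq_le_sq h2 hB

/-- The sum of the norms: at most one `r_j` is greater than `π / 4`. -/
theorem V3_sum {n : ι → ℝ} {B : ℝ} (hB : 1 ≤ B) (h1 : ∀ j ∈ J, n j ≤ B)
    (h2 : ∀ j ∈ J, r j ≤ π / 4 → n j ≤ 1) (h0 : ∀ j ∈ J, 0 ≤ r j) (hs : ∑ j ∈ J, r j < π / 2)
    (hne : J.Nonempty) : ∑ j ∈ J, n j ≤ J.card - 1 + B := by
  classical
  by_cases hc : ∃ k ∈ J, π / 4 < r k
  · obtain ⟨k, hk, hkr⟩ := hc
    rw [← Finset.add_sum_erase J n hk]
    have h3 : ∑ j ∈ J.erase k, n j ≤ ∑ _j ∈ J.erase k, (1 : ℝ) := by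
      refine Finset.sum_le_sum fun j hj => h2 j (Finset.mem_of_mem_erase hj) ?_
      by_contra hn
      push Not at hn
      have h4 : r k + r j ≤ ∑ j ∈ J, r j := by
        rw [← Finset.add_sum_erase J r hk]
        have h5 : r j ≤ ∑ i ∈ J.erase k, r i :=
          Finset.single_le_sum (f := r) (fun i hi => h0 i (Finset.mem_of_mem_erase hi)) hj
        linarith
      linarith
    rw [Finset.sum_const, nsmul_eq_mul, mul_one, Finset.card_erase_of_mem hk,
      Nat.cast_sub (Finset.card_pos.2 hne)] at h3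
    have := h1 k hk
    push_cast at h3
    linarith
  · push Not at hc
    have h3 : ∑ j ∈ J, n j ≤ ∑ _j ∈ J, (1 : ℝ) :=
      Finset.sum_le_sum fun j hj => h2 j hj (hc j hj)
    rw [Finset.sum_const, nsmul_eq_mul, mul_one] at h3
    linarith

private theorem V3_S {S g s t : ℝ} (hS : 0 < S) (hS2 : S ^ 2 = 1 - g ^ 2) (hg : g ^ 2 ≤ t)
    (hs : s ^ 2 ≤ 1 - t) : s ≤ S := by
  apply le_of_sq_le_sq _ hS.le
  rw [hS2]
  linarith

/-- The numerical inequality. -/
theorem V3_num {c g S Sh N a : ℝ} (hN : 0 ≤ N) (hS : 0 < S) (hS2 : S ^ 2 = 1 - g ^ 2)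
    (hSh : 0 ≤ Sh) (hSh2 : Sh ^ 2 = c ^ 2 - 1) (hcg : c + g ≤ 2) (hcg' : c - g ≤ 2)
    (hX : 0 < c * S - g * Sh) (hc : 1 ≤ c) (ha : 3 ≤ a)
    (hi : g ≤ 0 → -(1 / 2) ≤ g ∧ N ≤ a)
    (hii : 0 < g → g ≤ 0.15 → N ≤ a - 1 + 1.7321)
    (hiii : 0.15 < g → g ≤ 0.293 → N ≤ a - 1 + 3.09) :
    (c - g) / 2 * N * √2 < a / 2 * (c * S - g * Sh) + N := by
  have hq0 : (0 : ℝ) ≤ √2 := sqrt_nonneg 2
  have hq2 : √2 ^ 2 = (2 : ℝ) := sq_sqrt (by norm_num)
  have hq1 : (1.4142 : ℝ) < √2 := by
    rw [lt_sqrt (by norm_num)]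
    norm_num
  have hq3 : √2 < (1.4143 : ℝ) := by
    rw [sqrt_lt' (by norm_num)]
    norm_num
  set q : ℝ := √2 with hq
  have haX : 3 * (c * S - g * Sh) ≤ a * (c * S - g * Sh) := mul_le_mul_of_nonneg_right ha hX.le
  by_cases hs : (c - g) * q ≤ 2
  · have : (c - g) / 2 * N * q ≤ N := by
      have h1 : (c - g) * q * N ≤ 2 * N := mul_le_mul_of_nonneg_right hs hN
      linarith
    linarith
  · push Not at hs
    have hcgq : q < c - g := by
      by_contra hcon
      push Not at hcon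
      have : (c - g) * q ≤ q * q := mul_le_mul_of_nonneg_right hcon hq0
      nlinarith
    have hgoal : ((c - g) * q - 2) * N < a * (c * S - g * Sh) →
        (c - g) / 2 * N * q < a / 2 * (c * S - g * Sh) + N := by
      intro h
      linarith
    apply hgoal
    have hk0 : 0 < (c - g) * q - 2 := by linarith
    -- it is enough to compare with `3`
    have hred : ∀ B : ℝ, 1 ≤ B → N ≤ a - 1 + B →
        ((c - g) * q - 2) * (2 + B) < 3 * (c * S - g * Sh) →
        ((c - g) * q - 2) * N < a * (c * S - g * Sh) := by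
      intro B hB hNB h3
      have h4 : ((c - g) * q - 2) * N ≤ ((c - g) * q - 2) * (a - 1 + B) :=
        mul_le_mul_of_nonneg_left hNB hk0.le
      have h5 : ((c - g) * q - 2) * 3 ≤ ((c - g) * q - 2) * (2 + B) :=
        mul_le_mul_of_nonneg_left (by linarith) hk0.le
      have h6 : (c - g) * q - 2 ≤ c * S - g * Sh := by linarith
      have h7 : ((c - g) * q - 2) * (a - 3) ≤ (c * S - g * Sh) * (a - 3) :=
        mul_le_mul_of_nonneg_right h6 (by linarith)
      have h8 : ((c - g) * q - 2) * (a - 1 + B) =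
          ((c - g) * q - 2) * (a - 3) + ((c - g) * q - 2) * (2 + B) := by ring
      linarith
    rcases le_or_gt g 0 with hg | hg
    · obtain ⟨hg1, hN2⟩ := hi hg
      have hS1 : 0.866 ≤ S := by
        have h0 : (-g) ^ 2 ≤ (1 / 2) ^ 2 := pow_le_pow_left₀ (by linarith) (by linarith) 2
        rw [neg_sq] at h0
        exact V3_S (t := (1 / 2) ^ 2) hS hS2 h0 (by norm_num)
      have hX1 : 0.866 * c ≤ c * S - g * Sh := by
        have h1 : c * 0.866 ≤ c * S := mul_le_mul_of_nonneg_left hS1 (by linarith)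
        have h2 : 0 ≤ -g * Sh := mul_nonneg (by linarith) hSh
        linarith
      have h4 : (c - g) * q ≤ 2 * 1.4143 := by
        have h5 : (c - g) * q ≤ (c - g) * 1.4143 :=
          mul_le_mul_of_nonneg_left hq3.le (by linarith)
        linarith
      exact hred 1 le_rfl (by linarith) (by linarith)
    · have hg2 : g ≤ 0.293 := by linarith
      have hc2 : c ≤ 2 := by linarith
      have hSh1 : Sh ≤ 0.8661 * c := by
        apply le_of_sq_le_sq _ (by positivity)
        rw [hSh2]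
        nlinarith
      have hc1 : 1.4142 < c := by linarith
      have hX1 : c * (S - 0.8661 * g) ≤ c * S - g * Sh := by
        have h1 : g * Sh ≤ g * (0.8661 * c) := mul_le_mul_of_nonneg_left hSh1 hg.le
        linarith
      have h4 : (c - g) * q ≤ (2 - 2 * g) * 1.4143 := by
        have h5 : (c - g) * q ≤ (c - g) * 1.4143 :=
          mul_le_mul_of_nonneg_left hq3.le (by linarith)
        linarith
      rcases le_or_gt g 0.15 with hg3 | hg3
      · have hN2 := hii hg hg3
        have hS1 : 0.9886 ≤ S :=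
          V3_S (t := 0.15 ^ 2) hS hS2 (pow_le_pow_left₀ hg.le hg3 2) (by norm_num)
        have h6 : 1.4142 * (0.9886 - 0.8661 * 0.15) ≤ c * (S - 0.8661 * g) := by
          apply mul_le_mul hc1.le (by linarith) (by norm_num) (by linarith)
        exact hred 1.7321 (by norm_num) hN2 (by linarith)
      · have hN2 := hiii hg3 hg2
        have hS1 : 0.956 ≤ S :=
          V3_S (t := 0.293 ^ 2) hS hS2 (pow_le_pow_left₀ hg.le hg2 2) (by norm_num)
        have h6 : 1.4142 * (0.956 - 0.8661 * 0.293) ≤ c * (S - 0.8661 * g) := by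
          apply mul_le_mul hc1.le (by linarith) (by norm_num) (by linarith)
        exact hred 3.09 (by norm_num) hN2 (by linarith)

/-- Diagonal dominance. -/
theorem Vx.dom3 (h : Vx a R I J ρ β p r) (hk : k2 R I ≤ 1) {z : ℂ} (hz : z.re = R)
    (hz' : z.im = I) (hpos : ∀ j ∈ J, 0 < cosh (2 * p j) + cos (2 * r j)) :
    s2 R I * ∑ j ∈ J, ‖Complex.tanh ((p j : ℂ) + (r j : ℂ) * Complex.I)‖ <
      ‖(a : ℂ) * (Complex.cos z * Complex.sin z) -
        Complex.I * ∑ j ∈ J, Complex.tanh ((p j : ℂ) + (r j : ℂ) * Complex.I)‖ := by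
  have hR0 := h.R0
  have hR1 := h.R1
  have hI0 := h.I0
  have ha := h.a3
  have hp3 : (3.1415 : ℝ) < π := pi_gt_d4
  have hp4 : π < (3.1416 : ℝ) := pi_lt_d4
  have h3R : 3 * R ≤ a * R := mul_le_mul_of_nonneg_right ha hR0.le
  have hrr : ∑ j ∈ J, r j ≤ π - 3 * R := by linarith [h.hR]
  have hr0 : ∀ j ∈ J, 0 ≤ r j := fun j hj => (h.sl j hj).r0
  have hrj : ∀ j ∈ J, r j ≤ π - 3 * R := fun j hj =>
    (Finset.single_le_sum (f := r) hr0 hj).trans hrr
  obtain ⟨T, hT⟩ : ∃ T : ι → ℂ, T = fun j => Complex.tanh ((p j : ℂ) + (r j : ℂ) * Complex.I) :=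
    ⟨_, rfl⟩
  have hTj : ∀ j, Complex.tanh ((p j : ℂ) + (r j : ℂ) * Complex.I) = T j := fun j => by rw [hT]
  simp only [hTj]
  have hq : ∀ j ∈ J, ‖T j‖ ≤ (T j).re + (T j).im := by
    intro j hj
    have hq1 := tanh_quadrant (h.sl j hj).p0 (h.sl j hj).r0 (h.sl j hj).r1
    rw [hTj] at hq1
    have := Complex.norm_le_abs_re_add_abs_im (T j)
    rwa [abs_of_nonneg hq1.1, abs_of_nonneg hq1.2] at this
  have hproj := proj_cs z (∑ j ∈ J, T j) a
  rw [hz, hz', Complex.re_sum, Complex.im_sum, ← Finset.sum_add_distrib] at hproj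
  refine lt_of_lt_of_le ?_ hproj
  rw [lt_div_iff₀ (by positivity)]
  have hX := pos_cs hR0 hR1 hI0 hk
  have hsig := h.sig3 hk
  have hcg : cc I + gg R ≤ 2 := by
    unfold k2 at hk
    linarith
  have hcg' : cc I - gg R ≤ 2 := by
    unfold s2 at hsig
    linarith
  have hN : ∑ j ∈ J, ‖T j‖ ≤ ∑ j ∈ J, ((T j).re + (T j).im) := Finset.sum_le_sum hq
  have hN0 : 0 ≤ ∑ j ∈ J, ‖T j‖ := Finset.sum_nonneg fun j _ => norm_nonneg _
  have hone : ∀ j ∈ J, r j ≤ π / 4 → ‖T j‖ ≤ 1 := by
    intro j hj hr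
    rw [← hTj]
    apply V3_norm (u := 0) (hpos j hj) le_rfl (by norm_num) _ (by norm_num) (by norm_num)
    rw [neg_zero]
    exact cos_nonneg_of_mem_Icc ⟨by linarith [hr0 j hj], by linarith⟩
  have hcard := h.card
  have hmain : (cc I - gg R) / 2 * (∑ j ∈ J, ‖T j‖) * √2 <
      a / 2 * (cc I * sin (2 * R) - gg R * sinh (2 * I)) + ∑ j ∈ J, ‖T j‖ := by
    apply V3_num hN0 (sin_two_pos hR0 hR1) (sin_two_sq R) (sinh_two_pos hI0).le
      (sinh_two_sq I) hcg hcg' hX (one_le_cc I) ha
    · intro hg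
      refine ⟨h.gg_ge, ?_⟩
      have hR4 : π / 4 ≤ R := by
        by_contra hcon
        push Not at hcon
        have : 0 < gg R := by
          unfold gg
          exact cos_pos_of_mem_Ioo ⟨by linarith, by linarith⟩
        linarith
      have h1 : ∑ j ∈ J, ‖T j‖ ≤ ∑ _j ∈ J, (1 : ℝ) :=
        Finset.sum_le_sum fun j hj => hone j hj (by linarith [hrj j hj])
      rw [Finset.sum_const, nsmul_eq_mul, mul_one] at h1
      linarith
    · intro hg hg2
      have hR7 : 0.7 ≤ R := by
        by_contra hcon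
        push Not at hcon
        have h5 : sin (π / 2 - 2 * R) = gg R := by
          unfold gg
          exact sin_pi_div_two_sub _
        have h6 : sin 0.17 ≤ sin (π / 2 - 2 * R) :=
          sin_le_sin_of_le_of_le_pi_div_two (by linarith) (by linarith) (by linarith)
        have h7 := sin_gt_sub_cube (x := 0.17) (by norm_num)
        norm_num at h7 h6
        linarith
      have hb : ∀ j ∈ J, ‖T j‖ ≤ 1.7321 := by
        intro j hj
        rw [← hTj]
        refine V3_norm (u := 1 / 2) (hpos j hj) (by norm_num) (by norm_num) ?_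
          (by norm_num) (by norm_num)
        have h5 : cos (2 * π / 3) ≤ cos (2 * r j) :=
          cos_le_cos_of_nonneg_of_le_pi (by linarith [hr0 j hj]) (by linarith)
            (by linarith [hrj j hj])
        have h6 : cos (2 * π / 3) = -(1 / 2) := by
          have : 2 * π / 3 = π - π / 3 := by ring
          rw [this, cos_pi_sub, cos_pi_div_three]
        linarith
      have := V3_sum (by norm_num) hb hone hr0 (by linarith) h.ne
      linarith
    · intro hg hg2
      have hR7 : 0.63 ≤ R := by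
        by_contra hcon
        push Not at hcon
        have h5 : sin (π / 2 - 2 * R) = gg R := by
          unfold gg
          exact sin_pi_div_two_sub _
        have h6 : sin 0.31 ≤ sin (π / 2 - 2 * R) :=
          sin_le_sin_of_le_of_le_pi_div_two (by linarith) (by linarith) (by linarith)
        have h7 := sin_gt_sub_cube (x := 0.31) (by norm_num)
        norm_num at h7 h6 hg2
        linarith
      have hb : ∀ j ∈ J, ‖T j‖ ≤ 3.09 := by
        intro j hj
        rw [← hTj]
        refine V3_norm (u := 0.81) (hpos j hj) (by norm_num) (by norm_num) ?_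
          (by norm_num) (by norm_num)
        have h5 : cos (π - 2 * r j) ≤ cos 0.638 :=
          cos_le_cos_of_nonneg_of_le_pi (by norm_num) (by linarith [hr0 j hj])
            (by linarith [hrj j hj])
        rw [cos_pi_sub] at h5
        have h6 := cos_bound (x := 0.638) (by norm_num [abs_le])
        have h7 := (abs_le.1 h6).2
        have h8 : |(0.638 : ℝ)| = 0.638 := abs_of_pos (by norm_num)
        rw [h8] at h7
        norm_num at h7 h5 ⊢
        linarith
      have := V3_sum (by norm_num) hb hone hr0 (by linarith) h.ne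
      linarith
  unfold s2
  linarith

namespace Zr

variable {a : ι → ℝ} {N : ι → Finset ι} {τ : ℝ} {z : ι → ℂ}

theorem k2_le [Finite ι] (h : Zr a N τ z) (i : ι) : k2 (z i).re (z i).im ≤ 1 :=
  h.k2_le_of (fun i h1 h2 => by
    have := (h.vx i).lemA fun j _ => h2 j
    linarith) i

theorem k2_lt [Finite ι] (h : Zr a N τ z) (hτ : 0 < τ) (i : ι) : k2 (z i).re (z i).im < 1 :=
  h.k2_lt_of (fun i h1 h2 => by
    have := (h.vx i).lemA' (fun j _ => h2 j) fun j _ => Or.inl (h.be_pos hτ j)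
    linarith) i

/-- The angle `φ`. -/
theorem phi3 [Finite ι] (h : Zr a N τ z) (i : ι) :
    ph (z i).re (z i).im ≤ 9 / 20 ∧ (ph (z i).re (z i).im ≤ 1 / 3 ∨
      21 / 50 ≤ k2 (z i).re (z i).im) := (h.vx i).phi3 (h.k2_le i)

theorem be_le [Finite ι] (h : Zr a N τ z) (j : ι) : be τ z j ≤ 9 / 20 :=
  (h.be_le_ph j).trans (h.phi3 j).1

/-- The one-vertex inequalities. -/
theorem vb [Finite ι] (h : Zr a N τ z) : Vb a N τ z := by
  have hpi := Real.pi_gt_d4
  have hlt : ∀ i j, al (z i).re (z i).im + be τ z j < Real.pi / 2 := by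
    intro i j
    have h1 := (h.vx i).lemC (h.k2_le i)
    have h2 := h.be_le j
    linarith
  refine
    { k2_le := h.k2_le
      k2_ge := fun i => (h.vx i).lemL3
      ph_le := fun i => (h.vx i).lemB
      al_be_lt := fun i j _ => hlt i j
      dom := ?_ }
  intro i
  refine (h.vx i).dom3 (h.k2_le i) (z := z i) rfl rfl ?_
  intro j hj
  have hs := (h.vx i).sl j hj
  have hp := hs.p0
  -- `p > 0`
  have h1 : 0 < sinh (PP (bo τ z j * Complex.tan (z i))) * cos (RR (bo τ z j * Complex.tan (z i))) := by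
    rw [hs.e1]
    apply mul_pos (mul_pos (h.ro_pos j) (h.ttpos i))
    apply Real.cos_pos_of_mem_Ioo
    constructor
    · linarith [h.alpos i, h.be_nonneg j]
    · exact hlt i j
  have h2 : PP (bo τ z j * Complex.tan (z i)) ≠ 0 := by
    intro h0
    rw [h0] at h1
    simp at h1
  have h3 : 1 < cosh (2 * PP (bo τ z j * Complex.tan (z i))) := Real.one_lt_cosh.2 (by simpa using h2)
  linarith [Real.neg_one_le_cos (2 * RR (bo τ z j * Complex.tan (z i)))]

end Zr

/-- **Existence of the critical point.** -/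
theorem exists_crit [Fintype ι] {a : ι → ℝ} {N : ι → Finset ι} (hN : Nbr a N) :
    ∃ z : ι → ℂ, Zr a N 1 z := exists_zero hN fun _ _ h => h.vb

end Pool.Agent.AT.E
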