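import Pool.Agent.AT.E.V3

/-!
# Project AT, block E: numerical inequalities for a vertex with `a ≥ 3`

`x + i θ = arsinh (tan (R + i I))`, so `tan R = sinh x / cos θ`, `tanh I = sin θ / cosh x`, and
`|cos z| ≤ 1` means `sin θ ≤ sinh x`. The chord inequality is `a (x R + θ I) ≤ π x`. `V4_theta`: it
fails for `θ ≥ 27/50`; `V4_pos`: it fails for `Im tan z = sin θ cosh x ≥ 1/√2`.
-/

namespace Pool.Agent.AT.E

open Real

private theorem V4_mono {f f' : ℝ → ℝ} (hd : ∀ x, HasDerivAt f (f' x) x) (h0 : f 0 = 0)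
    (hp : ∀ x, 0 ≤ x → 0 ≤ f' x) {x : ℝ} (hx : 0 ≤ x) : 0 ≤ f x := by
  have hm : MonotoneOn f (Set.Ici 0) := by
    apply monotoneOn_of_deriv_nonneg (convex_Ici 0)
    · exact fun y _ => (hd y).continuousAt.continuousWithinAt
    · exact fun y _ => (hd y).differentiableAt.differentiableWithinAt
    · intro y hy
      rw [(hd y).deriv]
      exact hp y (interior_subset hy)
  have := hm (Set.mem_Ici.2 le_rfl) (Set.mem_Ici.2 hx) hx
  rwa [h0] at this

theorem V4_sin3 {x : ℝ} (hx : 0 ≤ x) : x - x ^ 3 / 6 ≤ sin x := by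
  have h := V4_mono (f := fun x => sin x - (x - x ^ 3 / 6)) (f' := fun x => cos x - (1 - x ^ 2 / 2))
    (fun x => by
      have h1 := (Real.hasDerivAt_sin x).sub ((hasDerivAt_id' x).sub ((hasDerivAt_pow 3 x).div_const 6))
      refine h1.congr_deriv ?_
      norm_num
      try ring)
    (by simp) (fun x hx => by linarith [Real.one_sub_sq_div_two_le_cos (x := x)]) hx
  linarith

theorem V4_cos4 {x : ℝ} (hx : 0 ≤ x) : cos x ≤ 1 - x ^ 2 / 2 + x ^ 4 / 24 := by
  have h := V4_mono (f := fun x => 1 - x ^ 2 / 2 + x ^ 4 / 24 - cos x)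
    (f' := fun x => sin x - (x - x ^ 3 / 6))
    (fun x => by
      have h1 := (((hasDerivAt_const x (1 : ℝ)).sub ((hasDerivAt_pow 2 x).div_const 2)).add
        ((hasDerivAt_pow 4 x).div_const 24)).sub (Real.hasDerivAt_cos x)
      refine h1.congr_deriv ?_
      norm_num
      try ring)
    (by simp) (fun x hx => by linarith [V4_sin3 hx]) hx
  linarith

theorem V4_sin5 {x : ℝ} (hx : 0 ≤ x) : sin x ≤ x - x ^ 3 / 6 + x ^ 5 / 120 := by
  have h := V4_mono (f := fun x => x - x ^ 3 / 6 + x ^ 5 / 120 - sin x)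
    (f' := fun x => 1 - x ^ 2 / 2 + x ^ 4 / 24 - cos x)
    (fun x => by
      have h1 := (((hasDerivAt_id' x).sub ((hasDerivAt_pow 3 x).div_const 6)).add
        ((hasDerivAt_pow 5 x).div_const 120)).sub (Real.hasDerivAt_sin x)
      refine h1.congr_deriv ?_
      norm_num
      try ring)
    (by simp) (fun x hx => by linarith [V4_cos4 hx]) hx
  linarith

private theorem V4_cosh2 {x : ℝ} (hx : 0 ≤ x) : 1 + x ^ 2 / 2 ≤ cosh x := by
  have h := V4_mono (f := fun x => cosh x - (1 + x ^ 2 / 2)) (f' := fun x => sinh x - x)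
    (fun x => by
      have h1 := (Real.hasDerivAt_cosh x).sub ((hasDerivAt_const x (1 : ℝ)).add
        ((hasDerivAt_pow 2 x).div_const 2))
      refine h1.congr_deriv ?_
      norm_num
      try ring)
    (by simp) (fun x hx => by linarith [Real.self_le_sinh_iff.2 hx]) hx
  linarith

private theorem V4_sinh3 {x : ℝ} (hx : 0 ≤ x) : x + x ^ 3 / 6 ≤ sinh x := by
  have h := V4_mono (f := fun x => sinh x - (x + x ^ 3 / 6)) (f' := fun x => cosh x - (1 + x ^ 2 / 2))
    (fun x => by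
      have h1 := (Real.hasDerivAt_sinh x).sub ((hasDerivAt_id' x).add
        ((hasDerivAt_pow 3 x).div_const 6))
      refine h1.congr_deriv ?_
      norm_num
      try ring)
    (by simp) (fun x hx => by linarith [V4_cosh2 hx]) hx
  linarith

private theorem V4_cosh4 {x : ℝ} (hx : 0 ≤ x) : 1 + x ^ 2 / 2 + x ^ 4 / 24 ≤ cosh x := by
  have h := V4_mono (f := fun x => cosh x - (1 + x ^ 2 / 2 + x ^ 4 / 24))
    (f' := fun x => sinh x - (x + x ^ 3 / 6))
    (fun x => by
      have h1 := (Real.hasDerivAt_cosh x).sub (((hasDerivAt_const x (1 : ℝ)).add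
        ((hasDerivAt_pow 2 x).div_const 2)).add ((hasDerivAt_pow 4 x).div_const 24))
      refine h1.congr_deriv ?_
      norm_num
      try ring)
    (by simp) (fun x hx => by linarith [V4_sinh3 hx]) hx
  linarith

private theorem V4_sinh5 {x : ℝ} (hx : 0 ≤ x) : x + x ^ 3 / 6 + x ^ 5 / 120 ≤ sinh x := by
  have h := V4_mono (f := fun x => sinh x - (x + x ^ 3 / 6 + x ^ 5 / 120))
    (f' := fun x => cosh x - (1 + x ^ 2 / 2 + x ^ 4 / 24))
    (fun x => by
      have h1 := (Real.hasDerivAt_sinh x).sub (((hasDerivAt_id' x).add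
        ((hasDerivAt_pow 3 x).div_const 6)).add ((hasDerivAt_pow 5 x).div_const 120))
      refine h1.congr_deriv ?_
      norm_num
      try ring)
    (by simp) (fun x hx => by linarith [V4_cosh4 hx]) hx
  linarith

private theorem V4_cosh6 {x : ℝ} (hx : 0 ≤ x) :
    1 + x ^ 2 / 2 + x ^ 4 / 24 + x ^ 6 / 720 ≤ cosh x := by
  have h := V4_mono (f := fun x => cosh x - (1 + x ^ 2 / 2 + x ^ 4 / 24 + x ^ 6 / 720))
    (f' := fun x => sinh x - (x + x ^ 3 / 6 + x ^ 5 / 120))
    (fun x => by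
      have h1 := (Real.hasDerivAt_cosh x).sub ((((hasDerivAt_const x (1 : ℝ)).add
        ((hasDerivAt_pow 2 x).div_const 2)).add ((hasDerivAt_pow 4 x).div_const 24)).add
        ((hasDerivAt_pow 6 x).div_const 720))
      refine h1.congr_deriv ?_
      norm_num
      try ring)
    (by simp) (fun x hx => by linarith [V4_sinh5 hx]) hx
  linarith

theorem V4_sinh7 {x : ℝ} (hx : 0 ≤ x) :
    x + x ^ 3 / 6 + x ^ 5 / 120 + x ^ 7 / 5040 ≤ sinh x := by
  have h := V4_mono (f := fun x => sinh x - (x + x ^ 3 / 6 + x ^ 5 / 120 + x ^ 7 / 5040))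
    (f' := fun x => cosh x - (1 + x ^ 2 / 2 + x ^ 4 / 24 + x ^ 6 / 720))
    (fun x => by
      have h1 := (Real.hasDerivAt_sinh x).sub ((((hasDerivAt_id' x).add
        ((hasDerivAt_pow 3 x).div_const 6)).add ((hasDerivAt_pow 5 x).div_const 120)).add
        ((hasDerivAt_pow 7 x).div_const 5040))
      refine h1.congr_deriv ?_
      norm_num
      try ring)
    (by simp) (fun x hx => by linarith [V4_cosh6 hx]) hx
  linarith

/-- `artanh` from below. -/
theorem V4_artanh {v : ℝ} (hv : 0 ≤ v) :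
    sinh v / cosh v + (sinh v / cosh v) ^ 3 / 3 + (sinh v / cosh v) ^ 5 / 5 ≤ v := by
  have hd : ∀ v : ℝ, HasDerivAt (fun u : ℝ => sinh u / cosh u) (1 - (sinh v / cosh v) ^ 2) v := by
    intro v
    have hc : cosh v ≠ 0 := (cosh_pos v).ne'
    have h0 := (Real.hasDerivAt_sinh v).div (Real.hasDerivAt_cosh v) hc
    refine h0.congr_deriv ?_
    field_simp
  have h := V4_mono (f := fun v => v - (sinh v / cosh v + (sinh v / cosh v) ^ 3 / 3 +
      (sinh v / cosh v) ^ 5 / 5)) (f' := fun v => (sinh v / cosh v) ^ 6)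
    (fun v => by
      have h1 := (hasDerivAt_id' v).sub (((hd v).add (((hd v).pow 3).div_const 3)).add
        (((hd v).pow 5).div_const 5))
      refine h1.congr_deriv ?_
      norm_num
      ring)
    (by simp) (fun v _ => by positivity) hv
  linarith

theorem V4_artanh_le {I y : ℝ} (hI : 0 < I) (hy : 0 < y) (h : y ≤ tanh I) :
    y + y ^ 3 / 3 + y ^ 5 / 5 ≤ I := by
  have h1 := V4_artanh hI.le
  rw [← tanh_eq_sinh_div_cosh] at h1
  have h3 : y ^ 3 ≤ tanh I ^ 3 := pow_le_pow_left₀ hy.le h 3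
  have h5 : y ^ 5 ≤ tanh I ^ 5 := pow_le_pow_left₀ hy.le h 5
  linarith

theorem V4_arctan {T : ℝ} (hT : 0 ≤ T) : arctan T ≤ T - T ^ 3 / 3 + T ^ 5 / 5 := by
  have h := V4_mono (f := fun T => T - T ^ 3 / 3 + T ^ 5 / 5 - arctan T)
    (f' := fun T => T ^ 6 / (1 + T ^ 2))
    (fun T => by
      have h1 := (((hasDerivAt_id' T).sub ((hasDerivAt_pow 3 T).div_const 3)).add
        ((hasDerivAt_pow 5 T).div_const 5)).sub (Real.hasDerivAt_arctan T)
      refine h1.congr_deriv ?_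
      have : (1 : ℝ) + T ^ 2 ≠ 0 := by positivity
      field_simp
      ring)
    (by simp) (fun T _ => by positivity) hT
  linarith

/-- `arctan t + arctan T > π / 3`. -/
theorem V4_third {t T : ℝ} (ht : 0 < t) (hT : 0 < T)
    (n : 1 ≤ t * T ∨ 3 * (1 - t * T) ^ 2 < (t + T) ^ 2) : π / 3 < arctan t + arctan T := by
  have hpi := pi_pos
  rcases le_or_gt 1 (t * T) with h | h
  · have h1 : arctan t⁻¹ = π / 2 - arctan t := arctan_inv_of_pos ht
    have h2 : t⁻¹ ≤ T := by
      rw [inv_le_iff_one_le_mul₀ ht]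
      linarith
    have h3 := arctan_mono h2
    linarith
  · have h1 : 3 * (1 - t * T) ^ 2 < (t + T) ^ 2 := by
      rcases n with n | n
      · linarith
      · exact n
    rw [arctan_add h]
    have h2 : √3 < (t + T) / (1 - t * T) := by
      rw [lt_div_iff₀ (by linarith)]
      have h3 : √3 ^ 2 = (3 : ℝ) := sq_sqrt (by norm_num)
      have h4 : 0 ≤ √3 * (1 - t * T) := mul_nonneg (sqrt_nonneg 3) (by linarith)
      have h5 : (√3 * (1 - t * T)) ^ 2 < (t + T) ^ 2 := by
        rw [mul_pow, h3]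
        exact h1
      exact lt_of_pow_lt_pow_left₀ 2 (by positivity) h5
    have h3 := arctan_strictMono h2
    have h4 : arctan √3 = π / 3 := by
      rw [← tan_pi_div_three, arctan_tan (by linarith) (by linarith)]
    linarith

theorem V4_piece {x θ R I S0 S1 C1 X1 s0 c0 θ0 t0 y1 w1 T1 : ℝ}
    (hx : 0 < x) (hR : 0 < R) (hR' : R < π / 2) (hI : 0 < I) (hθ : 0 < θ) (hθ' : θ < π / 2)
    (e1 : tan R = sinh x / cos θ) (e2 : tanh I = sin θ / cosh x)
    (h0 : S0 ≤ sinh x) (h1 : sinh x ≤ S1)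
    (hs : s0 ≤ sin θ) (hθ0 : θ0 ≤ θ) (hc : cos θ ≤ c0)
    (p : 0 < C1 ∧ 0 < X1 ∧ 0 < t0 ∧ 0 < y1 ∧ 0 < T1 ∧ 0 < θ0)
    (nC : 1 + S1 ^ 2 ≤ C1 ^ 2) (nX : S1 ≤ X1 + X1 ^ 3 / 6 + X1 ^ 5 / 120 + X1 ^ 7 / 5040)
    (nt : t0 * c0 ≤ S0) (ny : y1 * C1 ≤ s0)
    (nw : w1 * X1 ≤ θ0 * (y1 + y1 ^ 3 / 3 + y1 ^ 5 / 5))
    (nT : T1 - T1 ^ 3 / 3 + T1 ^ 5 / 5 ≤ w1)
    (n : 1 ≤ t0 * T1 ∨ 3 * (1 - t0 * T1) ^ 2 < (t0 + T1) ^ 2) :
    π * x < 3 * (x * R + θ * I) := by
  obtain ⟨hC1, hX1, ht0, hy1, hT1, hθ00⟩ := p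
  have hpi := pi_pos
  have hcx := cosh_pos x
  have hsx : 0 < sinh x := sinh_pos_iff.2 hx
  have hcos : 0 < cos θ := cos_pos_of_mem_Ioo ⟨by linarith, hθ'⟩
  have hxX : x ≤ X1 := by
    rw [← sinh_le_sinh]
    exact h1.trans (nX.trans (V4_sinh7 hX1.le))
  have hcC : cosh x ≤ C1 := by
    have h2 : cosh x ^ 2 ≤ C1 ^ 2 := by
      rw [cosh_sq]
      have : sinh x ^ 2 ≤ S1 ^ 2 := pow_le_pow_left₀ hsx.le h1 2
      linarith
    exact le_of_sq_le_sq h2 hC1.le
  have hRt : arctan t0 ≤ R := by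
    rw [← arctan_tan (by linarith) hR', e1]
    apply arctan_mono
    rw [le_div_iff₀ hcos]
    have : t0 * cos θ ≤ t0 * c0 := mul_le_mul_of_nonneg_left hc ht0.le
    linarith
  have hIy : y1 + y1 ^ 3 / 3 + y1 ^ 5 / 5 ≤ I := by
    apply V4_artanh_le hI hy1
    rw [e2, le_div_iff₀ hcx]
    have : y1 * cosh x ≤ y1 * C1 := mul_le_mul_of_nonneg_left hcC hy1.le
    linarith
  have hw : w1 * x ≤ θ * I := by
    have hw0 : 0 < w1 := by
      refine lt_of_lt_of_le ?_ nT
      have := V4_arctan hT1.le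
      have := arctan_pos.2 hT1
      linarith
    have a1 : w1 * x ≤ w1 * X1 := mul_le_mul_of_nonneg_left hxX hw0.le
    have a2 : θ0 * (y1 + y1 ^ 3 / 3 + y1 ^ 5 / 5) ≤ θ * I :=
      mul_le_mul hθ0 hIy (by positivity) hθ.le
    linarith
  have h3 := V4_third ht0 hT1 n
  have h4 := V4_arctan hT1.le
  have h5 : π / 3 < R + w1 := by linarith
  have h6 : π / 3 * x < (R + w1) * x := mul_lt_mul_of_pos_right h5 hx
  linarith

/-- The chord inequality fails for `θ ≥ 27/50`. -/
theorem V4_theta {x θ R I : ℝ} (hx : 0 < x) (hR : 0 < R) (hR' : R < π / 2) (hI : 0 < I)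
    (hθ : 27 / 50 ≤ θ) (hθ' : θ < π / 2) (e1 : tan R = sinh x / cos θ)
    (e2 : tanh I = sin θ / cosh x) (hk : sin θ ≤ sinh x) : π * x < 3 * (x * R + θ * I) := by
  have hpi := pi_pos
  have hs : 257 / 500 ≤ sin θ := by
    have h1 : sin (27 / 50) ≤ sin θ :=
      sin_le_sin_of_le_of_le_pi_div_two (by linarith) hθ'.le hθ
    refine le_trans ?_ h1
    have h2 := abs_le.1 (Real.sin_bound (x := 27 / 50)
      (by rw [abs_of_pos (by norm_num)]; norm_num))
    have h3 := V4_cos4 (x := 27 / 50) (by norm_num)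
    have h4 := sin_sq_add_cos_sq (27 / 50 : ℝ)
    have h5 : 0 < sin (27 / 50) := sin_pos_of_pos_of_lt_pi (by norm_num) (by linarith [pi_gt_three])
    have h6 : 0 < cos (27 / 50) :=
      cos_pos_of_mem_Ioo ⟨by linarith, by linarith [pi_gt_three]⟩
    norm_num at h3
    by_contra hn
    push Not at hn
    nlinarith
  have hc : cos θ ≤ 4289 / 5000 := by
    have h1 : cos θ ≤ cos (27 / 50) :=
      cos_le_cos_of_nonneg_of_le_pi (by norm_num) (by linarith) hθ
    refine le_trans h1 ?_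
    have h3 := V4_cos4 (x := 27 / 50) (by norm_num)
    norm_num at h3
    linarith
  have hcos : 0 < cos θ := cos_pos_of_mem_Ioo ⟨by linarith, hθ'⟩
  have hθ0 : 0 < θ := by linarith
  have h0 : 514 / 1000 ≤ sinh x := by linarith
  rcases le_or_gt (sinh x) (269 / 500) with k0 | k0
  · exact V4_piece (S0 := 257 / 500) (S1 := 269 / 500) (C1 := 2839 / 2500) (X1 := 103 / 200) (s0 := 257 / 500) (c0 := 4289 / 5000) (θ0 := 27 / 50)
      (t0 := 749 / 1250) (y1 := 2263 / 5000) (w1 := 5109 / 10000) (T1 := 5579 / 10000) hx hR hR' hI hθ0 hθ' e1 e2 (by linarith) k0 hs hθ hc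
      (by norm_num) (by norm_num) (by norm_num) (by norm_num) (by norm_num) (by norm_num)
      (by norm_num) (by norm_num)
  rcases le_or_gt (sinh x) (279 / 500) with k1 | k1
  · exact V4_piece (S0 := 269 / 500) (S1 := 279 / 500) (C1 := 2863 / 2500) (X1 := 213 / 400) (s0 := 257 / 500) (c0 := 4289 / 5000) (θ0 := 27 / 50)
      (t0 := 6271 / 10000) (y1 := 561 / 1250) (w1 := 4893 / 10000) (T1 := 5307 / 10000) hx hR hR' hI hθ0 hθ' e1 e2 (by linarith) k1 hs hθ hc
      (by norm_num) (by norm_num) (by norm_num) (by norm_num) (by norm_num) (by norm_num)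
      (by norm_num) (by norm_num)
  rcases le_or_gt (sinh x) (287 / 500) with k2 | k2
  · exact V4_piece (S0 := 279 / 500) (S1 := 287 / 500) (C1 := 11531 / 10000) (X1 := 1093 / 2000) (s0 := 257 / 500) (c0 := 4289 / 5000) (θ0 := 27 / 50)
      (t0 := 1301 / 2000) (y1 := 4457 / 10000) (w1 := 473 / 1000) (T1 := 5103 / 10000) hx hR hR' hI hθ0 hθ' e1 e2 (by linarith) k2 hs hθ hc
      (by norm_num) (by norm_num) (by norm_num) (by norm_num) (by norm_num) (by norm_num)
      (by norm_num) (by norm_num)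
  rcases le_or_gt (sinh x) (147 / 250) with k3 | k3
  · exact V4_piece (S0 := 287 / 500) (S1 := 147 / 250) (C1 := 11601 / 10000) (X1 := 2793 / 5000) (s0 := 257 / 500) (c0 := 4289 / 5000) (θ0 := 27 / 50)
      (t0 := 6691 / 10000) (y1 := 443 / 1000) (w1 := 919 / 2000) (T1 := 4937 / 10000) hx hR hR' hI hθ0 hθ' e1 e2 (by linarith) k3 hs hθ hc
      (by norm_num) (by norm_num) (by norm_num) (by norm_num) (by norm_num) (by norm_num)
      (by norm_num) (by norm_num)
  rcases le_or_gt (sinh x) (3 / 5) with k4 | k4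
  · exact V4_piece (S0 := 147 / 250) (S1 := 3 / 5) (C1 := 5831 / 5000) (X1 := 5689 / 10000) (s0 := 257 / 500) (c0 := 4289 / 5000) (θ0 := 27 / 50)
      (t0 := 3427 / 5000) (y1 := 4407 / 10000) (w1 := 897 / 2000) (T1 := 4803 / 10000) hx hR hR' hI hθ0 hθ' e1 e2 (by linarith) k4 hs hθ hc
      (by norm_num) (by norm_num) (by norm_num) (by norm_num) (by norm_num) (by norm_num)
      (by norm_num) (by norm_num)
  rcases le_or_gt (sinh x) (153 / 250) with k5 | k5
  · exact V4_piece (S0 := 3 / 5) (S1 := 153 / 250) (C1 := 469 / 400) (X1 := 5791 / 10000) (s0 := 257 / 500) (c0 := 4289 / 5000) (θ0 := 27 / 50)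
      (t0 := 3497 / 5000) (y1 := 4383 / 10000) (w1 := 2189 / 5000) (T1 := 4673 / 10000) hx hR hR' hI hθ0 hθ' e1 e2 (by linarith) k5 hs hθ hc
      (by norm_num) (by norm_num) (by norm_num) (by norm_num) (by norm_num) (by norm_num)
      (by norm_num) (by norm_num)
  rcases le_or_gt (sinh x) (311 / 500) with k6 | k6
  · exact V4_piece (S0 := 153 / 250) (S1 := 311 / 500) (C1 := 11777 / 10000) (X1 := 1469 / 2500) (s0 := 257 / 500) (c0 := 4289 / 5000) (θ0 := 27 / 50)
      (t0 := 3567 / 5000) (y1 := 1091 / 2500) (w1 := 2147 / 5000) (T1 := 1143 / 2500) hx hR hR' hI hθ0 hθ' e1 e2 (by linarith) k6 hs hθ hc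
      (by norm_num) (by norm_num) (by norm_num) (by norm_num) (by norm_num) (by norm_num)
      (by norm_num) (by norm_num)
  rcases le_or_gt (sinh x) (79 / 125) with k7 | k7
  · exact V4_piece (S0 := 311 / 500) (S1 := 79 / 125) (C1 := 1183 / 1000) (X1 := 5961 / 10000) (s0 := 257 / 500) (c0 := 4289 / 5000) (θ0 := 27 / 50)
      (t0 := 7251 / 10000) (y1 := 543 / 1250) (w1 := 421 / 1000) (T1 := 559 / 1250) hx hR hR' hI hθ0 hθ' e1 e2 (by linarith) k7 hs hθ hc
      (by norm_num) (by norm_num) (by norm_num) (by norm_num) (by norm_num) (by norm_num)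
      (by norm_num) (by norm_num)
  rcases le_or_gt (sinh x) (321 / 500) with k8 | k8
  · exact V4_piece (S0 := 79 / 125) (S1 := 321 / 500) (C1 := 2971 / 2500) (X1 := 3023 / 5000) (s0 := 257 / 500) (c0 := 4289 / 5000) (θ0 := 27 / 50)
      (t0 := 7367 / 10000) (y1 := 173 / 400) (w1 := 413 / 1000) (T1 := 4377 / 10000) hx hR hR' hI hθ0 hθ' e1 e2 (by linarith) k8 hs hθ hc
      (by norm_num) (by norm_num) (by norm_num) (by norm_num) (by norm_num) (by norm_num)
      (by norm_num) (by norm_num)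
  rcases le_or_gt (sinh x) (163 / 250) with k9 | k9
  · exact V4_piece (S0 := 321 / 500) (S1 := 163 / 250) (C1 := 5969 / 5000) (X1 := 613 / 1000) (s0 := 257 / 500) (c0 := 4289 / 5000) (θ0 := 27 / 50)
      (t0 := 1871 / 2500) (y1 := 861 / 2000) (w1 := 1013 / 2500) (T1 := 857 / 2000) hx hR hR' hI hθ0 hθ' e1 e2 (by linarith) k9 hs hθ hc
      (by norm_num) (by norm_num) (by norm_num) (by norm_num) (by norm_num) (by norm_num)
      (by norm_num) (by norm_num)
  rcases le_or_gt (sinh x) (331 / 500) with k10 | k10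
  · exact V4_piece (S0 := 163 / 250) (S1 := 331 / 500) (C1 := 11993 / 10000) (X1 := 6213 / 10000) (s0 := 257 / 500) (c0 := 4289 / 5000) (θ0 := 27 / 50)
      (t0 := 19 / 25) (y1 := 857 / 2000) (w1 := 3977 / 10000) (T1 := 4197 / 10000) hx hR hR' hI hθ0 hθ' e1 e2 (by linarith) k10 hs hθ hc
      (by norm_num) (by norm_num) (by norm_num) (by norm_num) (by norm_num) (by norm_num)
      (by norm_num) (by norm_num)
  rcases le_or_gt (sinh x) (84 / 125) with k11 | k11
  · exact V4_piece (S0 := 331 / 500) (S1 := 84 / 125) (C1 := 12049 / 10000) (X1 := 787 / 1250) (s0 := 257 / 500) (c0 := 4289 / 5000) (θ0 := 27 / 50)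
      (t0 := 7717 / 10000) (y1 := 853 / 2000) (w1 := 244 / 625) (T1 := 257 / 625) hx hR hR' hI hθ0 hθ' e1 e2 (by linarith) k11 hs hθ hc
      (by norm_num) (by norm_num) (by norm_num) (by norm_num) (by norm_num) (by norm_num)
      (by norm_num) (by norm_num)
  rcases le_or_gt (sinh x) (341 / 500) with k12 | k12
  · exact V4_piece (S0 := 84 / 125) (S1 := 341 / 500) (C1 := 2421 / 2000) (X1 := 6379 / 10000) (s0 := 257 / 500) (c0 := 4289 / 5000) (θ0 := 27 / 50)
      (t0 := 7833 / 10000) (y1 := 2123 / 5000) (w1 := 3833 / 10000) (T1 := 4029 / 10000) hx hR hR' hI hθ0 hθ' e1 e2 (by linarith) k12 hs hθ hc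
      (by norm_num) (by norm_num) (by norm_num) (by norm_num) (by norm_num) (by norm_num)
      (by norm_num) (by norm_num)
  rcases le_or_gt (sinh x) (173 / 250) with k13 | k13
  · exact V4_piece (S0 := 341 / 500) (S1 := 173 / 250) (C1 := 12161 / 10000) (X1 := 3231 / 5000) (s0 := 257 / 500) (c0 := 4289 / 5000) (θ0 := 27 / 50)
      (t0 := 159 / 200) (y1 := 2113 / 5000) (w1 := 941 / 2500) (T1 := 79 / 200) hx hR hR' hI hθ0 hθ' e1 e2 (by linarith) k13 hs hθ hc
      (by norm_num) (by norm_num) (by norm_num) (by norm_num) (by norm_num) (by norm_num)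
      (by norm_num) (by norm_num)
  rcases le_or_gt (sinh x) (351 / 500) with k14 | k14
  · exact V4_piece (S0 := 173 / 250) (S1 := 351 / 500) (C1 := 12219 / 10000) (X1 := 409 / 625) (s0 := 257 / 500) (c0 := 4289 / 5000) (θ0 := 27 / 50)
      (t0 := 8067 / 10000) (y1 := 2103 / 5000) (w1 := 3697 / 10000) (T1 := 3873 / 10000) hx hR hR' hI hθ0 hθ' e1 e2 (by linarith) k14 hs hθ hc
      (by norm_num) (by norm_num) (by norm_num) (by norm_num) (by norm_num) (by norm_num)
      (by norm_num) (by norm_num)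
  rcases le_or_gt (sinh x) (357 / 500) with k15 | k15
  · exact V4_piece (S0 := 351 / 500) (S1 := 357 / 500) (C1 := 768 / 625) (X1 := 6641 / 10000) (s0 := 257 / 500) (c0 := 4289 / 5000) (θ0 := 27 / 50)
      (t0 := 8183 / 10000) (y1 := 2091 / 5000) (w1 := 3619 / 10000) (T1 := 473 / 1250) hx hR hR' hI hθ0 hθ' e1 e2 (by linarith) k15 hs hθ hc
      (by norm_num) (by norm_num) (by norm_num) (by norm_num) (by norm_num) (by norm_num)
      (by norm_num) (by norm_num)
  rcases le_or_gt (sinh x) (363 / 500) with k16 | k16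
  · exact V4_piece (S0 := 357 / 500) (S1 := 363 / 500) (C1 := 6179 / 5000) (X1 := 6739 / 10000) (s0 := 257 / 500) (c0 := 4289 / 5000) (θ0 := 27 / 50)
      (t0 := 8323 / 10000) (y1 := 4159 / 10000) (w1 := 443 / 1250) (T1 := 1849 / 5000) hx hR hR' hI hθ0 hθ' e1 e2 (by linarith) k16 hs hθ hc
      (by norm_num) (by norm_num) (by norm_num) (by norm_num) (by norm_num) (by norm_num)
      (by norm_num) (by norm_num)
  rcases le_or_gt (sinh x) (37 / 50) with k17 | k17
  · exact V4_piece (S0 := 363 / 500) (S1 := 37 / 50) (C1 := 12441 / 10000) (X1 := 1713 / 2500) (s0 := 257 / 500) (c0 := 4289 / 5000) (θ0 := 27 / 50)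
      (t0 := 8463 / 10000) (y1 := 4131 / 10000) (w1 := 3459 / 10000) (T1 := 1801 / 5000) hx hR hR' hI hθ0 hθ' e1 e2 (by linarith) k17 hs hθ hc
      (by norm_num) (by norm_num) (by norm_num) (by norm_num) (by norm_num) (by norm_num)
      (by norm_num) (by norm_num)
  rcases le_or_gt (sinh x) (189 / 250) with k18 | k18
  · exact V4_piece (S0 := 37 / 50) (S1 := 189 / 250) (C1 := 12537 / 10000) (X1 := 349 / 500) (s0 := 257 / 500) (c0 := 4289 / 5000) (θ0 := 27 / 50)
      (t0 := 4313 / 5000) (y1 := 4099 / 10000) (w1 := 1683 / 5000) (T1 := 1749 / 5000) hx hR hR' hI hθ0 hθ' e1 e2 (by linarith) k18 hs hθ hc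
      (by norm_num) (by norm_num) (by norm_num) (by norm_num) (by norm_num) (by norm_num)
      (by norm_num) (by norm_num)
  rcases le_or_gt (sinh x) (97 / 125) with k19 | k19
  · exact V4_piece (S0 := 189 / 250) (S1 := 97 / 125) (C1 := 6329 / 5000) (X1 := 7139 / 10000) (s0 := 257 / 500) (c0 := 4289 / 5000) (θ0 := 27 / 50)
      (t0 := 8813 / 10000) (y1 := 203 / 500) (w1 := 407 / 1250) (T1 := 27 / 80) hx hR hR' hI hθ0 hθ' e1 e2 (by linarith) k19 hs hθ hc
      (by norm_num) (by norm_num) (by norm_num) (by norm_num) (by norm_num) (by norm_num)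
      (by norm_num) (by norm_num)
  rcases le_or_gt (sinh x) (4 / 5) with k20 | k20
  · exact V4_piece (S0 := 97 / 125) (S1 := 4 / 5) (C1 := 12807 / 10000) (X1 := 7327 / 10000) (s0 := 257 / 500) (c0 := 4289 / 5000) (θ0 := 27 / 50)
      (t0 := 4523 / 5000) (y1 := 4013 / 10000) (w1 := 3131 / 10000) (T1 := 809 / 2500) hx hR hR' hI hθ0 hθ' e1 e2 (by linarith) k20 hs hθ hc
      (by norm_num) (by norm_num) (by norm_num) (by norm_num) (by norm_num) (by norm_num)
      (by norm_num) (by norm_num)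
  rcases le_or_gt (sinh x) (104 / 125) with k21 | k21
  · exact V4_piece (S0 := 4 / 5) (S1 := 104 / 125) (C1 := 13009 / 10000) (X1 := 303 / 400) (s0 := 257 / 500) (c0 := 4289 / 5000) (θ0 := 27 / 50)
      (t0 := 4663 / 5000) (y1 := 3951 / 10000) (w1 := 186 / 625) (T1 := 1533 / 5000) hx hR hR' hI hθ0 hθ' e1 e2 (by linarith) k21 hs hθ hc
      (by norm_num) (by norm_num) (by norm_num) (by norm_num) (by norm_num) (by norm_num)
      (by norm_num) (by norm_num)
  rcases le_or_gt (sinh x) (109 / 125) with k22 | k22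
  · exact V4_piece (S0 := 104 / 125) (S1 := 109 / 125) (C1 := 3317 / 2500) (X1 := 197 / 250) (s0 := 257 / 500) (c0 := 4289 / 5000) (θ0 := 27 / 50)
      (t0 := 9699 / 10000) (y1 := 3873 / 10000) (w1 := 1399 / 5000) (T1 := 2873 / 10000) hx hR hR' hI hθ0 hθ' e1 e2 (by linarith) k22 hs hθ hc
      (by norm_num) (by norm_num) (by norm_num) (by norm_num) (by norm_num) (by norm_num)
      (by norm_num) (by norm_num)
  rcases le_or_gt (sinh x) (233 / 250) with k23 | k23
  · exact V4_piece (S0 := 109 / 125) (S1 := 233 / 250) (C1 := 1367 / 1000) (X1 := 333 / 400) (s0 := 257 / 500) (c0 := 4289 / 5000) (θ0 := 27 / 50)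
      (t0 := 2033 / 2000) (y1 := 47 / 125) (w1 := 2563 / 10000) (T1 := 131 / 500) hx hR hR' hI hθ0 hθ' e1 e2 (by linarith) k23 hs hθ hc
      (by norm_num) (by norm_num) (by norm_num) (by norm_num) (by norm_num) (by norm_num)
      (by norm_num) (by norm_num)
  rcases le_or_gt (sinh x) (129 / 125) with k24 | k24
  · exact V4_piece (S0 := 233 / 250) (S1 := 129 / 125) (C1 := 14371 / 10000) (X1 := 9039 / 10000) (s0 := 257 / 500) (c0 := 4289 / 5000) (θ0 := 27 / 50)
      (t0 := 2173 / 2000) (y1 := 447 / 1250) (w1 := 1117 / 5000) (T1 := 2271 / 10000) hx hR hR' hI hθ0 hθ' e1 e2 (by linarith) k24 hs hθ hc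
      (by norm_num) (by norm_num) (by norm_num) (by norm_num) (by norm_num) (by norm_num)
      (by norm_num) (by norm_num)
  rcases le_or_gt (sinh x) (154 / 125) with k25 | k25
  · exact V4_piece (S0 := 129 / 125) (S1 := 154 / 125) (C1 := 3967 / 2500) (X1 := 2591 / 2500) (s0 := 257 / 500) (c0 := 4289 / 5000) (θ0 := 27 / 50)
      (t0 := 1203 / 1000) (y1 := 3239 / 10000) (w1 := 7 / 40) (T1 := 221 / 1250) hx hR hR' hI hθ0 hθ' e1 e2 (by linarith) k25 hs hθ hc
      (by norm_num) (by norm_num) (by norm_num) (by norm_num) (by norm_num) (by norm_num)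
      (by norm_num) (by norm_num)
  rcases le_or_gt (sinh x) (204 / 125) with k26 | k26
  · exact V4_piece (S0 := 154 / 125) (S1 := 204 / 125) (C1 := 19141 / 10000) (X1 := 12659 / 10000) (s0 := 257 / 500) (c0 := 4289 / 5000) (θ0 := 27 / 50)
      (t0 := 7181 / 5000) (y1 := 537 / 2000) (w1 := 587 / 5000) (T1 := 1179 / 10000) hx hR hR' hI hθ0 hθ' e1 e2 (by linarith) k26 hs hθ hc
      (by norm_num) (by norm_num) (by norm_num) (by norm_num) (by norm_num) (by norm_num)
      (by norm_num) (by norm_num)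
  -- `tan R ≥ √3`
  have h1 : π / 3 ≤ R := by
    have h2 : arctan √3 = π / 3 := by
      rw [← tan_pi_div_three, arctan_tan (by linarith) (by linarith)]
    rw [← h2, ← arctan_tan (by linarith : -(π / 2) < R) hR', e1]
    apply arctan_mono
    rw [le_div_iff₀ hcos]
    have h3 : √3 ≤ 17321 / 10000 := by
      rw [sqrt_le_left (by norm_num)]
      norm_num
    have h4 : √3 * cos θ ≤ 17321 / 10000 * (4289 / 5000) :=
      mul_le_mul h3 hc hcos.le (by norm_num)
    linarith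
  have h2 : 0 < θ * I := mul_pos hθ0 hI
  have h3 : π / 3 * x ≤ R * x := mul_le_mul_of_nonneg_right h1 hx.le
  linarith

theorem V4_piece' {x θ R I S0 S1 C1 X1 s0 c0 θ0 t0 y1 w1 T1 : ℝ}
    (hx : 0 < x) (hR : 0 < R) (hR' : R < π / 2) (hI : 0 < I) (hθ : 0 < θ) (hθ' : θ < π / 2)
    (e1 : tan R = sinh x / cos θ) (e2 : tanh I = sin θ / cosh x)
    (hP : 1 ≤ 2 * (sin θ * cosh x) ^ 2)
    (h0 : S0 ≤ sinh x) (h1 : sinh x ≤ S1)
    (p : 0 < C1 ∧ 0 < X1 ∧ 0 < t0 ∧ 0 < y1 ∧ 0 < T1 ∧ 0 < θ0 ∧ 0 < s0 ∧ 0 < c0 ∧ θ0 ≤ 1)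
    (nC : 1 + S1 ^ 2 ≤ C1 ^ 2) (nX : S1 ≤ X1 + X1 ^ 3 / 6 + X1 ^ 5 / 120 + X1 ^ 7 / 5040)
    (ns : 2 * (s0 * C1) ^ 2 ≤ 1) (nθ : θ0 - θ0 ^ 3 / 6 + θ0 ^ 5 / 120 ≤ s0)
    (nc : 1 - s0 ^ 2 ≤ c0 ^ 2)
    (nt : t0 * c0 ≤ S0) (ny : y1 * C1 ≤ s0)
    (nw : w1 * X1 ≤ θ0 * (y1 + y1 ^ 3 / 3 + y1 ^ 5 / 5))
    (nT : T1 - T1 ^ 3 / 3 + T1 ^ 5 / 5 ≤ w1)
    (n : 1 ≤ t0 * T1 ∨ 3 * (1 - t0 * T1) ^ 2 < (t0 + T1) ^ 2) :
    π * x < 3 * (x * R + θ * I) := by
  obtain ⟨hC1, hX1, ht0, hy1, hT1, hθ00, hs0, hc0, hθ1⟩ := p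
  have hpi := pi_gt_three
  have hcx := cosh_pos x
  have hsx : 0 < sinh x := sinh_pos_iff.2 hx
  have hsin : 0 < sin θ := sin_pos_of_pos_of_lt_pi hθ (by linarith)
  have hcC : cosh x ≤ C1 := by
    have h2 : cosh x ^ 2 ≤ C1 ^ 2 := by
      rw [cosh_sq]
      have : sinh x ^ 2 ≤ S1 ^ 2 := pow_le_pow_left₀ hsx.le h1 2
      linarith
    exact le_of_sq_le_sq h2 hC1.le
  have hs : s0 ≤ sin θ := by
    have h2 : (s0 * C1) ^ 2 ≤ (sin θ * C1) ^ 2 := by
      have h3 : (sin θ * cosh x) ^ 2 ≤ (sin θ * C1) ^ 2 :=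
        pow_le_pow_left₀ (by positivity) (mul_le_mul_of_nonneg_left hcC hsin.le) 2
      linarith
    have h3 := le_of_sq_le_sq h2 (by positivity)
    exact le_of_mul_le_mul_right h3 hC1
  have hθ0 : θ0 ≤ θ := by
    by_contra hn
    push Not at hn
    have h2 : sin θ < sin θ0 := sin_lt_sin_of_lt_of_le_pi_div_two (by linarith) (by linarith) hn
    have h3 := V4_sin5 hθ00.le
    linarith
  have hc : cos θ ≤ c0 := by
    have h2 : cos θ ^ 2 ≤ c0 ^ 2 := by
      have h3 : s0 ^ 2 ≤ sin θ ^ 2 := pow_le_pow_left₀ hs0.le hs 2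
      have h4 := sin_sq_add_cos_sq θ
      linarith
    exact le_of_sq_le_sq h2 hc0.le
  exact V4_piece hx hR hR' hI hθ hθ' e1 e2 h0 h1 hs hθ0 hc ⟨hC1, hX1, ht0, hy1, hT1, hθ00⟩ nC nX nt
    ny nw nT n

/-- The chord inequality fails for `Im tan z ≥ 1/√2`. -/
theorem V4_pos {x θ R I : ℝ} (hx : 0 < x) (hR : 0 < R) (hR' : R < π / 2) (hI : 0 < I)
    (hθ : 0 < θ) (hθ' : θ < π / 2) (e1 : tan R = sinh x / cos θ)
    (e2 : tanh I = sin θ / cosh x) (hk : sin θ ≤ sinh x) (hP : 1 ≤ 2 * (sin θ * cosh x) ^ 2) :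
    π * x < 3 * (x * R + θ * I) := by
  have hpi := pi_pos
  have hcos : 0 < cos θ := cos_pos_of_mem_Ioo ⟨by linarith, hθ'⟩
  have hsx : 0 < sinh x := sinh_pos_iff.2 hx
  have hsin : 0 < sin θ := sin_pos_of_pos_of_lt_pi hθ (by linarith)
  have h0 : 600 / 1000 ≤ sinh x := by
    by_contra hn
    push Not at hn
    have h1 : sin θ ^ 2 ≤ sinh x ^ 2 := pow_le_pow_left₀ hsin.le hk 2
    have h2 : sinh x ^ 2 < (600 / 1000) ^ 2 := pow_lt_pow_left₀ hn hsx.le (by norm_num)
    have h3 := cosh_sq x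
    rw [mul_pow, h3] at hP
    nlinarith
  rcases le_or_gt (sinh x) (73 / 100) with k0 | k0
  · exact V4_piece' (S0 := 3 / 5) (S1 := 73 / 100) (C1 := 6191 / 5000) (X1 := 6771 / 10000) (s0 := 571 / 1000) (c0 := 821 / 1000) (θ0 := 6077 / 10000)
      (t0 := 1827 / 2500) (y1 := 4611 / 10000) (w1 := 4469 / 10000) (T1 := 4783 / 10000) hx hR hR' hI hθ hθ' e1 e2 hP (by linarith) k0
      (by norm_num) (by norm_num) (by norm_num) (by norm_num) (by norm_num) (by norm_num)
      (by norm_num) (by norm_num) (by norm_num) (by norm_num) (by norm_num)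
  rcases le_or_gt (sinh x) (83 / 100) with k1 | k1
  · exact V4_piece' (S0 := 73 / 100) (S1 := 83 / 100) (C1 := 3249 / 2500) (X1 := 189 / 250) (s0 := 68 / 125) (c0 := 8391 / 10000) (θ0 := 5751 / 10000)
      (t0 := 8699 / 10000) (y1 := 837 / 2000) (w1 := 847 / 2500) (T1 := 1761 / 5000) hx hR hR' hI hθ hθ' e1 e2 hP (by linarith) k1
      (by norm_num) (by norm_num) (by norm_num) (by norm_num) (by norm_num) (by norm_num)
      (by norm_num) (by norm_num) (by norm_num) (by norm_num) (by norm_num)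
  rcases le_or_gt (sinh x) (89 / 100) with k2 | k2
  · exact V4_piece' (S0 := 83 / 100) (S1 := 89 / 100) (C1 := 13387 / 10000) (X1 := 1603 / 2000) (s0 := 2641 / 5000) (c0 := 2123 / 2500) (θ0 := 1391 / 2500)
      (t0 := 9773 / 10000) (y1 := 789 / 2000) (w1 := 2893 / 10000) (T1 := 186 / 625) hx hR hR' hI hθ hθ' e1 e2 hP (by linarith) k2
      (by norm_num) (by norm_num) (by norm_num) (by norm_num) (by norm_num) (by norm_num)
      (by norm_num) (by norm_num) (by norm_num) (by norm_num) (by norm_num)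
  rcases le_or_gt (sinh x) (19 / 20) with k3 | k3
  · exact V4_piece' (S0 := 89 / 100) (S1 := 19 / 20) (C1 := 6897 / 5000) (X1 := 1057 / 1250) (s0 := 2563 / 5000) (c0 := 8587 / 10000) (θ0 := 2691 / 5000)
      (t0 := 2591 / 2500) (y1 := 929 / 2500) (w1 := 2483 / 10000) (T1 := 507 / 2000) hx hR hR' hI hθ hθ' e1 e2 hP (by linarith) k3
      (by norm_num) (by norm_num) (by norm_num) (by norm_num) (by norm_num) (by norm_num)
      (by norm_num) (by norm_num) (by norm_num) (by norm_num) (by norm_num)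
  rcases le_or_gt (sinh x) (1) with k4 | k4
  · exact V4_piece' (S0 := 19 / 20) (S1 := 1) (C1 := 14143 / 10000) (X1 := 4407 / 5000) (s0 := 4999 / 10000) (c0 := 8661 / 10000) (θ0 := 2617 / 5000)
      (t0 := 1371 / 1250) (y1 := 1767 / 5000) (w1 := 137 / 625) (T1 := 2227 / 10000) hx hR hR' hI hθ hθ' e1 e2 hP (by linarith) k4
      (by norm_num) (by norm_num) (by norm_num) (by norm_num) (by norm_num) (by norm_num)
      (by norm_num) (by norm_num) (by norm_num) (by norm_num) (by norm_num)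
  rcases le_or_gt (sinh x) (21 / 20) with k5 | k5
  · exact V4_piece' (S0 := 1) (S1 := 21 / 20) (C1 := 29 / 20) (X1 := 9163 / 10000) (s0 := 1219 / 2500) (c0 := 8731 / 10000) (θ0 := 5093 / 10000)
      (t0 := 11453 / 10000) (y1 := 1681 / 5000) (w1 := 1943 / 10000) (T1 := 1967 / 10000) hx hR hR' hI hθ hθ' e1 e2 hP (by linarith) k5
      (by norm_num) (by norm_num) (by norm_num) (by norm_num) (by norm_num) (by norm_num)
      (by norm_num) (by norm_num) (by norm_num) (by norm_num) (by norm_num)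
  rcases le_or_gt (sinh x) (109 / 100) with k6 | k6
  · exact V4_piece' (S0 := 21 / 20) (S1 := 109 / 100) (C1 := 14793 / 10000) (X1 := 9437 / 10000) (s0 := 239 / 500) (c0 := 549 / 625) (θ0 := 4983 / 10000)
      (t0 := 11953 / 10000) (y1 := 3231 / 10000) (w1 := 1769 / 10000) (T1 := 1787 / 10000) hx hR hR' hI hθ hθ' e1 e2 hP (by linarith) k6
      (by norm_num) (by norm_num) (by norm_num) (by norm_num) (by norm_num) (by norm_num)
      (by norm_num) (by norm_num) (by norm_num) (by norm_num) (by norm_num)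
  rcases le_or_gt (sinh x) (113 / 100) with k7 | k7
  · exact V4_piece' (S0 := 109 / 100) (S1 := 113 / 100) (C1 := 1509 / 1000) (X1 := 1213 / 1250) (s0 := 937 / 2000) (c0 := 1767 / 2000) (θ0 := 39 / 80)
      (t0 := 12337 / 10000) (y1 := 194 / 625) (w1 := 403 / 2500) (T1 := 813 / 5000) hx hR hR' hI hθ hθ' e1 e2 hP (by linarith) k7
      (by norm_num) (by norm_num) (by norm_num) (by norm_num) (by norm_num) (by norm_num)
      (by norm_num) (by norm_num) (by norm_num) (by norm_num) (by norm_num)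
  rcases le_or_gt (sinh x) (59 / 50) with k8 | k8
  · exact V4_piece' (S0 := 113 / 100) (S1 := 59 / 50) (C1 := 3867 / 2500) (X1 := 627 / 625) (s0 := 4571 / 10000) (c0 := 1779 / 2000) (θ0 := 4747 / 10000)
      (t0 := 12703 / 10000) (y1 := 591 / 2000) (w1 := 1441 / 10000) (T1 := 1451 / 10000) hx hR hR' hI hθ hθ' e1 e2 hP (by linarith) k8
      (by norm_num) (by norm_num) (by norm_num) (by norm_num) (by norm_num) (by norm_num)
      (by norm_num) (by norm_num) (by norm_num) (by norm_num) (by norm_num)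
  rcases le_or_gt (sinh x) (31 / 25) with k9 | k9
  · exact V4_piece' (S0 := 59 / 50) (S1 := 31 / 25) (C1 := 1593 / 1000) (X1 := 5207 / 5000) (s0 := 2219 / 5000) (c0 := 4481 / 5000) (θ0 := 2299 / 5000)
      (t0 := 6583 / 5000) (y1 := 557 / 2000) (w1 := 631 / 5000) (T1 := 317 / 2500) hx hR hR' hI hθ hθ' e1 e2 hP (by linarith) k9
      (by norm_num) (by norm_num) (by norm_num) (by norm_num) (by norm_num) (by norm_num)
      (by norm_num) (by norm_num) (by norm_num) (by norm_num) (by norm_num)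
  rcases le_or_gt (sinh x) (33 / 25) with k10 | k10
  · exact V4_piece' (S0 := 31 / 25) (S1 := 33 / 25) (C1 := 16561 / 10000) (X1 := 5453 / 5000) (s0 := 4269 / 10000) (c0 := 9043 / 10000) (θ0 := 441 / 1000)
      (t0 := 857 / 625) (y1 := 2577 / 10000) (w1 := 533 / 5000) (T1 := 107 / 1000) hx hR hR' hI hθ hθ' e1 e2 hP (by linarith) k10
      (by norm_num) (by norm_num) (by norm_num) (by norm_num) (by norm_num) (by norm_num)
      (by norm_num) (by norm_num) (by norm_num) (by norm_num) (by norm_num)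
  rcases le_or_gt (sinh x) (71 / 50) with k11 | k11
  · exact V4_piece' (S0 := 33 / 25) (S1 := 71 / 50) (C1 := 2171 / 1250) (X1 := 1437 / 1250) (s0 := 4071 / 10000) (c0 := 4567 / 5000) (θ0 := 262 / 625)
      (t0 := 14451 / 10000) (y1 := 2343 / 10000) (w1 := 87 / 1000) (T1 := 109 / 1250) hx hR hR' hI hθ hθ' e1 e2 hP (by linarith) k11
      (by norm_num) (by norm_num) (by norm_num) (by norm_num) (by norm_num) (by norm_num)
      (by norm_num) (by norm_num) (by norm_num) (by norm_num) (by norm_num)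
  rcases le_or_gt (sinh x) (81 / 50) with k12 | k12
  · exact V4_piece' (S0 := 71 / 50) (S1 := 81 / 50) (C1 := 9519 / 5000) (X1 := 3149 / 2500) (s0 := 1857 / 5000) (c0 := 1857 / 2000) (θ0 := 761 / 2000)
      (t0 := 15293 / 10000) (y1 := 39 / 200) (w1 := 149 / 2500) (T1 := 149 / 2500) hx hR hR' hI hθ hθ' e1 e2 hP (by linarith) k12
      (by norm_num) (by norm_num) (by norm_num) (by norm_num) (by norm_num) (by norm_num)
      (by norm_num) (by norm_num) (by norm_num) (by norm_num) (by norm_num)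
  rcases le_or_gt (sinh x) (101 / 50) with k13 | k13
  · exact V4_piece' (S0 := 81 / 50) (S1 := 101 / 50) (C1 := 1127 / 500) (X1 := 7263 / 5000) (s0 := 3137 / 10000) (c0 := 1187 / 1250) (θ0 := 319 / 1000)
      (t0 := 17059 / 10000) (y1 := 1391 / 10000) (w1 := 307 / 10000) (T1 := 307 / 10000) hx hR hR' hI hθ hθ' e1 e2 hP (by linarith) k13
      (by norm_num) (by norm_num) (by norm_num) (by norm_num) (by norm_num) (by norm_num)
      (by norm_num) (by norm_num) (by norm_num) (by norm_num) (by norm_num)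
  -- `tan R ≥ √3`
  have h1 : π / 3 ≤ R := by
    have h2 : arctan √3 = π / 3 := by
      rw [← tan_pi_div_three, arctan_tan (by linarith) (by linarith)]
    rw [← h2, ← arctan_tan (by linarith : -(π / 2) < R) hR', e1]
    apply arctan_mono
    rw [le_div_iff₀ hcos]
    have h3 : √3 ≤ 17321 / 10000 := by
      rw [sqrt_le_left (by norm_num)]
      norm_num
    have h4 : √3 * cos θ ≤ √3 * 1 := mul_le_mul_of_nonneg_left (cos_le_one θ) (sqrt_nonneg 3)
    linarith
  have h2 : 0 < θ * I := mul_pos hθ hI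
  have h3 : π / 3 * x ≤ R * x := mul_le_mul_of_nonneg_right h1 hx.le
  linarith

end Pool.Agent.AT.E
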