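import Pool.Agent.AT.E.V4
import Pool.Agent.S3.E.Crit
import Pool.Agent.S3.E.OppE
import Pool.Agent.S3.E.Rng12
import Pool.Agent.S3.E.Two

/-!
# Project AT, block E: the vertex in the coordinates `x`, `θ`

`x = xx R I`, `θ = th R I`: `tan (R + i I) = sinh (x + i θ)`.

* `Vx.chord`: the sum of the chord inequalities of the slots.
* `Vx.th_le`: `θ ≤ 27/50`; `Vx.pos_lt`: `2 (sin θ cosh x)² < 1`, i.e. `Im tan z < 1 / √2`
  (`V4_theta`, `V4_pos`).
* `Vx.R_lt`: `R < 8 π / 25` if one `ρ` is at least `1 / 2`.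
-/

namespace Pool.Agent.AT.E

open Real Pool.Agent.S3.E

variable {ι : Type*} {a R I : ℝ} {J : Finset ι} {ρ β p r : ι → ℝ}

/-- The chord inequality of a vertex. -/
theorem Vx.chord (h : Vx a R I J ρ β p r) (hρ : ∀ j ∈ J, ρ j ≤ 1) :
    a * (xx R I * R + th R I * I) ≤ π * xx R I := by
  have h1 : ∑ j ∈ J, th R I * p j ≤ ∑ j ∈ J, xx R I * r j :=
    Finset.sum_le_sum fun j hj => (h.sl j hj).chord h.R0 h.R1 h.I0 (hρ j hj)
  rw [← Finset.mul_sum, ← Finset.mul_sum] at h1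
  have e1 := h.hR
  have e2 := h.hI
  calc a * (xx R I * R + th R I * I) = xx R I * (a * R) + th R I * (a * I) := by ring
    _ = xx R I * (π - ∑ j ∈ J, r j) + th R I * ∑ j ∈ J, p j := by
        rw [e2, show a * R = π - ∑ j ∈ J, r j by linarith]
    _ ≤ π * xx R I := by linarith

/-- `sin θ ≤ sinh x` if `|κ| ≤ 1`. -/
theorem sin_th_le {R I : ℝ} (h : 0 < R) (h' : R < π / 2) (hI : 0 < I) (hk : k2 R I ≤ 1) :
    sin (th R I) ≤ sinh (xx R I) := by
  have e1 := cosh_two_xx h h' hI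
  have e2 := cos_two_th h h' hI
  have hx := xx_pos h h' hI
  have hk0 := k2_pos (I := I) h h'
  have h1 : cosh (2 * xx R I) + cos (2 * th R I) = 2 / k2 R I := by
    rw [e1, e2, ← add_div]
    congr 1
    ring
  have h2 : 2 ≤ 2 / k2 R I := by
    rw [le_div_iff₀ hk0]
    linarith
  have h3 := Real.cosh_two_mul (xx R I)
  have h4 := Real.cos_two_mul (th R I)
  have h5 := Real.cosh_sq (xx R I)
  have h6 := sin_sq_add_cos_sq (th R I)
  refine le_of_sq_le_sq ?_ (sinh_nonneg_iff.2 hx.le)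
  linarith

/-- The chord inequality with `a ≥ 3`. -/
theorem Vx.chord3 (h : Vx a R I J ρ β p r) (hρ : ∀ j ∈ J, ρ j ≤ 1) :
    3 * (xx R I * R + th R I * I) ≤ π * xx R I := by
  have h1 := h.chord hρ
  have h2 : 0 ≤ xx R I * R + th R I * I := by
    have := xx_pos h.R0 h.R1 h.I0
    have := th_pos h.R0 h.R1 h.I0
    have := h.R0
    have := h.I0
    positivity
  have h3 := mul_le_mul_of_nonneg_right h.a3 h2
  linarith

theorem Vx.th_le (h : Vx a R I J ρ β p r) (hk : k2 R I ≤ 1) (hρ : ∀ j ∈ J, ρ j ≤ 1) :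
    th R I ≤ 27 / 50 := by
  by_contra hn
  push Not at hn
  have h1 := V4_theta (xx_pos h.R0 h.R1 h.I0) h.R0 h.R1 h.I0 hn.le (th_lt h.R0 h.R1 h.I0)
    (tan_R_eq h.R0 h.R1 h.I0) (tanh_I_eq h.R0 h.R1 h.I0) (sin_th_le h.R0 h.R1 h.I0 hk)
  have := h.chord3 hρ
  linarith

theorem Vx.pos_lt (h : Vx a R I J ρ β p r) (hk : k2 R I ≤ 1) (hρ : ∀ j ∈ J, ρ j ≤ 1) :
    2 * (sin (th R I) * cosh (xx R I)) ^ 2 < 1 := by
  by_contra hn
  push Not at hn
  have h1 := V4_pos (xx_pos h.R0 h.R1 h.I0) h.R0 h.R1 h.I0 (th_pos h.R0 h.R1 h.I0)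
    (th_lt h.R0 h.R1 h.I0)
    (tan_R_eq h.R0 h.R1 h.I0) (tanh_I_eq h.R0 h.R1 h.I0) (sin_th_le h.R0 h.R1 h.I0 hk) hn
  have := h.chord3 hρ
  linarith

theorem V5_sq {R I ρ β p r : ℝ} (hs : Slot R I ρ β p r) :
    sinh p ^ 2 + sin r ^ 2 = (ρ * tt R I) ^ 2 := by
  have e1 := hs.e1
  have e2 := hs.e2
  have h1 : (sinh p * cos r) ^ 2 + (cosh p * sin r) ^ 2 = (ρ * tt R I) ^ 2 := by
    rw [e1, e2]
    have := sin_sq_add_cos_sq (al R I + β)
    linear_combination (ρ * tt R I) ^ 2 * this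
  have h2 := cosh_sq p
  have h3 := sin_sq_add_cos_sq r
  have h4 : (sinh p * cos r) ^ 2 + (cosh p * sin r) ^ 2 = sinh p ^ 2 + sin r ^ 2 := by
    linear_combination sin r ^ 2 * h2 + sinh p ^ 2 * h3
  rw [← h4, h1]

/-- `sinh 0.465 < 0.483`. -/
private theorem V5_sinh : sinh (93 / 200) ≤ 483 / 1000 := by
  have h1 : exp (93 / 200 : ℝ) ≤ 1593 / 1000 := by
    refine (Real.exp_bound' (x := 93 / 200) (by norm_num) (by norm_num) (n := 4)
      (by norm_num)).trans ?_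
    simp only [Finset.sum_range_succ, Finset.sum_range_zero, Nat.factorial]
    norm_num
  have h2 : exp (93 / 200 : ℝ) * exp (-(93 / 200 : ℝ)) = 1 := by
    rw [← Real.exp_add]
    simp
  have h3 := Real.exp_pos (93 / 200 : ℝ)
  have h4 : 1000 / 1593 ≤ exp (-(93 / 200 : ℝ)) := by
    rw [div_le_iff₀ (by norm_num)]
    nlinarith [Real.exp_pos (-(93 / 200 : ℝ))]
  rw [Real.sinh_eq]
  linarith

theorem V5_r_pos {R I ρ β p r : ℝ} (hs : Slot R I ρ β p r) (h0 : 0 < R) (h1 : R < π / 2)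
    (hI : 0 < I) (hρ : 0 < ρ) : 0 < r := by
  have ht := tt_pos (I := I) h0 h1
  have ha := al_pos h0 h1 hI
  have hsin : 0 < sin (al R I + β) :=
    sin_pos_of_pos_of_lt_pi (by linarith [hs.β0]) (by linarith [hs.g1, pi_pos])
  have e2 := hs.e2
  rcases hs.r0.eq_or_lt with h0 | h0
  · rw [← h0, sin_zero, mul_zero] at e2
    have : 0 < ρ * tt R I * sin (al R I + β) := by positivity
    linarith
  · exact h0

theorem Vx.aR_lt (h : Vx a R I J ρ β p r) {j : ι} (hj : j ∈ J) (hρ : 0 < ρ j) : a * R < π := by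
  have h1 := V5_r_pos (h.sl j hj) h.R0 h.R1 h.I0 hρ
  have h2 : r j ≤ ∑ j ∈ J, r j := Finset.single_le_sum (f := r) (fun i hi => (h.sl i hi).r0) hj
  linarith [h.hR]

theorem Vx.R_lt (h : Vx a R I J ρ β p r) {j : ι} (hj : j ∈ J) (hρ : 1 / 2 ≤ ρ j) :
    R < 8 / 25 * π := by
  by_contra hc
  rw [not_lt] at hc
  have h0 := h.R0
  have h1 := h.R1
  have hI := h.I0
  have hs := h.sl j hj
  have hpi := Real.pi_pos
  have hpi2 := Real.pi_lt_d4
  have haR := h.aR_lt hj (by linarith)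
  have e1 : 3 * R ≤ a * R := mul_le_mul_of_nonneg_right h.a3 h0.le
  -- `tt² ≥ 1`
  have hg : gg R ≤ 0 := by
    unfold gg
    exact cos_nonpos_of_pi_div_two_le_of_le (by linarith) (by linarith)
  have hk := k2_pos (I := I) h0 h1
  have ht : 1 ≤ tt R I ^ 2 := by
    rw [tt_sq h0 h1, le_div_iff₀ hk, one_mul]
    unfold k2 s2
    linarith
  have hm : 1 / 4 ≤ (ρ j * tt R I) ^ 2 := by
    have h2 : 1 / 4 ≤ ρ j ^ 2 := by nlinarith
    rw [mul_pow]
    nlinarith [sq_nonneg (ρ j)]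
  have hsq := V5_sq hs
  -- `r₁ ≤ π / 25`
  have hr : r j ≤ π / 25 := by
    have h2 := h.hR
    have h3 : r j ≤ ∑ j ∈ J, r j :=
      Finset.single_le_sum (f := r) (fun i hi => (h.sl i hi).r0) hj
    linarith
  have hr0 := hs.r0
  have hr2 : r j ≤ 12567 / 100000 := by linarith
  have hsr : sin (r j) ≤ r j := sin_le hr0
  have hsr0 : 0 ≤ sin (r j) := sin_nonneg_of_nonneg_of_le_pi hr0 (by linarith)
  have hsr2 : sin (r j) ^ 2 ≤ 158 / 10000 := by nlinarith
  have hsp : 2342 / 10000 ≤ sinh (p j) ^ 2 := by linarith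
  have hp0 := hs.p0
  have hsp0 : 0 ≤ sinh (p j) := sinh_nonneg_iff.2 hp0
  have hsp1 : 4839 / 10000 ≤ sinh (p j) := by
    by_contra h2
    push Not at h2
    nlinarith
  have hp : 93 / 200 ≤ p j := by
    by_contra h2
    push Not at h2
    have h3 := Real.sinh_le_sinh.2 h2.le
    have h4 := V5_sinh
    linarith
  -- `I ≥ p₁ / a`
  have ha2 : a ≤ 25 / 8 := by
    by_contra h2
    push Not at h2
    have h3 : 25 / 8 * (8 / 25 * π) ≤ a * R :=
      mul_le_mul h2.le hc (by positivity) (by linarith)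
    linarith
  have hI2 : 1488 / 10000 ≤ I := by
    have h2 := h.hI
    have h3 : p j ≤ ∑ j ∈ J, p j :=
      Finset.single_le_sum (f := p) (fun i hi => (h.sl i hi).p0) hj
    have h4 : a * I ≤ 25 / 8 * I := mul_le_mul_of_nonneg_right ha2 hI.le
    linarith
  -- `tan α ≥ sinh 2I`
  have hT : 2976 / 10000 ≤ tan (al R I) := by
    rw [tan_al]
    have h2 := sin_two_pos h0 h1
    rw [le_div_iff₀ h2]
    have h3 := sin_le_one (2 * R)
    have h4 : 2 * I ≤ sinh (2 * I) := self_le_sinh_iff.2 (by linarith)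
    nlinarith
  have htp : 435 / 1000 ≤ tanh (p j) := by
    rw [tanh_eq_sinh_div_cosh, le_div_iff₀ (cosh_pos _)]
    have h2 := cosh_sq (p j)
    by_contra h3
    push Not at h3
    have h4 := cosh_pos (p j)
    nlinarith
  have hy : 1294 / 10000 ≤ tan (al R I) * tanh (p j) := by nlinarith
  have har := hs.arctan_le h0 h1 hI
  have hcos : 0 < cos (r j) := cos_pos_of_mem_Ioo ⟨by linarith, by linarith [Real.pi_gt_three]⟩
  have h5 : tan (al R I) * tanh (p j) ≤ tan (r j) := by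
    have h6 : arctan (tan (al R I) * tanh (p j)) ≤ arctan (tan (r j)) := by
      rw [arctan_tan (by linarith) (by linarith [Real.pi_gt_three])]
      exact har
    exact arctan_strictMono.le_iff_le.1 h6
  have h7 : tan (r j) ≤ 1267 / 10000 := by
    rw [tan_eq_sin_div_cos, div_le_iff₀ hcos]
    have h8 := one_sub_sq_div_two_le_cos (x := r j)
    nlinarith
  linarith

end Pool.Agent.AT.E
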