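import Pool.Agent.AT.E.V5
import Pool.Agent.S3.E.Rng6

/-!
# Project AT, block E: `θ ≥ 7/25` at a vertex with `a = 3`

With one slot this is `S3.E.Vx.end3_low`. With two or three slots (`ρ ≥ 1/2`, `β ≤ 9/20`), suppose
`θ < 7/25`. If `sinh x ≤ 0.43`, the `r_j` are too small. If `sinh x ≥ 1`, the `p_j` are too large.
Otherwise `r_j ≤ tan (al + 9/20) p_j` gives `π ≤ 3 (R + tan (al + 9/20) I)`, which fails
(`V6_piece`, four intervals for `sinh x`).
-/

namespace Pool.Agent.AT.E

open Real Pool.Agent.S3.E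

variable {ι : Type*} {a R I : ℝ} {J : Finset ι} {ρ β p r : ι → ℝ}

/-- `v ≤ tanh v + tanh³ v / (3 (1 - tanh² v))`. -/
theorem V6_artanh {v : ℝ} (hv : 0 ≤ v) :
    v ≤ sinh v / cosh v + sinh v ^ 3 / (3 * cosh v) := by
  have hd : ∀ v : ℝ, HasDerivAt (fun u : ℝ => sinh u / cosh u + sinh u ^ 3 / (3 * cosh u) - u)
      (2 * sinh v ^ 4 / (3 * cosh v ^ 2)) v := by
    intro v
    have hc : cosh v ≠ 0 := (cosh_pos v).ne'
    have hc3 : 3 * cosh v ≠ 0 := mul_ne_zero (by norm_num) hc
    have h0 := (((Real.hasDerivAt_sinh v).div (Real.hasDerivAt_cosh v) hc).add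
      (((Real.hasDerivAt_sinh v).pow 3).div ((Real.hasDerivAt_cosh v).const_mul 3) hc3)).sub
      (hasDerivAt_id' v)
    refine h0.congr_deriv ?_
    have h1 := cosh_sq v
    simp only [Pi.pow_apply]
    field_simp
    ring_nf
    have h2 : cosh v ^ 4 = (sinh v ^ 2 + 1) ^ 2 := by
      rw [← h1]
      ring
    try rw [h2]
    try rw [h1]
    try ring
  have hm : MonotoneOn (fun u : ℝ => sinh u / cosh u + sinh u ^ 3 / (3 * cosh u) - u)
      (Set.Ici 0) := by
    apply monotoneOn_of_deriv_nonneg (convex_Ici 0)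
    · exact fun y _ => (hd y).continuousAt.continuousWithinAt
    · exact fun y _ => (hd y).differentiableAt.differentiableWithinAt
    · intro y _
      rw [(hd y).deriv]
      positivity
  have := hm (Set.mem_Ici.2 le_rfl) (Set.mem_Ici.2 hv) hv
  simp only [sinh_zero, zero_div, cosh_zero] at this
  norm_num at this
  linarith

theorem V6_artanh_le {I y K : ℝ} (hI : 0 < I) (hy : 0 < y) (hy1 : y < 1) (h : tanh I ≤ y)
    (hK : y ^ 3 ≤ 3 * (1 - y ^ 2) * (K - y)) : I ≤ K := by
  have h1 := V6_artanh hI.le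
  have hc := cosh_pos I
  have hs : 0 < sinh I := sinh_pos_iff.2 hI
  have hT : 0 < tanh I := by
    rw [tanh_eq_sinh_div_cosh]
    positivity
  have hyy : 0 < 1 - y ^ 2 := by nlinarith
  have h2 : sinh I ^ 3 / (3 * cosh I) ≤ y ^ 3 / (3 * (1 - y ^ 2)) := by
    have e : sinh I = tanh I * cosh I := by
      rw [tanh_eq_sinh_div_cosh]
      field_simp
    have e3 : cosh I ^ 2 * (1 - tanh I ^ 2) = 1 := by
      rw [tanh_eq_sinh_div_cosh]
      have := cosh_sq I
      field_simp
      linarith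
    have h3 : tanh I ^ 2 ≤ y ^ 2 := pow_le_pow_left₀ hT.le h 2
    have h4 : cosh I ^ 2 ≤ 1 / (1 - y ^ 2) := by
      rw [le_div_iff₀ hyy]
      have : cosh I ^ 2 * (1 - y ^ 2) ≤ cosh I ^ 2 * (1 - tanh I ^ 2) :=
        mul_le_mul_of_nonneg_left (by linarith) (by positivity)
      linarith
    have h5 : sinh I ^ 3 / (3 * cosh I) = tanh I ^ 3 * cosh I ^ 2 / 3 := by
      rw [e]
      field_simp
    rw [h5]
    have h6 : tanh I ^ 3 ≤ y ^ 3 := pow_le_pow_left₀ hT.le h 3
    calc tanh I ^ 3 * cosh I ^ 2 / 3 ≤ y ^ 3 * (1 / (1 - y ^ 2)) / 3 := by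
          have := mul_le_mul h6 h4 (by positivity) (by positivity)
          linarith
      _ = y ^ 3 / (3 * (1 - y ^ 2)) := by field_simp
  have h7 : y ^ 3 / (3 * (1 - y ^ 2)) ≤ K - y := by
    rw [div_le_iff₀ (by linarith)]
    linarith
  rw [← tanh_eq_sinh_div_cosh] at h1
  linarith

theorem V6_arctan {w : ℝ} (hw : 0 ≤ w) : w - w ^ 3 / 3 ≤ arctan w := by
  have hd : ∀ w : ℝ, HasDerivAt (fun u : ℝ => arctan u - (u - u ^ 3 / 3))
      (w ^ 4 / (1 + w ^ 2)) w := by
    intro w
    have h1 := (Real.hasDerivAt_arctan w).sub ((hasDerivAt_id' w).sub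
      ((hasDerivAt_pow 3 w).div_const 3))
    refine h1.congr_deriv ?_
    have : (1 : ℝ) + w ^ 2 ≠ 0 := by positivity
    field_simp
    ring
  have hm : MonotoneOn (fun u : ℝ => arctan u - (u - u ^ 3 / 3)) (Set.Ici 0) := by
    apply monotoneOn_of_deriv_nonneg (convex_Ici 0)
    · exact fun y _ => (hd y).continuousAt.continuousWithinAt
    · exact fun y _ => (hd y).differentiableAt.differentiableWithinAt
    · intro y _
      rw [(hd y).deriv]
      positivity
  have := hm (Set.mem_Ici.2 le_rfl) (Set.mem_Ici.2 hw) hw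
  simp only [arctan_zero] at this
  norm_num at this
  linarith

theorem V6_arctan' {w : ℝ} (hw : w ≤ 0) : w ≤ arctan w := by
  have h1 : arctan (-w) ≤ -w := by
    have h2 := le_tan (x := arctan (-w)) (arctan_nonneg.2 (by linarith)) (arctan_lt_pi_div_two _)
    rwa [tan_arctan] at h2
  rw [arctan_neg] at h1
  linarith

/-- `tan (9 / 20) ≤ 0.4833`. -/
theorem V6_tan : tan (9 / 20) ≤ 4833 / 10000 := by
  have h1 := V4_sin5 (x := 9 / 20) (by norm_num)
  have h2 := sin_sq_add_cos_sq (9 / 20 : ℝ)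
  have h3 : 0 < cos (9 / 20) := cos_pos_of_mem_Ioo ⟨by linarith [pi_gt_three], by
    linarith [pi_gt_three]⟩
  have h4 : 0 < sin (9 / 20) := sin_pos_of_pos_of_lt_pi (by norm_num) (by linarith [pi_gt_three])
  have h5 : sin (9 / 20) ≤ 43497 / 100000 := by
    norm_num at h1 ⊢
    linarith
  rw [tan_eq_sin_div_cos, div_le_iff₀ h3]
  have h6 : sin (9 / 20) ^ 2 ≤ (43497 / 100000) ^ 2 := pow_le_pow_left₀ h4.le h5 2
  have h7 : (90044 / 100000 : ℝ) ≤ cos (9 / 20) := by
    refine le_of_sq_le_sq ?_ h3.le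
    norm_num at h6 ⊢
    linarith
  linarith

theorem V6_tan_r {R I ρ β p r : ℝ} (hs : Slot R I ρ β p r) (h0 : 0 < R) (h1 : R < π / 2)
    (hρ : 0 < ρ) (hb : al R I + β < π / 2) (hal : 0 < al R I) :
    r < π / 2 ∧ tan r = tan (al R I + β) * tanh p := by
  have ht := tt_pos (I := I) h0 h1
  have hc : 0 < cos (al R I + β) := cos_pos_of_mem_Ioo ⟨by linarith [hs.β0], hb⟩
  have e1 := hs.e1
  have e2 := hs.e2
  have hpos : 0 < sinh p * cos r := by
    rw [e1]
    positivity
  have hcr : cos r ≠ 0 := by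
    intro h
    rw [h, mul_zero] at hpos
    exact lt_irrefl _ hpos
  have hr : r < π / 2 := by
    rcases hs.r1.eq_or_lt with h | h
    · exact absurd (by rw [h, cos_pi_div_two]) hcr
    · exact h
  refine ⟨hr, ?_⟩
  rw [tan_eq_sin_div_cos, tan_eq_sin_div_cos, tanh_eq_sinh_div_cosh]
  have hch := cosh_pos p
  field_simp
  have h3 : (cosh p * sin r) * (ρ * tt R I * cos (al R I + β)) =
      (sinh p * cos r) * (ρ * tt R I * sin (al R I + β)) := by
    rw [e1, e2]
    ring
  have h4 : ρ * tt R I ≠ 0 := by positivity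
  apply mul_left_cancel₀ h4
  linarith

/-- `r ≤ t p`. -/
theorem V6_r_le {R I ρ β p r t : ℝ} (hs : Slot R I ρ β p r) (h0 : 0 < R) (h1 : R < π / 2)
    (hρ : 0 < ρ) (hβ : β ≤ 9 / 20) (hal : 0 < al R I) (hal2 : al R I + 9 / 20 < π / 2)
    (ht : tan (al R I + 9 / 20) ≤ t) : r ≤ t * p := by
  obtain ⟨hr, e⟩ := V6_tan_r hs h0 h1 hρ (by linarith) hal
  have hr0 := hs.r0
  have hp0 := hs.p0
  have h2 : r ≤ tan r := by
    rcases hr0.eq_or_lt with h | h
    · rw [← h, tan_zero]
    · exact (lt_tan h hr).le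
  have h3 : tanh p ≤ p := by
    rw [tanh_eq_sinh_div_cosh, div_le_iff₀ (cosh_pos p)]
    have hd : ∀ v : ℝ, HasDerivAt (fun u : ℝ => u * cosh u - sinh u) (v * sinh v) v := by
      intro v
      have h1 := ((hasDerivAt_id' v).mul (Real.hasDerivAt_cosh v)).sub (Real.hasDerivAt_sinh v)
      refine h1.congr_deriv ?_
      ring
    have hm : MonotoneOn (fun u : ℝ => u * cosh u - sinh u) (Set.Ici 0) := by
      apply monotoneOn_of_deriv_nonneg (convex_Ici 0)
      · exact fun y _ => (hd y).continuousAt.continuousWithinAt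
      · exact fun y _ => (hd y).differentiableAt.differentiableWithinAt
      · intro y hy
        rw [(hd y).deriv]
        have : 0 ≤ y := interior_subset hy
        exact mul_nonneg this (sinh_nonneg_iff.2 this)
    have := hm (Set.mem_Ici.2 le_rfl) (Set.mem_Ici.2 hp0) hp0
    simp at this
    linarith
  have h4 : tan (al R I + β) ≤ t := by
    refine le_trans ?_ ht
    rcases hβ.eq_or_lt with h | h
    · rw [h]
    · exact (tan_lt_tan_of_lt_of_lt_pi_div_two (by linarith [hs.β0]) hal2 (by linarith)).le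
  have h5 : 0 ≤ tan (al R I + β) :=
    tan_nonneg_of_nonneg_of_le_pi_div_two (by linarith [hs.β0]) (by linarith)
  have h6 : 0 ≤ tanh p := V1_tanh_nonneg hp0
  calc r ≤ tan (al R I + β) * tanh p := by rw [← e]; exact h2
    _ ≤ t * p := mul_le_mul h4 h3 h6 (by linarith)

/-- One interval for `sinh x`. -/
theorem V6_piece {x θ α R I S0 S1 C0 y K A t w at' : ℝ}
    (hR' : R < π / 2) (hI : 0 < I) (hα : 0 < α) (hα' : α < π / 2)
    (e1 : tan R = sinh x / cos θ) (e2 : tanh I = sin θ / cosh x)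
    (e3 : tan α * sinh x = tan θ * cosh x)
    (hsin : sin θ ≤ 2767 / 10000) (hcos : 961 / 1000 ≤ cos θ) (htan : tan θ ≤ 288 / 1000)
    (hR : 0 < R)
    (h0 : S0 ≤ sinh x) (h1 : sinh x ≤ S1)
    (p : 0 < S0 ∧ 0 < C0 ∧ 0 < y ∧ 0 < A ∧ 0 < K ∧ 0 < t)
    (nC : C0 ^ 2 ≤ 1 + S0 ^ 2) (ny : 2767 / 10000 ≤ y * C0) (ny1 : y < 1)
    (nK : y ^ 3 ≤ 3 * (1 - y ^ 2) * (K - y))
    (nA : (288 / 1000) ^ 2 * (1 + S0 ^ 2) ≤ A ^ 2 * S0 ^ 2)
    (nAB : A * (4833 / 10000) < 1) (nt : A + 4833 / 10000 ≤ t * (1 - A * (4833 / 10000)))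
    (nw : w * (961 / 1000 + S1) ≤ 961 / 1000 - S1) (nat : at' ≤ arctan w)
    (n : t * K < 26179 / 100000 + at') :
    α + 9 / 20 < π / 2 ∧ tan (α + 9 / 20) ≤ t ∧ R + t * I < π / 3 := by
  obtain ⟨hS0, hC0, hy, hA, hK, ht⟩ := p
  have hpi := pi_pos
  have hpi4 := pi_gt_d4
  have hsx : 0 < sinh x := by linarith
  have hcx := cosh_pos x
  have hcosθ : 0 < cos θ := by linarith
  -- `tan α ≤ A`
  have hA1 : tan α ≤ A := by
    have hsq : (288 / 1000 * cosh x) ^ 2 ≤ (A * sinh x) ^ 2 := by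
      rw [mul_pow, mul_pow, cosh_sq]
      have h2 : S0 ^ 2 ≤ sinh x ^ 2 := pow_le_pow_left₀ hS0.le h0 2
      have h3 : (288 / 1000) ^ 2 ≤ A ^ 2 := by
        by_contra hn
        push Not at hn
        have h4 : A ^ 2 * S0 ^ 2 ≤ (288 / 1000) ^ 2 * S0 ^ 2 :=
          mul_le_mul_of_nonneg_right hn.le (sq_nonneg _)
        linarith
      have h4 : (A ^ 2 - (288 / 1000) ^ 2) * S0 ^ 2 ≤ (A ^ 2 - (288 / 1000) ^ 2) * sinh x ^ 2 :=
        mul_le_mul_of_nonneg_left h2 (by linarith)
      linarith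
    have h2 : 288 / 1000 * cosh x ≤ A * sinh x :=
      le_of_sq_le_sq hsq (by positivity)
    have h3 : tan α * sinh x ≤ A * sinh x := by
      rw [e3]
      have : tan θ * cosh x ≤ 288 / 1000 * cosh x := mul_le_mul_of_nonneg_right htan hcx.le
      linarith
    exact le_of_mul_le_mul_right h3 hsx
  have hα1 : α ≤ arctan A := by
    rw [← arctan_tan (by linarith) hα']
    exact arctan_mono hA1
  have hβ1 : (9 / 20 : ℝ) ≤ arctan (4833 / 10000) := by
    rw [← arctan_tan (x := 9 / 20) (by linarith) (by linarith)]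
    exact arctan_mono V6_tan
  have hsum : arctan A + arctan (4833 / 10000) = arctan ((A + 4833 / 10000) /
      (1 - A * (4833 / 10000))) := arctan_add nAB
  have h4 : α + 9 / 20 ≤ arctan t := by
    refine (add_le_add hα1 hβ1).trans ?_
    rw [hsum]
    apply arctan_mono
    rw [div_le_iff₀ (by linarith)]
    linarith
  have h5 : α + 9 / 20 < π / 2 := h4.trans_lt (arctan_lt_pi_div_two t)
  have h6 : tan (α + 9 / 20) ≤ t := by
    rcases h4.eq_or_lt with h | h
    · rw [h, tan_arctan]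
    · have h7 := tan_lt_tan_of_lt_of_lt_pi_div_two (x := α + 9 / 20) (by linarith)
        (arctan_lt_pi_div_two t) h
      rw [tan_arctan] at h7
      exact h7.le
  -- `I ≤ K`
  have hcC : C0 ≤ cosh x := by
    refine le_of_sq_le_sq ?_ hcx.le
    rw [cosh_sq]
    have h2 : S0 ^ 2 ≤ sinh x ^ 2 := pow_le_pow_left₀ hS0.le h0 2
    linarith
  have hIy : tanh I ≤ y := by
    rw [e2, div_le_iff₀ hcx]
    have : y * C0 ≤ y * cosh x := mul_le_mul_of_nonneg_left hcC hy.le
    linarith
  have hIK := V6_artanh_le hI hy ny1 hIy nK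
  -- `R ≤ π / 4 - at'`
  have hRt : tan R ≤ S1 / (961 / 1000) := by
    rw [e1]
    apply div_le_div₀ (by linarith) h1 (by norm_num) hcos
  have hRR : R ≤ π / 4 - at' := by
    have h7 : arctan w ≤ arctan 1 - R := by
      rw [← arctan_tan (x := R) (by linarith) hR']
      have h8 : 0 < tan R := tan_pos_of_pos_of_lt_pi_div_two hR hR'
      have h9 : arctan 1 - arctan (tan R) = arctan ((1 - tan R) / (1 + tan R)) := by
        have h10 : arctan ((1 - tan R) / (1 + tan R)) + arctan (tan R) = arctan 1 := by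
          have h11 : (1 - tan R) / (1 + tan R) * tan R < 1 := by
            rw [div_mul_eq_mul_div, div_lt_one (by linarith)]
            nlinarith [sq_nonneg (tan R)]
          rw [arctan_add h11]
          congr 1
          have h12 : (1 : ℝ) + tan R ≠ 0 := by linarith
          have h13 : 1 - (1 - tan R) / (1 + tan R) * tan R ≠ 0 := by linarith
          rw [div_eq_iff h13]
          field_simp
          ring
        linarith
      rw [h9]
      apply arctan_mono
      have h10 : 0 < 961 / 1000 + S1 := by linarith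
      have h11 : w ≤ (961 / 1000 - S1) / (961 / 1000 + S1) := by
        rw [le_div_iff₀ h10]
        exact nw
      refine h11.trans ?_
      rw [div_le_div_iff₀ h10 (by linarith)]
      rw [le_div_iff₀ (by norm_num)] at hRt
      linarith
    rw [arctan_one] at h7
    linarith
  refine ⟨h5, h6, ?_⟩
  have h7 : t * I ≤ t * K := mul_le_mul_of_nonneg_left hIK ht.le
  linarith

/-- The intermediate values of `sinh x`. -/
theorem V6_mid {x θ α R I : ℝ}
    (hR' : R < π / 2) (hI : 0 < I) (hα : 0 < α) (hα' : α < π / 2)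
    (e1 : tan R = sinh x / cos θ) (e2 : tanh I = sin θ / cosh x)
    (e3 : tan α * sinh x = tan θ * cosh x)
    (hsin : sin θ ≤ 2767 / 10000) (hcos : 961 / 1000 ≤ cos θ) (htan : tan θ ≤ 288 / 1000)
    (hR : 0 < R) (h0 : 43 / 100 ≤ sinh x) (h1 : sinh x ≤ 1) :
    ∃ t, α + 9 / 20 < π / 2 ∧ tan (α + 9 / 20) ≤ t ∧ R + t * I < π / 3 := by
  rcases le_or_gt (sinh x) (301 / 500) with h | h
  · exact ⟨18721 / 10000, V6_piece (S0 := 43 / 100) (S1 := 301 / 500) (C0 := 2177 / 2000) (y := 2543 / 10000) (K := 1301 / 5000) (A := 7291 / 10000)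
      (w := 287 / 1250) (at' := 287 / 1250 - (287 / 1250) ^ 3 / 3) hR' hI hα hα' e1 e2 e3 hsin hcos htan hR (by linarith) (by linarith)
      (by norm_num) (by norm_num) (by norm_num) (by norm_num) (by norm_num) (by norm_num)
      (by norm_num) (by norm_num) (by norm_num) (V6_arctan (w := 287 / 1250) (by norm_num)) (by norm_num)⟩
  have h0 := h
  clear h
  rcases le_or_gt (sinh x) (801 / 1000) with h | h
  · exact ⟨1427 / 1000, V6_piece (S0 := 301 / 500) (S1 := 801 / 1000) (C0 := 1459 / 1250) (y := 2371 / 10000) (K := 2419 / 10000) (A := 1117 / 2000)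
      (w := 227 / 2500) (at' := 227 / 2500 - (227 / 2500) ^ 3 / 3) hR' hI hα hα' e1 e2 e3 hsin hcos htan hR (by linarith) (by linarith)
      (by norm_num) (by norm_num) (by norm_num) (by norm_num) (by norm_num) (by norm_num)
      (by norm_num) (by norm_num) (by norm_num) (V6_arctan (w := 227 / 2500) (by norm_num)) (by norm_num)⟩
  have h0 := h
  clear h
  rcases le_or_gt (sinh x) (951 / 1000) with h | h
  · exact ⟨759 / 625, V6_piece (S0 := 801 / 1000) (S1 := 951 / 1000) (C0 := 3203 / 2500) (y := 27 / 125) (K := 549 / 2500) (A := 4607 / 10000)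
      (w := 13 / 2500) (at' := 13 / 2500 - (13 / 2500) ^ 3 / 3) hR' hI hα hα' e1 e2 e3 hsin hcos htan hR (by linarith) (by linarith)
      (by norm_num) (by norm_num) (by norm_num) (by norm_num) (by norm_num) (by norm_num)
      (by norm_num) (by norm_num) (by norm_num) (V6_arctan (w := 13 / 2500) (by norm_num)) (by norm_num)⟩
  have h0 := h
  clear h
  exact ⟨2259 / 2000, V6_piece (S0 := 951 / 1000) (S1 := 128 / 125) (C0 := 69 / 50) (y := 1003 / 5000) (K := 407 / 2000) (A := 209 / 500)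
      (w := -(159 / 5000)) (at' := -(159 / 5000)) hR' hI hα hα' e1 e2 e3 hsin hcos htan hR (by linarith) (by linarith)
      (by norm_num) (by norm_num) (by norm_num) (by norm_num) (by norm_num) (by norm_num)
      (by norm_num) (by norm_num) (by norm_num) (V6_arctan' (w := -(159 / 5000)) (by norm_num)) (by norm_num)⟩

end Pool.Agent.AT.E
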