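import Pool.Agent.AT.E.V6
import Pool.Agent.S3.E.Rng

/-!
# Project AT, block E: `θ ≥ 7/25` at a vertex with `a = 3` (end of the proof)
-/

namespace Pool.Agent.AT.E

open Real Pool.Agent.S3.E

variable {ι : Type*} {a R I : ℝ} {J : Finset ι} {ρ β p r : ι → ℝ}

/-- One slot. -/
theorem Vx.low3_one (h : Vx 3 R I J ρ β p r) (hc : J.card = 1)
    (hρ : ∀ j ∈ J, 53 / 100 ≤ ρ j) (hβ : ∀ j ∈ J, β j ≤ 9 / 20)
    (hβ' : ∀ j ∈ J, β j ≤ 1 / 3 ∨ 21 / 50 ≤ ρ j ^ 2) : 7 / 25 ≤ th R I := by
  obtain ⟨j, hj⟩ := Finset.card_eq_one.1 hc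
  subst hj
  have hR := h.hR
  have hI := h.hI
  rw [Finset.sum_singleton] at hR hI
  have hm : j ∈ ({j} : Finset ι) := Finset.mem_singleton_self j
  have hs : Slot R I 0 0 0 0 :=
    { p0 := le_rfl
      r0 := le_rfl
      r1 := by linarith [pi_pos]
      ρ0 := le_rfl
      β0 := le_rfl
      g1 := by linarith [al_lt R I]
      e1 := by simp
      e2 := by simp }
  have hv : Pool.Agent.S3.E.Vx 3 R I (ρ j) (β j) (p j) (r j) 0 0 0 0 :=
    { a2 := by norm_num
      R0 := h.R0
      R1 := h.R1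
      I0 := h.I0
      sl₁ := h.sl j hm
      sl₂ := hs
      hR := by linarith
      hI := by linarith }
  refine hv.end3_low (hρ j hm) (by linarith [hβ j hm]) ?_
  rcases hβ' j hm with h1 | h1
  · exact Or.inl h1
  · right
    norm_num at h1 ⊢
    linarith

/-- Two or three slots. -/
theorem Vx.low3_two (h : Vx 3 R I J ρ β p r) (hc : 2 ≤ J.card)
    (hρ : ∀ j ∈ J, 1 / 2 ≤ ρ j) (hρ1 : ∀ j ∈ J, ρ j ≤ 1) (hβ : ∀ j ∈ J, β j ≤ 9 / 20) :
    7 / 25 ≤ th R I := by
  by_contra hn
  push Not at hn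
  have h0 := h.R0
  have h1 := h.R1
  have hI := h.I0
  have hpi := Real.pi_gt_d4
  have hx := xx_pos h0 h1 hI
  have hθ0 := th_pos h0 h1 hI
  have hal := al_pos h0 h1 hI
  have hal' := al_lt R I
  have e1 := tan_R_eq h0 h1 hI
  have e2 := tanh_I_eq h0 h1 hI
  have e3 : tan (al R I) * sinh (xx R I) = tan (th R I) * cosh (xx R I) := by
    have e := tan_al_eq h0 h1 hI
    rw [tanh_eq_sinh_div_cosh] at e
    rw [← e]
    have := cosh_pos (xx R I)
    field_simp
  have hsx : 0 < sinh (xx R I) := sinh_pos_iff.2 hx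
  have hcx := cosh_pos (xx R I)
  -- `θ`
  have hsin0 : 0 < sin (th R I) := sin_pos_of_pos_of_lt_pi hθ0 (by linarith)
  have hsin : sin (th R I) ≤ 2767 / 10000 := by
    have h2 : sin (th R I) ≤ sin (7 / 25) :=
      sin_le_sin_of_le_of_le_pi_div_two (by linarith) (by linarith) hn.le
    have h3 := V4_sin5 (x := 7 / 25) (by norm_num)
    norm_num at h3 ⊢
    linarith
  have hcos0 : 0 < cos (th R I) := cos_pos_of_mem_Ioo ⟨by linarith, by linarith⟩
  have hcos : 961 / 1000 ≤ cos (th R I) := by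
    refine le_of_sq_le_sq ?_ hcos0.le
    have h2 := sin_sq_add_cos_sq (th R I)
    have h3 : sin (th R I) ^ 2 ≤ (27636 / 100000) ^ 2 := by
      apply pow_le_pow_left₀ hsin0.le
      have h2 : sin (th R I) ≤ sin (7 / 25) :=
        sin_le_sin_of_le_of_le_pi_div_two (by linarith) (by linarith) hn.le
      have h3 := V4_sin5 (x := 7 / 25) (by norm_num)
      norm_num at h3 ⊢
      linarith
    norm_num at h3 ⊢
    linarith
  have htan : tan (th R I) ≤ 288 / 1000 := by
    rw [tan_eq_sin_div_cos, div_le_iff₀ hcos0]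
    linarith
  have htt : tt R I ^ 2 = sinh (xx R I) ^ 2 + sin (th R I) ^ 2 := by
    have f1 := cosh_two_xx h0 h1 hI
    have f2 := cos_two_th h0 h1 hI
    have hk0 := k2_pos (I := I) h0 h1
    rw [tt_sq h0 h1]
    have f3 : s2 R I / k2 R I = (cosh (2 * xx R I) - cos (2 * th R I)) / 2 := by
      rw [f1, f2]
      field_simp
      ring
    rw [f3, Real.cosh_two_mul, Real.cosh_sq, Real.cos_two_mul, Real.cos_sq']
    ring
  have ht0 := tt_pos (I := I) h0 h1
  have hR := h.hR
  have hIs := h.hI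
  have hcard : (J.card : ℝ) ≤ 3 := h.card
  rcases le_or_gt (sinh (xx R I)) (43 / 100) with hS | hS
  · -- the `r_j` are too small
    have htt2 : tt R I ≤ 5114 / 10000 := by
      refine le_of_sq_le_sq ?_ (by norm_num)
      rw [htt]
      have h2 : sinh (xx R I) ^ 2 ≤ (43 / 100) ^ 2 := pow_le_pow_left₀ hsx.le hS 2
      have h3 : sin (th R I) ^ 2 ≤ (2767 / 10000) ^ 2 := pow_le_pow_left₀ hsin0.le hsin 2
      norm_num at h2 h3 ⊢
      linarith
    have hr : ∀ j ∈ J, r j ≤ 56 / 100 := by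
      intro j hj
      by_contra hcon
      push Not at hcon
      have hs := h.sl j hj
      have h2 := V5_sq hs
      have h3 : sin (56 / 100) ≤ sin (r j) :=
        sin_le_sin_of_le_of_le_pi_div_two (by linarith) hs.r1 hcon.le
      have h4 := V4_sin3 (x := 56 / 100) (by norm_num)
      have h5 : (ρ j * tt R I) ^ 2 ≤ (5114 / 10000) ^ 2 := by
        apply pow_le_pow_left₀ (mul_nonneg hs.ρ0 ht0.le)
        calc ρ j * tt R I ≤ 1 * (5114 / 10000) :=
              mul_le_mul (hρ1 j hj) htt2 ht0.le (by norm_num)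
          _ = _ := one_mul _
      have h6 : (5307 / 10000 : ℝ) ≤ sin (r j) := by
        norm_num at h4 ⊢
        linarith
      have h7 : (5307 / 10000 : ℝ) ^ 2 ≤ sin (r j) ^ 2 := pow_le_pow_left₀ (by norm_num) h6 2
      have h8 := sq_nonneg (sinh (p j))
      norm_num at h7 h5
      linarith
    have hsum : ∑ j ∈ J, r j ≤ 3 * (56 / 100) := by
      calc ∑ j ∈ J, r j ≤ ∑ _j ∈ J, (56 / 100 : ℝ) := Finset.sum_le_sum hr
        _ = J.card * (56 / 100) := by rw [Finset.sum_const, nsmul_eq_mul]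
        _ ≤ 3 * (56 / 100) := by
            apply mul_le_mul_of_nonneg_right hcard (by norm_num)
    have hRR : R ≤ 4475 / 10000 := by
      have h2 := (lt_tan h0 h1).le
      refine h2.trans ?_
      rw [e1, div_le_iff₀ hcos0]
      linarith
    linarith
  · rcases le_or_gt (sinh (xx R I)) 1 with hS1 | hS1
    · -- `r_j ≤ t p_j`
      obtain ⟨t, g1, g2, g3⟩ := V6_mid h1 hI hal hal' e1 e2 e3 hsin hcos htan h0 hS.le hS1
      have hr : ∀ j ∈ J, r j ≤ t * p j := fun j hj =>
        V6_r_le (h.sl j hj) h0 h1 (by linarith [hρ j hj]) (hβ j hj) hal g1 g2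
      have hsum : ∑ j ∈ J, r j ≤ t * ∑ j ∈ J, p j := by
        rw [Finset.mul_sum]
        exact Finset.sum_le_sum hr
      rw [← hIs] at hsum
      linarith
    · -- the `p_j` are too large
      have htt2 : 1 ≤ tt R I := by
        refine le_of_sq_le_sq ?_ ht0.le
        rw [htt]
        have h2 : (1 : ℝ) ^ 2 ≤ sinh (xx R I) ^ 2 := pow_le_pow_left₀ (by norm_num) hS1.le 2
        have h3 := sq_nonneg (sin (th R I))
        linarith
      have hch : cosh (xx R I) ≤ 14143 / 10000 * sinh (xx R I) := by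
        refine le_of_sq_le_sq ?_ (by positivity)
        rw [mul_pow, cosh_sq]
        have h2 : (1 : ℝ) ≤ sinh (xx R I) ^ 2 := one_le_pow₀ hS1.le
        norm_num
        linarith
      have hal2 : al R I ≤ 4074 / 10000 := by
        refine (le_tan hal.le hal').trans ?_
        have h2 : tan (al R I) * sinh (xx R I) ≤ 4074 / 10000 * sinh (xx R I) := by
          rw [e3]
          have h3 : tan (th R I) * cosh (xx R I) ≤ 288 / 1000 * cosh (xx R I) :=
            mul_le_mul_of_nonneg_right htan hcx.le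
          linarith
        exact le_of_mul_le_mul_right h2 hsx
      have hch2 : 14142 / 10000 ≤ cosh (xx R I) := by
        refine le_of_sq_le_sq ?_ hcx.le
        rw [cosh_sq]
        have h2 : (1 : ℝ) ≤ sinh (xx R I) ^ 2 := one_le_pow₀ hS1.le
        norm_num
        linarith
      have hI1 : I ≤ 1984 / 10000 := by
        refine V6_artanh_le (y := 1957 / 10000) hI (by norm_num) (by norm_num) ?_ (by norm_num)
        rw [e2, div_le_iff₀ hcx]
        linarith
      have hp : ∀ j ∈ J, 31 / 100 ≤ p j := by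
        intro j hj
        have hs := h.sl j hj
        have hb := hβ j hj
        have hβ0 := hs.β0
        have f1 := hs.e1
        have h2 : 6324 / 10000 ≤ cos (al R I + β j) := by
          have h3 := one_sub_sq_div_two_le_cos (x := al R I + β j)
          have h4 : (al R I + β j) ^ 2 ≤ (8574 / 10000) ^ 2 :=
            pow_le_pow_left₀ (by linarith) (by linarith) 2
          norm_num at h4 ⊢
          linarith
        have h3 : 3162 / 10000 ≤ ρ j * tt R I * cos (al R I + β j) := by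
          have h4 : 1 / 2 * 1 ≤ ρ j * tt R I :=
            mul_le_mul (hρ j hj) htt2 (by norm_num) hs.ρ0
          calc (3162 / 10000 : ℝ) = 1 / 2 * 1 * (6324 / 10000) := by norm_num
            _ ≤ _ := mul_le_mul h4 h2 (by norm_num) (mul_nonneg hs.ρ0 ht0.le)
        have h4 : sinh (p j) * cos (r j) ≤ sinh (p j) := by
          have h5 : 0 ≤ sinh (p j) := sinh_nonneg_iff.2 hs.p0
          have h6 := cos_le_one (r j)
          calc sinh (p j) * cos (r j) ≤ sinh (p j) * 1 := mul_le_mul_of_nonneg_left h6 h5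
            _ = _ := mul_one _
        have h5 : 3162 / 10000 ≤ sinh (p j) := by linarith
        by_contra hcon
        push Not at hcon
        have h6 : sinh (p j) < sinh (31 / 100) := sinh_lt_sinh.2 hcon
        have h7 : sinh (31 / 100) ≤ 3162 / 10000 := by
          have h8 : exp (31 / 100 : ℝ) ≤ 13635 / 10000 := by
            refine (Real.exp_bound' (x := 31 / 100) (by norm_num) (by norm_num) (n := 5)
              (by norm_num)).trans ?_
            simp only [Finset.sum_range_succ, Finset.sum_range_zero, Nat.factorial]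
            norm_num
          have h9 : exp (31 / 100 : ℝ) * exp (-(31 / 100 : ℝ)) = 1 := by
            rw [← Real.exp_add]
            simp
          have h10 : 10000 / 13635 ≤ exp (-(31 / 100 : ℝ)) := by
            rw [div_le_iff₀ (by norm_num)]
            nlinarith [Real.exp_pos (-(31 / 100 : ℝ))]
          rw [Real.sinh_eq]
          linarith
        linarith
      have hsum : 2 * (31 / 100) ≤ ∑ j ∈ J, p j := by
        calc (2 * (31 / 100) : ℝ) ≤ J.card * (31 / 100) := by
              apply mul_le_mul_of_nonneg_right _ (by norm_num)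
              exact_mod_cast hc
          _ = ∑ _j ∈ J, (31 / 100 : ℝ) := by rw [Finset.sum_const, nsmul_eq_mul]
          _ ≤ _ := Finset.sum_le_sum hp
      linarith

theorem Vx.low3 (h : Vx 3 R I J ρ β p r)
    (hρ : ∀ j ∈ J, 53 / 100 ≤ ρ j) (hρ1 : ∀ j ∈ J, ρ j ≤ 1) (hβ : ∀ j ∈ J, β j ≤ 9 / 20)
    (hβ' : ∀ j ∈ J, β j ≤ 1 / 3 ∨ 21 / 50 ≤ ρ j ^ 2) : 7 / 25 ≤ th R I := by
  have hc := Finset.card_pos.2 h.ne
  rcases Nat.lt_or_ge J.card 2 with h1 | h1
  · exact h.low3_one (by omega) hρ hβ hβ'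
  · exact h.low3_two h1 (fun j hj => by linarith [hρ j hj]) hρ1 hβ

/-! ### The facts about a zero of the system at `τ = 1` -/

namespace Zr

variable {a : ι → ℝ} {N : ι → Finset ι} {z : ι → ℂ}

theorem ro_le_one [Finite ι] (h : Zr a N 1 z) (j : ι) : ro 1 z j ≤ 1 :=
  h.ro_le_one_of (h.k2_le j)

theorem ro_one (z : ι → ℂ) (j : ι) : ro 1 z j = ‖Complex.cos (z j)‖ := by
  unfold ro
  rw [Real.rpow_one]

theorem ro_half [Finite ι] (h : Zr a N 1 z) (j : ι) : 1 / 2 ≤ ro 1 z j := by
  rw [ro_one]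
  exact h.norm_ge_of (h.vx j).lemL3

theorem R_lt [Finite ι] (h : Zr a N 1 z) (i : ι) : (z i).re < 8 / 25 * Real.pi := by
  obtain ⟨j, hj⟩ := (h.vx i).ne
  exact (h.vx i).R_lt hj (h.ro_half j)

theorem ro_ge [Finite ι] (h : Zr a N 1 z) (j : ι) : 53 / 100 ≤ ro 1 z j := by
  rw [ro_one]
  have h1 := norm_cos_sq (z j)
  have h2 := Pool.Agent.S3.E.Zr.cos_ge (h.pos j).1.le (h.R_lt j).le
  have h3 : k2 (z j).re (z j).im = Real.cos (z j).re ^ 2 + Real.sinh (z j).im ^ 2 := by
    unfold k2 cc gg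
    rw [Real.cosh_two_mul, Real.cos_two_mul, Real.cosh_sq]
    ring
  refine le_of_sq_le_sq ?_ (norm_nonneg _)
  have h4 : (53 / 100 : ℝ) ^ 2 ≤ Real.cos (z j).re ^ 2 := pow_le_pow_left₀ (by norm_num) h2 2
  have h5 := sq_nonneg (Real.sinh (z j).im)
  rw [h1, h3]
  linarith

theorem be_or [Finite ι] (h : Zr a N 1 z) (j : ι) :
    be 1 z j ≤ 1 / 3 ∨ 21 / 50 ≤ ro 1 z j ^ 2 := by
  have h1 := norm_cos_sq (z j)
  rw [ro_one, h1]
  have h2 := (h.phi3 j).2
  unfold be
  rw [one_mul]
  exact h2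

theorem th_le [Finite ι] (h : Zr a N 1 z) (i : ι) : th (z i).re (z i).im ≤ 27 / 50 :=
  (h.vx i).th_le (h.k2_le i) fun j _ => h.ro_le_one j

theorem th_ge [Finite ι] (h : Zr a N 1 z) {i : ι} (hi : a i = 3) :
    7 / 25 ≤ th (z i).re (z i).im := by
  have hv := h.vx i
  rw [hi] at hv
  exact hv.low3 (fun j _ => h.ro_ge j) (fun j _ => h.ro_le_one j)
    (fun j _ => h.be_le j) fun j _ => h.be_or j

theorem R_lt' [Finite ι] (h : Zr a N 1 z) (i : ι) : (z i).re / Real.pi < 13 / 40 := by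
  rw [div_lt_iff₀ Real.pi_pos]
  have := h.R_lt i
  have := Real.pi_pos
  linarith

theorem pos_lt [Finite ι] (h : Zr a N 1 z) (i : ι) :
    2 * (Real.sin (th (z i).re (z i).im) * Real.cosh (xx (z i).re (z i).im)) ^ 2 < 1 :=
  (h.vx i).pos_lt (h.k2_le i) fun j _ => h.ro_le_one j

end Zr

end Pool.Agent.AT.E
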