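import Pool.Agent.AT.E.V7
import Pool.Agent.AT.E.CritZ
import Pool.Agent.S3.E.GeoX

/-!
# Project AT, block E: `Im q_ij + Re z_j < π / 2`

With `c = cosh 2I`, `g = cos 2R`, `S = sin 2R`, `H = sinh 2I` of the vertex `i` and `c', g', S', H'` of
the vertex `j`, the claim is `Q > 0` for `Q = 1 - g² g'² + c' g' S² + c g S'² - S S' H H'`, and
`2 Q = S² D' + S'² D + (H S' - H' S)²` with `D = 2 + 2 c g + g² - c²`. `D > 0` is
`2 H² < (c + g)²`, i.e. `Im tan z < 1 / √2`.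
-/

namespace Pool.Agent.AT.E

open Real Pool.Agent.S3.E

theorem V8_D {R I : ℝ} (h : 0 < R) (h' : R < π / 2) (hI : 0 < I)
    (hp : 2 * (sin (th R I) * cosh (xx R I)) ^ 2 < 1) :
    0 < 2 + 2 * cc I * gg R + gg R ^ 2 - cc I ^ 2 := by
  have e1 := cosh_two_xx h h' hI
  have e2 := cos_two_th h h' hI
  have hk := k2_pos (I := I) h h'
  have f1 : cosh (xx R I) ^ 2 = (1 + s2 R I + k2 R I) / (2 * k2 R I) := by
    have := Real.cosh_two_mul (xx R I)
    have h2 := Real.cosh_sq (xx R I)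
    have h3 : cosh (xx R I) ^ 2 = (cosh (2 * xx R I) + 1) / 2 := by linarith
    rw [h3, e1]
    field_simp
  have f2 : sin (th R I) ^ 2 = (k2 R I - 1 + s2 R I) / (2 * k2 R I) := by
    have := Real.cos_two_mul (th R I)
    have h2 := sin_sq_add_cos_sq (th R I)
    have h3 : sin (th R I) ^ 2 = (1 - cos (2 * th R I)) / 2 := by linarith
    rw [h3, e2]
    field_simp
    ring
  rw [mul_pow, f1, f2] at hp
  have f3 : 2 * ((k2 R I - 1 + s2 R I) / (2 * k2 R I) * ((1 + s2 R I + k2 R I) / (2 * k2 R I))) =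
      ((s2 R I + k2 R I) ^ 2 - 1) / (2 * k2 R I ^ 2) := by
    field_simp
    ring
  rw [f3, div_lt_one (by positivity)] at hp
  unfold s2 k2 at hp
  nlinarith

theorem V8_cs {R I : ℝ} (h : 0 < R) (h' : R < π / 2) (hI : 0 < I) :
    0 < cc I ^ 2 - gg R ^ 2 := by
  have h4 := one_lt_cc hI
  have h2 := sin_two_sq R
  have h3 := sin_two_pos h h'
  have h5 : 0 < 1 - gg R ^ 2 := by rw [← h2]; positivity
  nlinarith

theorem V8_sin_al {R I : ℝ} (h : 0 < R) (h' : R < π / 2) (hI : 0 < I) :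
    sin (2 * al R I) = 2 * sin (2 * R) * sinh (2 * I) / (cc I ^ 2 - gg R ^ 2) := by
  have h1 := sinh_two_sq I
  have h2 := sin_two_sq R
  have h3 := sin_two_pos h h'
  have h6 := V8_cs h h' hI
  have hc : 0 < cos (al R I) := Real.cos_arctan_pos _
  have e1 : sin (al R I) = sinh (2 * I) / sin (2 * R) * cos (al R I) := by
    rw [← tan_al, Real.tan_mul_cos hc.ne']
  have e2 : cos (al R I) ^ 2 = 1 / (1 + (sinh (2 * I) / sin (2 * R)) ^ 2) :=
    Real.cos_sq_arctan _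
  have e3 : 1 + (sinh (2 * I) / sin (2 * R)) ^ 2 = (cc I ^ 2 - gg R ^ 2) / sin (2 * R) ^ 2 := by
    rw [div_pow, h1]
    field_simp
    rw [h2]
    ring
  have e4 : sin (2 * al R I) = 2 * (sinh (2 * I) / sin (2 * R)) * cos (al R I) ^ 2 := by
    rw [Real.sin_two_mul, e1]
    ring
  rw [e4, e2, e3]
  field_simp

theorem V8_ph {R I : ℝ} (h : 0 < R) (h' : R < π / 2) :
    1 + (tan R * tanh I) ^ 2 = k2 R I / (cos R * cosh I) ^ 2 := by
  have hc := GeoX_cos_pos h h'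
  have hC := Real.cosh_pos I
  have h1 := Real.sin_sq_add_cos_sq R
  have h2 := Real.cosh_sq I
  rw [Real.tan_eq_sin_div_cos, Real.tanh_eq_sinh_div_cosh, GeoX_k2]
  field_simp
  have a1 : sin R ^ 2 = 1 - cos R ^ 2 := by linarith
  have a2 : sinh I ^ 2 = cosh I ^ 2 - 1 := by linarith
  rw [a1, a2]
  ring

theorem V8_cos_ph {R I : ℝ} (h : 0 < R) (h' : R < π / 2) :
    cos (2 * ph R I) = (1 + cc I * gg R) / (cc I + gg R) := by
  have hc := GeoX_cos_pos h h'
  have hC := Real.cosh_pos I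
  have hk := k2_pos (I := I) h h'
  have e2 : cos (ph R I) ^ 2 = 1 / (1 + (tan R * tanh I) ^ 2) := Real.cos_sq_arctan _
  have hcg : cc I + gg R = 2 * k2 R I := by unfold k2; ring
  rw [Real.cos_two_mul, e2, V8_ph h h', hcg]
  field_simp
  rw [GeoX_k2, GeoX_gg, GeoX_cc]
  ring

theorem V8_sin_ph {R I : ℝ} (h : 0 < R) (h' : R < π / 2) :
    sin (2 * ph R I) = sin (2 * R) * sinh (2 * I) / (cc I + gg R) := by
  have hc := GeoX_cos_pos h h'
  have hC := Real.cosh_pos I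
  have hk := k2_pos (I := I) h h'
  have hcp : 0 < cos (ph R I) := Real.cos_arctan_pos _
  have e1 : sin (ph R I) = tan R * tanh I * cos (ph R I) := by
    have := tan_ph R I
    rw [← this, Real.tan_mul_cos hcp.ne']
  have e2 : cos (ph R I) ^ 2 = 1 / (1 + (tan R * tanh I) ^ 2) := Real.cos_sq_arctan _
  have hcg : cc I + gg R = 2 * k2 R I := by unfold k2; ring
  have e4 : sin (2 * ph R I) = 2 * (tan R * tanh I) * cos (ph R I) ^ 2 := by
    rw [Real.sin_two_mul, e1]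
    ring
  rw [e4, e2, V8_ph h h', hcg, Real.tan_eq_sin_div_cos, Real.tanh_eq_sinh_div_cosh,
    Real.sin_two_mul, Real.sinh_two_mul]
  field_simp

theorem V8_pair {R I R' I' ρ p r : ℝ} (h : 0 < R) (h' : R < π / 2) (hI : 0 < I)
    (g : 0 < R') (g' : R' < π / 2)
    (hD : 0 < 2 + 2 * cc I * gg R + gg R ^ 2 - cc I ^ 2)
    (gD : 0 < 2 + 2 * cc I' * gg R' + gg R' ^ 2 - cc I' ^ 2)
    (hs : Slot R I ρ (ph R' I') p r) (hρ : ρ ^ 2 = k2 R' I') : r + R' < π / 2 := by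
  by_contra hcon
  push Not at hcon
  have hr0 := hs.r0
  have hr1 := hs.r1
  have h1 : cos (2 * r) ≤ cos (π - 2 * R') :=
    cos_le_cos_of_nonneg_of_le_pi (by linarith) (by linarith) (by linarith)
  rw [cos_pi_sub] at h1
  have h2 := hs.cos_two
  set m := (ρ * tt R I) ^ 2 with hm
  set ψ := al R I + ph R' I' with hψ
  have hG : gg R' = cos (2 * R') := rfl
  have h3 : √(1 + 2 * m * cos (2 * ψ) + m ^ 2) ≤ m - gg R' := by
    rw [hG]
    linarith
  have h4 := (Real.sqrt_le_iff.1 h3).2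
  have hk := k2_pos (I := I) h h'
  have hcs := V8_cs h h' hI
  have hkj : 0 < cc I' + gg R' := by
    have := k2_pos (I := I') g g'
    unfold k2 at this
    linarith
  have hki : 0 < cc I + gg R := by
    have := hk
    unfold k2 at this
    linarith
  have em : 2 * m = (cc I' + gg R') * (cc I - gg R) / (cc I + gg R) := by
    rw [hm, mul_pow, hρ, tt_sq h h']
    unfold k2 s2
    field_simp
  have ec : cos (2 * ψ) = ((2 - cc I ^ 2 - gg R ^ 2) * (1 + cc I' * gg R') -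
      2 * (sin (2 * R) * sinh (2 * I)) * (sin (2 * R') * sinh (2 * I'))) /
      ((cc I ^ 2 - gg R ^ 2) * (cc I' + gg R')) := by
    rw [hψ, mul_add, Real.cos_add, cos_two_al h h' hI, V8_sin_al h h' hI, V8_cos_ph g g',
      V8_sin_ph g g']
    field_simp
  have hcs' : cc I ^ 2 - gg R ^ 2 = (cc I - gg R) * (cc I + gg R) := by ring
  have hci : 0 < cc I - gg R := by
    rw [hcs'] at hcs
    exact (pos_iff_pos_of_mul_pos hcs).2 hki
  have h5 : 1 - gg R' ^ 2 + 2 * m * (cos (2 * ψ) + gg R') ≤ 0 := by linarith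
  have h6 : (1 - gg R' ^ 2 + 2 * m * (cos (2 * ψ) + gg R')) * (cc I + gg R) ^ 2 =
      2 * (1 - gg R ^ 2 * gg R' ^ 2 + cc I * gg R * (1 - gg R' ^ 2) +
        cc I' * gg R' * (1 - gg R ^ 2) -
        (sin (2 * R) * sinh (2 * I)) * (sin (2 * R') * sinh (2 * I'))) := by
    rw [em, ec, hcs']
    field_simp
    ring
  have h7 : (1 - gg R' ^ 2 + 2 * m * (cos (2 * ψ) + gg R')) * (cc I + gg R) ^ 2 ≤ 0 :=
    mul_nonpos_of_nonpos_of_nonneg h5 (sq_nonneg _)
  rw [h6] at h7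
  have s1 := sin_two_sq R
  have s2' := sin_two_sq R'
  have s3 := sinh_two_sq I
  have s4 := sinh_two_sq I'
  have p1 := sin_two_pos h h'
  have p2 := sin_two_pos g g'
  set S := sin (2 * R)
  set S' := sin (2 * R')
  set H := sinh (2 * I)
  set H' := sinh (2 * I')
  have h8 : 2 * (1 - gg R ^ 2 * gg R' ^ 2 + cc I * gg R * (1 - gg R' ^ 2) +
        cc I' * gg R' * (1 - gg R ^ 2) - (S * H) * (S' * H')) =
      S ^ 2 * (2 + 2 * cc I' * gg R' + gg R' ^ 2 - cc I' ^ 2) +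
      S' ^ 2 * (2 + 2 * cc I * gg R + gg R ^ 2 - cc I ^ 2) + (H * S' - H' * S) ^ 2 := by
    have e : (H * S' - H' * S) ^ 2 = H ^ 2 * S' ^ 2 + H' ^ 2 * S ^ 2 - 2 * ((S * H) * (S' * H')) := by
      ring
    rw [e, s1, s2', s3, s4]
    ring
  rw [h8] at h7
  have : 0 < S ^ 2 * (2 + 2 * cc I' * gg R' + gg R' ^ 2 - cc I' ^ 2) := by positivity
  have : 0 < S' ^ 2 * (2 + 2 * cc I * gg R + gg R ^ 2 - cc I ^ 2) := by positivity
  have := sq_nonneg (H * S' - H' * S)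
  linarith

variable {ι : Type*}

theorem Zr.D_pos [Finite ι] {a : ι → ℝ} {N : ι → Finset ι} {z : ι → ℂ} (h : Zr a N 1 z) (i : ι) :
    0 < 2 + 2 * cc (z i).im * gg (z i).re + gg (z i).re ^ 2 - cc (z i).im ^ 2 :=
  V8_D (h.pos i).1 (h.pos i).2.1 (h.pos i).2.2 (h.pos_lt i)

/-- `Im q_ij + Re z_j < π / 2`. -/
theorem Zr.qe_add_lt [Finite ι] {a : ι → ℝ} {N : ι → Finset ι} {z : ι → ℂ} (h : Zr a N 1 z)
    {i j : ι} (hij : j ∈ N i) : (qe (z i) (z j)).im + (z j).re < Real.pi / 2 := by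
  rw [h.cz.qe_im_eq hij]
  have hs := (h.vx i).sl j hij
  have hb : be 1 z j = ph (z j).re (z j).im := one_mul _
  rw [hb] at hs
  refine V8_pair (h.pos i).1 (h.pos i).2.1 (h.pos i).2.2 (h.pos j).1 (h.pos j).2.1
    (h.D_pos i) (h.D_pos j) hs ?_
  rw [Zr.ro_one, norm_cos_sq]

end Pool.Agent.AT.E
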